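import Pool.Agent.H90.HR.StmtDefs

/-!
# Diagrams of varieties which lift to characteristic zero: auxiliary definitions
-/

open CategoryTheory AlgebraicGeometry

universe u v

namespace Pool.Agent.H90.HR

open Pool.Agent.H914 Pool.Agent.H914.VarClass Pool.Agent.H914.VarClass.Obj
  Pool.Agent.H914.WeilCohomology Pool.Agent.W552

variable {k : Type u} [Field k] {𝒱 : VarClass k} {ops : CycleOps 𝒱}

/-- The properties of the Frobenius endomorphisms. -/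
structure FrobData (W : WeilCohomology.{u, v} ops) (𝓓 : Diagram 𝒱) (q : ℕ)
    (F : ∀ i, 𝓓.Hom i i) : Prop where
  pos : 0 < q
  polar : ∀ i, W.map (F i) (W.cl (𝓓.X i) (𝓓.D i)) = (q : W.K) • W.cl (𝓓.X i) (𝓓.D i)
  cyc : ∀ i, FrobeniusOnCycles W (𝓓.X i) (F i) q
  rh : ∀ i, RiemannHypothesis W (𝓓.X i) (F i) q

/-- The conjecture `A(X)` of Lefschetz type and the Hodge type conjecture in one codimension. -/
def HodgeTypeIn (W : WeilCohomology.{u, v} ops) (X : 𝒱.Obj) (D : X.Cycles) (r : ℕ) : Prop :=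
  ∀ z, X.IsCyc r z → W.cl X (divPow ops D (X.dim - 2 * r + 1) z) = 0 → W.cl X z ≠ 0 →
    0 < (-1 : ℚ) ^ r * X.V.degCycle (ops.mul z (divPow ops D (X.dim - 2 * r) z))

/-- The system of classes on the varieties of the diagram generated by the algebraic classes of
codimension at most `m i` on `X i`, the class of `D i` and the classes of the cycles in the sets
`Z i r`. -/
inductive Gen (W : WeilCohomology.{u, v} ops) (𝓓 : Diagram 𝒱) (F : ∀ i, 𝓓.Hom i i)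
    {G : Type} (g : G → ∀ i, 𝓓.Hom i i) (m : 𝓓.J → ℕ) :
    ∀ (i : 𝓓.J), ℕ → W.H (𝓓.X i) → Prop
  | low {i : 𝓓.J} {r : ℕ} {x : W.H (𝓓.X i)} : r ≤ m i → x ∈ algClasses W (𝓓.X i) r →
      Gen W 𝓓 F g m i r x
  | polar (i : 𝓓.J) : Gen W 𝓓 F g m i 1 (W.cl (𝓓.X i) (𝓓.D i))
  | lifted {i : 𝓓.J} {r : ℕ} {z : (𝓓.X i).Cycles} : z ∈ 𝓓.Z i r →
      Gen W 𝓓 F g m i r (W.cl (𝓓.X i) z)
  | add {i : 𝓓.J} {r : ℕ} {x y : W.H (𝓓.X i)} : Gen W 𝓓 F g m i r x → Gen W 𝓓 F g m i r y →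
      Gen W 𝓓 F g m i r (x + y)
  | smul {i : 𝓓.J} {r : ℕ} (s : ℚ) {x : W.H (𝓓.X i)} : Gen W 𝓓 F g m i r x →
      Gen W 𝓓 F g m i r ((s : W.K) • x)
  | mul {i : 𝓓.J} {r s : ℕ} {x y : W.H (𝓓.X i)} : Gen W 𝓓 F g m i r x → Gen W 𝓓 F g m i s y →
      Gen W 𝓓 F g m i (r + s) (x * y)
  | pull {i j : 𝓓.J} {r : ℕ} {f : 𝓓.Hom i j} {x : W.H (𝓓.X j)} : GoodMor W 𝓓 F g i j f →
      Gen W 𝓓 F g m j r x → Gen W 𝓓 F g m i r (W.map f x)
  | push {i j : 𝓓.J} {r s : ℕ} {f : 𝓓.Hom i j} {x : W.H (𝓓.X i)} : GoodMor W 𝓓 F g i j f →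
      Gen W 𝓓 F g m i r x → r + (𝓓.X j).dim = s + (𝓓.X i).dim → Gen W 𝓓 F g m j s (W.push f x)
  | lef {i : 𝓓.J} {r : ℕ} {b : W.H (𝓓.X i)} : 2 * r ≤ (𝓓.X i).dim →
      b ∈ algClasses W (𝓓.X i) r →
      Gen W 𝓓 F g m i ((𝓓.X i).dim - r) (W.cl (𝓓.X i) (𝓓.D i) ^ ((𝓓.X i).dim - 2 * r) * b) →
      Gen W 𝓓 F g m i r b

/-- The class `x` on `X i` is a linear combination, with coefficients in the coefficient field, of
classes of the system of the same codimension. -/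
def GeneratedBy (W : WeilCohomology.{u, v} ops) (𝓓 : Diagram 𝒱) (F : ∀ i, 𝓓.Hom i i)
    {G : Type} (g : G → ∀ i, 𝓓.Hom i i) (m : 𝓓.J → ℕ) (i : 𝓓.J) (x : W.H (𝓓.X i)) : Prop :=
  ∃ r, x ∈ Submodule.span W.K {y | Gen W 𝓓 F g m i r y}

end Pool.Agent.H90.HR
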