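import Pool.Agent.H90.HR.GenStab

/-!
# Eigenvectors with positive eigenvalues
-/

open CategoryTheory AlgebraicGeometry Module ComplexConjugate Submodule

universe u v

namespace Pool.Agent.H90.HR

open Pool.Agent.H914 Pool.Agent.H914.VarClass Pool.Agent.H914.VarClass.Obj
  Pool.Agent.H914.WeilCohomology Pool.Agent.H281R3.HT Pool.Agent.W552 Pool.Agent.Y103

section Abs

variable {K : Type*} [Field K] {A : Type*} [Ring A] [Algebra K A]

/-- The graph of the conjugation of the linear combinations of the elements with the property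
`N`. -/
inductive CPair (ι : K ≃+* ℂ) (N : A → Prop) : A → A → Prop
  | zero : CPair ι N 0 0
  | smul (t : K) {x : A} : N x → CPair ι N (t • x) (ι.symm (conj (ι t)) • x)
  | add {v w v' w' : A} : CPair ι N v w → CPair ι N v' w' → CPair ι N (v + v') (w + w')

/-- The eigenvectors with positive eigenvalues. -/
def PE (ι : K ≃+* ℂ) (N : A → Prop) (c : A → A) (v : A) : Prop :=
  ∃ w, ∃ μ : ℝ, 0 < μ ∧ CPair ι N v w ∧ c v = ι.symm (μ : ℂ) • w

variable {ι : K ≃+* ℂ} {N : A → Prop}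

lemma CPair.of {x : A} (hx : N x) : CPair ι N x x := by
  have := CPair.smul (ι := ι) 1 hx
  simpa using this

lemma CPair.scal {v w : A} (h : CPair ι N v w) (s : K) :
    CPair ι N (s • v) (ι.symm (conj (ι s)) • w) := by
  induction h with
  | zero => rw [smul_zero, smul_zero]; exact CPair.zero
  | smul t hx =>
    have := CPair.smul (ι := ι) (s * t) hx
    rwa [map_mul, map_mul, map_mul, mul_smul, mul_smul] at this
  | add _ _ h1 h2 => rw [smul_add, smul_add]; exact CPair.add h1 h2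

lemma CPair.symm {v w : A} (h : CPair ι N v w) : CPair ι N w v := by
  induction h with
  | zero => exact CPair.zero
  | @smul t x hx =>
    have := CPair.smul (ι := ι) (ι.symm (conj (ι t))) hx
    rwa [ι.apply_symm_apply, Complex.conj_conj, ι.symm_apply_apply] at this
  | add _ _ h1 h2 => exact CPair.add h1 h2

lemma CPair.mem {v w : A} (h : CPair ι N v w) : v ∈ span K {x | N x} := by
  induction h with
  | zero => exact zero_mem _
  | smul t hx => exact smul_mem _ _ (subset_span hx)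
  | add _ _ h1 h2 => exact add_mem h1 h2

lemma CPair.exist {v : A} (h : v ∈ span K {x | N x}) : ∃ w, CPair ι N v w := by
  induction h using span_induction with
  | mem x hx => exact ⟨x, CPair.of hx⟩
  | zero => exact ⟨0, CPair.zero⟩
  | add x y _ _ h1 h2 =>
    obtain ⟨w, h1⟩ := h1
    obtain ⟨w', h2⟩ := h2
    exact ⟨w + w', CPair.add h1 h2⟩
  | smul t x _ h1 =>
    obtain ⟨w, h1⟩ := h1
    exact ⟨_, h1.scal t⟩

lemma CPair.map {B : Type*} [Ring B] [Algebra K B] {N' : B → Prop} (T : A →ₗ[K] B)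
    (hT : ∀ x, N x → N' (T x)) {v w : A} (h : CPair ι N v w) : CPair ι N' (T v) (T w) := by
  induction h with
  | zero => rw [map_zero]; exact CPair.zero
  | smul t hx => rw [map_smul, map_smul]; exact CPair.smul t (hT _ hx)
  | add _ _ h1 h2 => rw [map_add, map_add]; exact CPair.add h1 h2

lemma CPair.mul {N' N'' : A → Prop} (hN : ∀ x y, N x → N' y → N'' (x * y)) {v w v' w' : A}
    (h : CPair ι N v w) (h' : CPair ι N' v' w') : CPair ι N'' (v * v') (w * w') := by
  induction h with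
  | zero => rw [zero_mul, zero_mul]; exact CPair.zero
  | @smul t x hx =>
    have h1 := (CPair.map (N' := N'') (LinearMap.mulLeft K x) (fun y hy => hN x y hx hy) h').scal t
    rw [smul_mul_assoc, smul_mul_assoc]
    exact h1
  | add _ _ h1 h2 => rw [add_mul, add_mul]; exact CPair.add h1 h2

/-- Division. -/
lemma CPair.div {N' : A → Prop} {e : A} (hN : ∀ x, N x → ∃ b, N' b ∧ x = e * b) {v w : A}
    (h : CPair ι N v w) : ∃ v' w', CPair ι N' v' w' ∧ v = e * v' ∧ w = e * w' := by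
  induction h with
  | zero => exact ⟨0, 0, CPair.zero, by rw [mul_zero], by rw [mul_zero]⟩
  | @smul t x hx =>
    obtain ⟨b, hb, rfl⟩ := hN x hx
    exact ⟨_, _, CPair.smul t hb, by rw [mul_smul_comm], by rw [mul_smul_comm]⟩
  | add _ _ h1 h2 =>
    obtain ⟨v, w, h1, rfl, rfl⟩ := h1
    obtain ⟨v', w', h2, rfl, rfl⟩ := h2
    exact ⟨v + v', w + w', CPair.add h1 h2, by rw [mul_add], by rw [mul_add]⟩

lemma PE.mul {N' N'' : A → Prop} {c : A → A} (hc : ∀ a b, c (a * b) = c a * c b)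
    (hN : ∀ x y, N x → N' y → N'' (x * y)) {v v' : A}
    (h : PE ι N c v) (h' : PE ι N' c v') : PE ι N'' c (v * v') := by
  obtain ⟨w, μ, hμ, h1, h2⟩ := h
  obtain ⟨w', μ', hμ', h1', h2'⟩ := h'
  refine ⟨w * w', μ * μ', mul_pos hμ hμ', h1.mul hN h1', ?_⟩
  rw [hc, h2, h2', smul_mul_smul_comm, ← map_mul, Complex.ofReal_mul]

lemma PE.map {B : Type*} [Ring B] [Algebra K B] {N' : B → Prop} {c : A → A} {c' : B → B}
    (T : A →ₗ[K] B) (hT : ∀ x, N x → N' (T x)) (hcT : ∀ a, c' (T a) = T (c a)) {v : A}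
    (h : PE ι N c v) : PE ι N' c' (T v) := by
  obtain ⟨w, μ, hμ, h1, h2⟩ := h
  exact ⟨T w, μ, hμ, h1.map T hT, by rw [hcT, h2, map_smul]⟩

lemma PE.of {c : A → A} {x : A} (hx : N x) (hc : c x = x) : PE ι N c x :=
  ⟨x, 1, one_pos, CPair.of hx, by rw [hc]; simp⟩

/-- The span of the eigenvectors with positive eigenvalues. -/
def PS (ι : K ≃+* ℂ) (N : A → Prop) (c : A → A) : Submodule K A := span K {v | PE ι N c v}

lemma ps_mul {N' N'' : A → Prop} {c : A → A} (hc : ∀ a b, c (a * b) = c a * c b)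
    (hN : ∀ x y, N x → N' y → N'' (x * y)) {x y : A}
    (hx : x ∈ PS ι N c) (hy : y ∈ PS ι N' c) : x * y ∈ PS ι N'' c := by
  unfold PS at hx hy
  induction hx using span_induction with
  | mem x hx =>
    induction hy using span_induction with
    | mem y hy => exact subset_span (PE.mul hc hN hx hy)
    | zero => rw [mul_zero]; exact zero_mem _
    | add x' y' _ _ h1 h2 => rw [mul_add]; exact add_mem h1 h2
    | smul t x' _ h1 => rw [mul_smul_comm]; exact smul_mem _ _ h1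
  | zero => rw [zero_mul]; exact zero_mem _
  | add x' y' _ _ h1 h2 => rw [add_mul]; exact add_mem h1 h2
  | smul t x' _ h1 => rw [smul_mul_assoc]; exact smul_mem _ _ h1

lemma ps_map {B : Type*} [Ring B] [Algebra K B] {N' : B → Prop} {c : A → A} {c' : B → B}
    (T : A →ₗ[K] B) (hT : ∀ x, N x → N' (T x)) (hcT : ∀ a, c' (T a) = T (c a)) {x : A}
    (hx : x ∈ PS ι N c) : T x ∈ PS ι N' c' := by
  unfold PS at hx
  induction hx using span_induction with
  | mem x hx => exact subset_span (PE.map T hT hcT hx)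
  | zero => rw [map_zero]; exact zero_mem _
  | add x' y' _ _ h1 h2 => rw [map_add]; exact add_mem h1 h2
  | smul t x' _ h1 => rw [map_smul]; exact smul_mem _ _ h1

end Abs

variable {k : Type u} [Field k] {𝒱 : VarClass k} {ops : CycleOps 𝒱}
  {W : WeilCohomology.{u, v} ops}

namespace Setup

variable [IsAlgClosed W.K] {ι : W.K ≃+* ℂ} {𝓓 : Diagram 𝒱} {q : ℕ} {F : ∀ i, 𝓓.Hom i i}
  {G : Type} {g : G → ∀ i, 𝓓.Hom i i} {m : 𝓓.J → ℕ} {c : ∀ i, W.H (𝓓.X i) → W.H (𝓓.X i)} (S : Setup W ι 𝓓 q F g m c)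

include S

/-- The involutions are Hodge-Riemann involutions in the sense of the even degrees. -/
lemma isHR (i : 𝓓.J) : IsHodgeRiemann (W.gr (𝓓.X i)) (𝓓.X i).dim (W.tr (𝓓.X i))
    (W.cl (𝓓.X i) (𝓓.D i)) ι (c i) where
  add := (S.fhr i).add
  smul := (S.fhr i).smul
  mul := (S.fhr i).mul
  polar := (S.fhr i).polar
  invol j a ha := by
    rw [(S.fhr i).invol _ a ha, pow_mul]
    simp
  pos j hj a ha hp h0 := by
    have h1 := (S.fhr i).pos (2 * j) hj a ha hp h0
    rwa [show 2 * j * (2 * j + 1) / 2 = j * (2 * j + 1) by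
      rw [mul_assoc, Nat.mul_div_cancel_left _ two_pos], show j * (2 * j + 1) = 2 * (j * j) + j by
      ring, pow_add, pow_mul, neg_one_sq, one_pow, one_mul] at h1

/-- The data of the abstract theorem. -/
theorem core (i : 𝓓.J) :
    letI := algC (A := W.H (𝓓.X i)) ι
    HRCore (𝓓.X i).dim (trC ι (W.tr (𝓓.X i))) (W.cl (𝓓.X i) (𝓓.D i))
      (fun r x => Gen W 𝓓 F g m i r x) (c i) := by
  refine hrCore (S.hD i) (S.isHR i) (ringOf S.hD S.hZ i) (fun j a ha => S.sg_stable ha) ?_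
  intro r hr a ha
  induction ha using span_induction with
  | mem a ha =>
    obtain ⟨b, hb, h⟩ := gen_dec S.hA S.hD S.hZ hr ha
    exact ⟨b, subset_span hb, h⟩
  | zero => exact ⟨0, zero_mem _, by simp⟩
  | add x y _ _ h1 h2 =>
    obtain ⟨b, hb, h1⟩ := h1
    obtain ⟨b', hb', h2⟩ := h2
    refine ⟨b + b', add_mem hb hb', ?_⟩
    have e : x + y - W.cl (𝓓.X i) (𝓓.D i) * (b + b') = (x - W.cl (𝓓.X i) (𝓓.D i) * b) +
        (y - W.cl (𝓓.X i) (𝓓.D i) * b') := by
      rw [mul_add (W.cl (𝓓.X i) (𝓓.D i))]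
      abel
    rw [e, mul_add (W.cl (𝓓.X i) (𝓓.D i) ^ _), h1, h2, add_zero]
  | smul t x _ h1 =>
    obtain ⟨b, hb, h1⟩ := h1
    refine ⟨t • b, smul_mem _ _ hb, ?_⟩
    rw [mul_smul_comm, ← smul_sub, mul_smul_comm, h1, smul_zero]

/-- The conjugation. -/
lemma cc_of_pair {i : 𝓓.J} {r : ℕ} (hr : 2 * r ≤ (𝓓.X i).dim) {v w : W.H (𝓓.X i)}
    (h : CPair ι (fun x => Gen W 𝓓 F g m i r x) v w) :
    letI := algC (A := W.H (𝓓.X i)) ι
    cc (𝓓.X i).dim (trC ι (W.tr (𝓓.X i))) (W.cl (𝓓.X i) (𝓓.D i))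
      (fun r x => Gen W 𝓓 F g m i r x) r v = w := by
  let _ := algC (A := W.H (𝓓.X i)) ι
  have H := S.core i
  have hmem : ∀ {v w : W.H (𝓓.X i)}, CPair ι (fun x => Gen W 𝓓 F g m i r x) v w →
      v ∈ DD (fun r x => Gen W 𝓓 F g m i r x) r := fun h => (mem_spanC ι _ _).2 h.mem
  induction h with
  | zero => exact H.cc_zero hr
  | @smul t x hx =>
    have h1 := H.cc_smul hr (ι t) (HRCore.sub_dd (N := fun r x => Gen W 𝓓 F g m i r x) hx)
    rw [H.cc_N hr hx, smul_algC, ι.symm_apply_apply, smul_algC] at h1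
    exact h1
  | add h1 h2 h3 h4 => rw [H.cc_add hr (hmem h1) (hmem h2), h3, h4]

lemma ee_of_pe {i : 𝓓.J} {r : ℕ} (hr : 2 * r ≤ (𝓓.X i).dim) {v : W.H (𝓓.X i)}
    (h : PE ι (fun x => Gen W 𝓓 F g m i r x) (c i) v) :
    letI := algC (A := W.H (𝓓.X i)) ι
    HRCore.EE (𝓓.X i).dim (trC ι (W.tr (𝓓.X i))) (W.cl (𝓓.X i) (𝓓.D i))
      (fun r x => Gen W 𝓓 F g m i r x) (c i) r v := by
  let _ := algC (A := W.H (𝓓.X i)) ι
  have H := S.core i
  obtain ⟨w, μ, hμ, h1, h2⟩ := h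
  refine ⟨(mem_spanC ι _ _).2 h1.mem, μ, hμ, ?_⟩
  rw [h2, ← smul_algC ι, H.cc_smul hr _ ((mem_spanC ι _ _).2 h1.symm.mem),
    S.cc_of_pair hr h1.symm, Complex.conj_ofReal]

lemma pe_of_ee {i : 𝓓.J} {r : ℕ} (hr : 2 * r ≤ (𝓓.X i).dim) {v : W.H (𝓓.X i)}
    (h : letI := algC (A := W.H (𝓓.X i)) ι
      HRCore.EE (𝓓.X i).dim (trC ι (W.tr (𝓓.X i))) (W.cl (𝓓.X i) (𝓓.D i))
      (fun r x => Gen W 𝓓 F g m i r x) (c i) r v) :
    PE ι (fun x => Gen W 𝓓 F g m i r x) (c i) v := by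
  let _ := algC (A := W.H (𝓓.X i)) ι
  have H := S.core i
  obtain ⟨hv, μ, hμ, h1⟩ := h
  obtain ⟨w, hw⟩ := CPair.exist (ι := ι) ((mem_spanC ι _ _).1 hv)
  refine ⟨w, μ, hμ, hw, ?_⟩
  have h2 := H.cc_cc hr (H.cmem hv)
  rw [h1, H.cc_smul hr _ hv, S.cc_of_pair hr hw, Complex.conj_ofReal, smul_algC] at h2
  exact h2.symm

/-- Classes of low codimension. -/
lemma low_ps {i : 𝓓.J} {r : ℕ} (hrm : r ≤ m i) (hr : 2 * r ≤ (𝓓.X i).dim) {x : W.H (𝓓.X i)}
    (hx : Gen W 𝓓 F g m i r x) : x ∈ PS ι (fun x => Gen W 𝓓 F g m i r x) (c i) := by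
  have hprim : ∀ r ≤ m i, 2 * r ≤ (𝓓.X i).dim → ∀ x, Gen W 𝓓 F g m i r x →
      W.cl (𝓓.X i) (𝓓.D i) ^ ((𝓓.X i).dim - 2 * r + 1) * x = 0 →
      x ∈ PS ι (fun x => Gen W 𝓓 F g m i r x) (c i) := by
    intro r hrm hr x hx hp
    let _ := algC (A := W.H (𝓓.X i)) ι
    have H := S.core i
    have h1 := H.vv_low hr (fun a ha h1 h2 => by
      obtain ⟨z, hz, rfl⟩ := gen_alg S.hD S.hZ ha
      exact low_of_hodge (S.hD i) hr hz (S.hH i r hrm hr z hz (by
        rw [cl_divPow, mulLeft_pow_apply']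
        exact h1) h2)) (x := x) (by
          refine ⟨HRCore.sub_dd hx, ?_⟩
          exact hp)
    rw [mem_spanC] at h1
    refine (span_le.2 ?_) h1
    intro v hv
    exact subset_span (S.pe_of_ee hr hv)
  induction r generalizing x with
  | zero =>
    apply hprim 0 hrm hr x hx
    have h1 := alg_gr (alg_mul (pow_alg (W := W) (S.hD i) ((𝓓.X i).dim - 2 * 0 + 1))
      (gen_alg S.hD S.hZ hx))
    rw [W.gr_eq_bot _ _ (by omega)] at h1
    exact (mem_bot _).1 h1
  | succ r ih =>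
    obtain ⟨b, hb, h⟩ := gen_dec S.hA S.hD S.hZ hr hx
    have h1 : x = (x - W.cl (𝓓.X i) (𝓓.D i) * b) + W.cl (𝓓.X i) (𝓓.D i) * b := by abel
    have hxb : Gen W 𝓓 F g m i (r + 1) (W.cl (𝓓.X i) (𝓓.D i) * b) := by
      have := Gen.mul (Gen.polar i) hb
      rwa [add_comm 1 r] at this
    have h2 : Gen W 𝓓 F g m i (r + 1) (x - W.cl (𝓓.X i) (𝓓.D i) * b) := by
      have := Gen.add hx (Gen.smul (-1) hxb)
      rwa [Rat.cast_neg, Rat.cast_one, neg_one_smul, ← sub_eq_add_neg] at this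
    rw [h1]
    refine add_mem (hprim _ hrm hr _ h2 h) ?_
    refine ps_mul (S.fhr i).mul (N := fun x => Gen W 𝓓 F g m i 1 x)
      (N' := fun x => Gen W 𝓓 F g m i r x) (fun x y hx hy => by
        have := Gen.mul hx hy
        rwa [add_comm 1 r] at this)
      (subset_span (PE.of (Gen.polar i) (S.fhr i).polar)) (ih (by omega) (by omega) hb)

/-- All generated classes are combinations of eigenvectors with positive eigenvalues. -/
theorem ps {i : 𝓓.J} {r : ℕ} {x : W.H (𝓓.X i)} (hx : Gen W 𝓓 F g m i r x) :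
    x ∈ PS ι (fun x => Gen W 𝓓 F g m i r x) (c i) := by
  induction hx with
  | @low i r x hr hx =>
    by_cases h : 2 * r ≤ (𝓓.X i).dim
    · exact S.low_ps hr h (Gen.low hr hx)
    · by_cases h' : r ≤ (𝓓.X i).dim
      · obtain ⟨b, hb, hxb⟩ := alg_div (S.hA i) (j := (𝓓.X i).dim - r) (by omega)
          (by rwa [show (𝓓.X i).dim - ((𝓓.X i).dim - r) = r by omega])
        rw [hxb]
        refine ps_mul (S.fhr i).mul (N := fun x => Gen W 𝓓 F g m i
          ((𝓓.X i).dim - 2 * ((𝓓.X i).dim - r)) x) (N' := fun x => Gen W 𝓓 F g m i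
          ((𝓓.X i).dim - r) x) (fun x y hx hy => by
            have := Gen.mul hx hy
            rwa [show (𝓓.X i).dim - 2 * ((𝓓.X i).dim - r) + ((𝓓.X i).dim - r) = r by omega]
              at this) (subset_span (PE.of (gen_pow i _) (S.c_xipow i _)))
          (S.low_ps (by omega) (by omega) (Gen.low (by omega) hb))
      · have h1 := alg_gr hx
        rw [W.gr_eq_bot _ _ (by omega)] at h1
        rw [(mem_bot _).1 h1]
        exact zero_mem _
  | polar i => exact subset_span (PE.of (Gen.polar i) (S.fhr i).polar)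
  | lifted h => exact subset_span (PE.of (Gen.lifted h) (S.fix _ _ _ h))
  | add _ _ h1 h2 => exact add_mem h1 h2
  | smul s _ h1 => exact smul_mem _ _ h1
  | mul _ _ h1 h2 => exact ps_mul (S.fhr _).mul (fun x y hx hy => Gen.mul hx hy) h1 h2
  | pull hf _ h1 =>
    exact ps_map (W.map _).toLinearMap (fun x hx => Gen.pull hf hx) (fun a => S.c_map hf a) h1
  | push hf _ h1 h2 =>
    exact ps_map (W.push _) (fun x hx => Gen.push hf hx h1) (fun a => S.c_push (S.c_map hf) a) h2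
  | @lef i r b hr hb hx ih =>
    have key : ∀ y ∈ PS ι (fun x => Gen W 𝓓 F g m i ((𝓓.X i).dim - r) x) (c i),
        ∃ b ∈ PS ι (fun x => Gen W 𝓓 F g m i r x) (c i),
          y = W.cl (𝓓.X i) (𝓓.D i) ^ ((𝓓.X i).dim - 2 * r) * b := by
      intro y hy
      unfold PS at hy
      induction hy using span_induction with
      | mem y hy =>
        obtain ⟨w, μ, hμ, h1, h2⟩ := hy
        obtain ⟨v', w', h3, rfl, rfl⟩ := h1.div (fun x hx => gen_div S.hA S.hD S.hZ hr hx)
        refine ⟨v', subset_span ⟨w', μ, hμ, h3, ?_⟩, rfl⟩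
        rw [(S.fhr i).mul, S.c_xipow, ← mul_smul_comm] at h2
        exact xi_inj (S.hHL i) hr ((S.fhr i).deg _ _ (sg_gr S.hD S.hZ h3.mem))
          (smul_mem _ _ (sg_gr S.hD S.hZ h3.symm.mem)) h2
      | zero => exact ⟨0, zero_mem _, by rw [mul_zero]⟩
      | add x y _ _ h1 h2 =>
        obtain ⟨b, hb, rfl⟩ := h1
        obtain ⟨b', hb', rfl⟩ := h2
        exact ⟨b + b', add_mem hb hb', by rw [mul_add]⟩
      | smul t x _ h1 =>
        obtain ⟨b, hb, rfl⟩ := h1
        exact ⟨t • b, smul_mem _ _ hb, by rw [mul_smul_comm]⟩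
    have hPSgr : ∀ y ∈ PS ι (fun x => Gen W 𝓓 F g m i r x) (c i), y ∈ W.gr (𝓓.X i) (2 * r) := by
      intro y hy
      refine (span_le.2 ?_) hy
      rintro y ⟨w, μ, hμ, h1, h2⟩
      exact sg_gr S.hD S.hZ h1.mem
    obtain ⟨b', hb', h⟩ := key _ ih
    rw [xi_inj (S.hHL i) hr (alg_gr hb) (hPSgr _ hb') h]
    exact hb'

/-- The theorem for the system of generated classes. -/
theorem std (i : 𝓓.J) : StdFor W (𝓓.X i) (𝓓.D i) (GeneratedBy W 𝓓 F g m i) := by
  let _ := algC (A := W.H (𝓓.X i)) ι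
  have h1 := std_of_core (S.hD i) (ringOf S.hD S.hZ i) (S.core i) (by
    intro r hr x hx
    rw [mem_spanC]
    have hx' := (mem_spanC ι _ x).1 hx
    refine (span_le.2 ?_) hx'
    intro y hy
    refine (span_le.2 ?_) (S.ps hy)
    intro v hv
    exact subset_span (S.ee_of_pe hr hv))
  constructor
  · rintro j hj z hz ⟨r, hr⟩ hp h0
    have hrj : r = j := by
      by_contra hrj
      apply h0
      have h3 := proj_same (W.isInternal (𝓓.X i)) (W.cl_mem hz)
      have h4 := proj_ne (W.isInternal (𝓓.X i)) (j := 2 * j) (sg_gr S.hD S.hZ hr) (by omega)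
      rw [← h3, h4]
    subst hrj
    exact h1.1 r hj z hz ⟨r, by omega, hr⟩ hp h0
  · rintro j hj z hz ⟨r, hr⟩ hn
    by_contra h0
    have hrj : r = j := by
      by_contra hrj
      apply h0
      have h3 := proj_same (W.isInternal (𝓓.X i)) (W.cl_mem hz)
      have h4 := proj_ne (W.isInternal (𝓓.X i)) (j := 2 * j) (sg_gr S.hD S.hZ hr) (by omega)
      rw [← h3, h4]
    subst hrj
    by_cases hr2 : 2 * r ≤ (𝓓.X i).dim
    · exact h0 (h1.2 r hj z hz ⟨r, by omega, hr⟩ hn)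
    · have h5 : (𝓓.X i).dim - ((𝓓.X i).dim - r) = r := by omega
      obtain ⟨b, hb, h6⟩ := sg_div (m := m) (F := F) (g := g) S.hA S.hD S.hZ (i := i)
        (r := (𝓓.X i).dim - r) (by omega) (x := W.cl (𝓓.X i) z) (by rw [h5]; exact hr)
      have H := S.core i
      apply h0
      rw [h6]
      have h7 : b = 0 := by
        apply H.nd (j := (𝓓.X i).dim - r) (by omega) ((mem_spanC ι _ _).2 hb)
        intro w hw
        obtain ⟨w₀, hw₀, rfl⟩ := gen_alg S.hD S.hZ hw
        have h8 := deg_eq (W := W) hz hw₀ (by omega)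
        rw [hn w₀ hw₀, h6] at h8
        have h9 : b * W.cl (𝓓.X i) w₀ * W.cl (𝓓.X i) (𝓓.D i) ^
            ((𝓓.X i).dim - 2 * ((𝓓.X i).dim - r)) = W.cl (𝓓.X i) (𝓓.D i) ^
            ((𝓓.X i).dim - 2 * ((𝓓.X i).dim - r)) * b * W.cl (𝓓.X i) w₀ := by
          rw [← xipow_comm (S.hD i), mul_assoc]
        rw [h9]
        change ι (W.tr (𝓓.X i) _) = 0
        rw [h8]
        simp
      rw [h7, mul_zero]

end Setup

end Pool.Agent.H90.HR
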