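import Pool.Agent.H90.HR.Min

/-!
# Admissible antilinear maps commuting with a compact group of symmetries
-/

open ComplexConjugate Module

namespace Pool.Agent.H90.HR

variable {A : Type*} [AddCommGroup A] [Module ℂ A] {C : Ctx A}

/-- A symmetry of the data. -/
structure IsSym (C : Ctx A) (f : A ≃ₗ[ℂ] A) : Prop where
  mul : ∀ x y, f (C.mul x y) = C.mul (f x) (f y)
  comm : ∀ φ ∈ C.Φ, ∀ x, f (φ x) = φ (f x)
  fix : ∀ z ∈ C.Z, f z = z
  sig : ∀ x, f (C.σ x) = C.σ (f x)
  mem : ∀ x ∈ C.V, f x ∈ C.V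
  mem' : ∀ x ∈ C.V, f.symm x ∈ C.V
  form : ∀ x ∈ C.V, ∀ y ∈ C.V, C.S (f x) (f y) = C.S x y

namespace IsSym

variable {f : A ≃ₗ[ℂ] A} (hf : IsSym C f)

include hf

lemma mul' (x y : A) : f.symm (C.mul x y) = C.mul (f.symm x) (f.symm y) := by
  apply f.injective
  rw [f.apply_symm_apply, hf.mul, f.apply_symm_apply, f.apply_symm_apply]

lemma comm' {φ : A →ₗ[ℂ] A} (hφ : φ ∈ C.Φ) (x : A) : f.symm (φ x) = φ (f.symm x) := by
  apply f.injective
  rw [f.apply_symm_apply, hf.comm φ hφ, f.apply_symm_apply]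

lemma fix' {z : A} (hz : z ∈ C.Z) : f.symm z = z := by
  apply f.injective
  rw [f.apply_symm_apply, hf.fix z hz]

lemma form' {x y : A} (hx : x ∈ C.V) (hy : y ∈ C.V) : C.S x (f y) = C.S (f.symm x) y := by
  have h1 := hf.form _ (hf.mem' x hx) y hy
  rwa [f.apply_symm_apply] at h1

/-- The conjugate of an admissible map. -/
lemma adm {c : A → A} (h : Adm C c) : Adm C (fun x => f (c (f.symm x))) where
  add x y := by rw [map_add, h.add, map_add]
  smul s x := by rw [map_smul, h.smul, map_smul]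
  mul x y := by rw [hf.mul', h.mul, hf.mul]
  comm φ hφ x := by rw [hf.comm' hφ, h.comm φ hφ, hf.comm φ hφ]
  fix z hz := by rw [hf.fix' hz, h.fix z hz, hf.fix z hz]
  sq x := by rw [f.symm_apply_apply, h.sq, hf.sig, f.apply_symm_apply]
  mem x hx := hf.mem _ (h.mem _ (hf.mem' x hx))
  herm x hx y hy := by
    rw [hf.form' hy (h.mem _ (hf.mem' x hx)), hf.form' hx (h.mem _ (hf.mem' y hy))]
    exact h.herm _ (hf.mem' x hx) _ (hf.mem' y hy)
  pos x hx hx0 := by
    rw [hf.form' hx (h.mem _ (hf.mem' x hx))]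
    refine h.pos _ (hf.mem' x hx) (fun h0 => hx0 ?_)
    rw [← f.apply_symm_apply x, h0, map_zero]

end IsSym

/-- The function is invariant under symmetries which act on the vectors by a unitary matrix. -/
lemma phi_conj {f : A ≃ₗ[ℂ] A} (hf : IsSym C f) {m : ℕ} {e : Fin m → A}
    (heV : ∀ k, e k ∈ C.V) {U : Fin m → Fin m → ℂ}
    (hU : ∀ k, f.symm (e k) = ∑ l, U l k • e l)
    (hUU : ∀ l l', ∑ k, U l k * conj (U l' k) = if l = l' then 1 else 0)
    {c : A → A} (h : Adm C c) : phi C e (fun x => f (c (f.symm x))) = phi C e c := by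
  have h1 : ∀ k, C.S (e k) (f (c (f.symm (e k)))) =
      ∑ l, ∑ l', U l k * conj (U l' k) * C.S (e l) (c (e l')) := by
    intro k
    rw [hf.form' (heV k) (h.mem _ (hf.mem' _ (heV k))), hU k, h.sum, map_sum C.S,
      LinearMap.sum_apply]
    apply Finset.sum_congr rfl
    intro l _
    rw [map_sum]
    apply Finset.sum_congr rfl
    intro l' _
    rw [h.smul, map_smul, map_smul, LinearMap.smul_apply, smul_eq_mul, smul_eq_mul]
    ring
  unfold phi
  rw [← Complex.re_sum, ← Complex.re_sum]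
  congr 1
  calc ∑ k, C.S (e k) (f (c (f.symm (e k))))
      = ∑ k, ∑ l, ∑ l', U l k * conj (U l' k) * C.S (e l) (c (e l')) :=
        Finset.sum_congr rfl (fun k _ => h1 k)
    _ = ∑ l, ∑ l', (∑ k, U l k * conj (U l' k)) * C.S (e l) (c (e l')) := by
        rw [Finset.sum_comm]
        apply Finset.sum_congr rfl
        intro l _
        rw [Finset.sum_comm]
        apply Finset.sum_congr rfl
        intro l' _
        rw [Finset.sum_mul]
    _ = ∑ k, C.S (e k) (c (e k)) := by
        apply Finset.sum_congr rfl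
        intro l _
        rw [Finset.sum_eq_single l]
        · rw [hUU, if_pos rfl, one_mul]
        · intro l' _ hl'
          rw [hUU, if_neg (Ne.symm hl'), zero_mul]
        · intro h0; exact absurd (Finset.mem_univ _) h0

/-- **The fixed point theorem**: if there is an admissible antilinear map, then there is one which
commutes with all the members of a set of symmetries that act by unitary matrices on a family of
vectors which generates `V`. -/
theorem exists_fixed [FiniteDimensional ℂ A] {c₀ : A → A} (h₀ : Adm C c₀) (Γ : Set (A ≃ₗ[ℂ] A))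
    (hΓ : ∀ f ∈ Γ, IsSym C f) {m : ℕ} {e : Fin m → A}
    (heV : Submodule.span ℂ (Set.range e) = C.V)
    (hU : ∀ f ∈ Γ, ∃ U : Fin m → Fin m → ℂ, (∀ k, f.symm (e k) = ∑ l, U l k • e l) ∧
      ∀ l l', ∑ k, U l k * conj (U l' k) = if l = l' then 1 else 0) :
    ∃ c : A → A, Adm C c ∧ ∀ f ∈ Γ, ∀ x, c (f x) = f (c x) := by
  have heV' : ∀ l, e l ∈ C.V := fun l => by
    rw [← heV]; exact Submodule.subset_span ⟨l, rfl⟩
  obtain ⟨c, hc, hmin⟩ := exists_min heV h₀
  refine ⟨c, hc, fun f hf x => ?_⟩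
  obtain ⟨U, h1, h2⟩ := hU f hf
  have h3 := min_unique heV hc ((hΓ f hf).adm hc) hmin (phi_conj (hΓ f hf) heV' h1 h2 hc)
  have h4 := congrFun h3 (f x)
  simp only [f.symm_apply_apply] at h4
  exact h4.symm

end Pool.Agent.H90.HR
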