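import Pool.Agent.H90.HR.Full
import Pool.Agent.H90.HR.Fix

/-!
# Families of Poincare algebras
-/

open ComplexConjugate Module

universe u v

namespace Pool.Agent.H90.HR

open Pool.Agent.H914

section Single

variable {K : Type*} [Field K] {A : Type*} [Ring A] [Algebra K A]
  {gr : ℕ → Submodule K A} {n : ℕ} {tr : A →ₗ[K] K} {ξ : A}

/-- Induction along the Lefschetz decomposition. -/
lemma lef_ind (hP : IsPoincareAlgebra gr n tr) (hξ : ξ ∈ gr 2)
    (hHL : HardLef gr n (LinearMap.mulLeft K ξ)) {p : A → Prop}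
    (hadd : ∀ x y, p x → p y → p (x + y)) (hxi : ∀ x, p x → p (ξ * x))
    (hprim : ∀ k ≤ n, ∀ x ∈ gr k, ξ ^ (n - k + 1) * x = 0 → p x) (a : A) : p a := by
  have h0 : p 0 := hprim 0 (Nat.zero_le _) 0 (Submodule.zero_mem _) (mul_zero _)
  have hpow : ∀ (r : ℕ) x, p x → p (ξ ^ r * x) := by
    intro r
    induction r with
    | zero => intro x hx; rwa [pow_zero, one_mul]
    | succ r ih => intro x hx; rw [pow_succ', mul_assoc]; exact hxi _ (ih x hx)
  have hlow : ∀ k ≤ n, ∀ x ∈ gr k, p x := by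
    intro k
    induction k using Nat.strong_induction_on with
    | _ k ih =>
      intro hk x hx
      by_cases hk2 : k < 2
      · apply hprim k hk x hx
        have h1 := hP.mul_mem (pow_mem_gr hP hξ (n - k + 1)) hx
        rw [hP.gr_eq_bot _ (by omega)] at h1
        exact (Submodule.mem_bot _).1 h1
      · have h1 := hP.mul_mem (pow_mem_gr hP hξ (n - k + 1)) hx
        rw [show 2 * (n - k + 1) + k = 2 * n - (k - 2) by omega] at h1
        obtain ⟨b, hb, h2⟩ := (hHL (k - 2) (by omega)).2 _ h1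
        rw [mulLeft_pow_apply'', show n - (k - 2) = n - k + 1 + 1 by omega, pow_succ,
          mul_assoc] at h2
        have h3 := hP.mul_mem hξ hb
        rw [show 2 + (k - 2) = k by omega] at h3
        have h4 : x = (x - ξ * b) + ξ * b := by abel
        rw [h4]
        refine hadd _ _ (hprim k hk _ (Submodule.sub_mem _ hx h3) ?_) (hxi _ (ih _ (by omega)
          (by omega) b hb))
        rw [mul_sub, h2, sub_self]
  refine gr_induction hP.isInternal (p := p) ?_ hadd a
  intro k x hx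
  by_cases hk : k ≤ n
  · exact hlow k hk x hx
  · by_cases hk2 : k ≤ 2 * n
    · obtain ⟨b, hb, h2⟩ := (hHL (2 * n - k) (by omega)).2 x
        (by rwa [show 2 * n - (2 * n - k) = k by omega])
      rw [← h2, mulLeft_pow_apply'']
      exact hpow _ _ (hlow _ (by omega) b hb)
    · rw [hP.gr_eq_bot _ (by omega)] at hx
      rw [(Submodule.mem_bot _).1 hx]
      exact h0

end Single

/-- The space `A`, with complex scalars. -/
def AC {K : Type*} [Field K] (_ : K ≃+* ℂ) (A : Type*) : Type _ := A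

section AC

variable {K : Type*} [Field K] (ι : K ≃+* ℂ)

/-- The group structure. -/
@[reducible] def acGroup {A : Type*} [AddCommGroup A] : AddCommGroup (AC ι A) :=
  inferInstanceAs (AddCommGroup A)

attribute [local instance] acGroup

/-- The complex structure. -/
@[reducible] noncomputable def acModule {A : Type*} [AddCommGroup A] [Module K A] :
    Module ℂ (AC ι A) :=
  Module.compHom A (ι.symm : ℂ →+* K)

attribute [local instance] acModule

/-- An element, in the space with complex scalars. -/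
def toA {A : Type*} (a : A) : AC ι A := a

/-- An element of the original space. -/
def ofA {A : Type*} (a : AC ι A) : A := a

lemma smul_AC {A : Type*} [AddCommGroup A] [Module K A] (s : ℂ) (a : AC ι A) :
    s • a = toA ι ((ι.symm s) • ofA ι a) := rfl

lemma smul_AC' {A : Type*} [AddCommGroup A] [Module K A] (s : K) (a : A) :
    toA ι (s • a) = (ι s) • toA ι a := by
  rw [smul_AC, ι.symm_apply_apply]
  rfl

/-- A linear map, with complex scalars. -/
def toC {A B : Type*} [AddCommGroup A] [Module K A] [AddCommGroup B] [Module K B]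
    (T : A →ₗ[K] B) : AC ι A →ₗ[ℂ] AC ι B where
  toFun := fun x => T x
  map_add' x y := T.map_add x y
  map_smul' s x := T.map_smul (ι.symm s) x

lemma toC_apply {A B : Type*} [AddCommGroup A] [Module K A] [AddCommGroup B] [Module K B]
    (T : A →ₗ[K] B) (x : A) : toC ι T x = T x := rfl

lemma finite_AC {A : Type*} [AddCommGroup A] [Module K A] [Module.Finite K A] :
    Module.Finite ℂ (AC ι A) := by
  obtain ⟨s, hs⟩ := (Module.finite_def (R := K) (M := A)).1 inferInstance
  let s' : Finset (AC ι A) := s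
  refine ⟨⟨s', ?_⟩⟩
  rw [eq_top_iff]
  intro x _
  have h1 : ofA ι x ∈ Submodule.span K (s : Set A) := by rw [hs]; trivial
  have key : ∀ y ∈ Submodule.span K (s : Set A),
      toA ι y ∈ Submodule.span ℂ (s' : Set (AC ι A)) := by
    intro y hy
    induction hy using Submodule.span_induction with
    | mem y hy => exact Submodule.subset_span hy
    | zero => exact Submodule.zero_mem _
    | add y z _ _ h2 h3 => exact Submodule.add_mem _ h2 h3
    | smul t y _ h2 =>
      rw [smul_AC' ι t y]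
      exact Submodule.smul_mem _ _ h2
  exact key _ h1

end AC

attribute [local instance] acGroup acModule

/-- A family of Poincare algebras with hard Lefschetz, with linear maps and elements. -/
structure Fam (K : Type u) [Field K] (J : Type) (H : J → Type v) [∀ i, Ring (H i)]
    [∀ i, Algebra K (H i)] where
  gr : ∀ i, ℕ → Submodule K (H i)
  n : J → ℕ
  tr : ∀ i, H i →ₗ[K] K
  ξ : ∀ i, H i
  M : ∀ i j, Set (H j →ₗ[K] H i)
  Z : ∀ i, Set (H i)
  poin : ∀ i, IsPoincareAlgebra (gr i) (n i) (tr i)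
  xi_mem : ∀ i, ξ i ∈ gr i 2
  hl : ∀ i, HardLef (gr i) (n i) (LinearMap.mulLeft K (ξ i))

namespace Fam

variable {K : Type u} [Field K] {J : Type} [Fintype J] [DecidableEq J] {H : J → Type v}
  [∀ i, Ring (H i)] [∀ i, Algebra K (H i)] [∀ i, Module.Finite K (H i)] (𝓕 : Fam K J H)

/-- The product of the algebras. -/
abbrev P (_ : Fam K J H) : Type v := ∀ i, H i

/-- The projection onto the degree `k`. -/
noncomputable abbrev pj (i : J) (k : ℕ) : Module.End K (H i) := proj (𝓕.poin i).isInternal k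

/-- The projection onto the component of degree `k` of the `i`-th algebra. -/
noncomputable def comp (i : J) (k : ℕ) : 𝓕.P →ₗ[K] 𝓕.P :=
  LinearMap.single K H i ∘ₗ 𝓕.pj i k ∘ₗ LinearMap.proj i

omit [Fintype J] in
lemma comp_apply (i : J) (k : ℕ) (x : 𝓕.P) : 𝓕.comp i k x = Pi.single i (𝓕.pj i k (x i)) := rfl

/-- The operator given by a map between two of the algebras. -/
def ext {i j : J} (φ : H j →ₗ[K] H i) : 𝓕.P →ₗ[K] 𝓕.P :=
  LinearMap.single K H i ∘ₗ φ ∘ₗ LinearMap.proj j

omit [Fintype J] in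
lemma ext_apply {i j : J} (φ : H j →ₗ[K] H i) (x : 𝓕.P) :
    𝓕.ext φ x = Pi.single i (φ (x j)) := rfl

/-- The multiplication with the Lefschetz class. -/
def lef : 𝓕.P →ₗ[K] 𝓕.P := LinearMap.mulLeft K (𝓕.ξ : 𝓕.P)

omit [Fintype J] [DecidableEq J] in
lemma lef_apply (x : 𝓕.P) (i : J) : 𝓕.lef x i = 𝓕.ξ i * x i := rfl

/-- The sign operator. -/
noncomputable def sgn : 𝓕.P →ₗ[K] 𝓕.P :=
  LinearMap.pi (fun i => scal (𝓕.poin i).isInternal (fun k => (-1 : K) ^ k) ∘ₗ LinearMap.proj i)

omit [Fintype J] [DecidableEq J] in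
lemma sgn_apply (x : 𝓕.P) (i : J) : 𝓕.sgn x i =
    scal (𝓕.poin i).isInternal (fun k => (-1 : K) ^ k) (x i) := rfl

omit [Fintype J] [DecidableEq J] in
lemma sgn_sgn (x : 𝓕.P) : 𝓕.sgn (𝓕.sgn x) = x := by
  funext i
  rw [sgn_apply, sgn_apply]
  refine gr_induction (𝓕.poin i).isInternal (p := fun a =>
    scal (𝓕.poin i).isInternal (fun k => (-1 : K) ^ k)
      (scal (𝓕.poin i).isInternal (fun k => (-1 : K) ^ k) a) = a) ?_ ?_ (x i)
  · intro k a ha
    rw [scal_apply _ _ ha, map_smul, scal_apply _ _ ha, smul_smul, ← pow_add, ← two_mul, pow_mul]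
    simp
  · intro a b h1 h2
    rw [map_add, map_add, h1, h2]

/-- The operators which have to commute with the involution. -/
def ops : Set (𝓕.P →ₗ[K] 𝓕.P) :=
  {T | (∃ i k, T = 𝓕.comp i k) ∨ T = 𝓕.lef ∨ ∃ i j, ∃ φ ∈ 𝓕.M i j, T = 𝓕.ext φ}

/-- The primitive elements. -/
def prim (x : 𝓕.P) : Prop := ∀ i k, (k ≤ 𝓕.n i → 𝓕.ξ i ^ (𝓕.n i - k + 1) * 𝓕.pj i k (x i) = 0) ∧
  (𝓕.n i < k → 𝓕.pj i k (x i) = 0)

omit [Fintype J] [DecidableEq J] in
lemma prim_add {x y : 𝓕.P} (hx : 𝓕.prim x) (hy : 𝓕.prim y) : 𝓕.prim (x + y) := by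
  intro i k
  refine ⟨fun h => ?_, fun h => ?_⟩
  · rw [Pi.add_apply, map_add, mul_add, (hx i k).1 h, (hy i k).1 h, add_zero]
  · rw [Pi.add_apply, map_add, (hx i k).2 h, (hy i k).2 h, add_zero]

omit [Fintype J] [DecidableEq J] in
lemma prim_smul (s : K) {x : 𝓕.P} (hx : 𝓕.prim x) : 𝓕.prim (s • x) := by
  intro i k
  refine ⟨fun h => ?_, fun h => ?_⟩
  · rw [Pi.smul_apply, map_smul, mul_smul_comm, (hx i k).1 h, smul_zero]
  · rw [Pi.smul_apply, map_smul, (hx i k).2 h, smul_zero]

omit [Fintype J] [DecidableEq J] in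
lemma prim_zero : 𝓕.prim 0 := by
  intro i k
  refine ⟨fun _ => ?_, fun _ => ?_⟩ <;> simp

omit [Fintype J] in
lemma prim_single {i : J} {k : ℕ} (hk : k ≤ 𝓕.n i) {x : H i} (hx : x ∈ 𝓕.gr i k)
    (h : 𝓕.ξ i ^ (𝓕.n i - k + 1) * x = 0) : 𝓕.prim (Pi.single i x) := by
  intro j l
  by_cases hij : j = i
  · subst hij
    rw [Pi.single_eq_same]
    by_cases hkl : k = l
    · subst hkl
      refine ⟨fun _ => ?_, fun h' => absurd hk (not_le.2 h')⟩
      rw [pj, proj_same _ hx, h]
    · rw [pj, proj_ne _ hx hkl]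
      exact ⟨fun _ => mul_zero _, fun _ => rfl⟩
  · rw [Pi.single_eq_of_ne hij, map_zero]
    exact ⟨fun _ => mul_zero _, fun _ => rfl⟩

/-- The product is generated by the primitive elements. -/
lemma gen {p : 𝓕.P → Prop} (hadd : ∀ x y, p x → p y → p (x + y)) (hprim : ∀ x, 𝓕.prim x → p x)
    (hops : ∀ T ∈ 𝓕.ops, ∀ x, p x → p (T x)) (x : 𝓕.P) : p x := by
  have h0 : p 0 := hprim 0 𝓕.prim_zero
  have hs : ∀ i (a : H i), p (Pi.single i a) := by
    intro i
    refine lef_ind (𝓕.poin i) (𝓕.xi_mem i) (𝓕.hl i) (p := fun a => p (Pi.single i a)) ?_ ?_ ?_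
    · intro a b h1 h2
      rw [Pi.single_add]
      exact hadd _ _ h1 h2
    · intro a h1
      have h2 := hops 𝓕.lef (Or.inr (Or.inl rfl)) _ h1
      have h3 : 𝓕.lef (Pi.single i a) = Pi.single i (𝓕.ξ i * a) := by
        funext j
        rw [lef_apply]
        by_cases hij : j = i
        · subst hij; rw [Pi.single_eq_same, Pi.single_eq_same]
        · rw [Pi.single_eq_of_ne hij, Pi.single_eq_of_ne hij, mul_zero]
      rwa [h3] at h2
    · intro k hk a ha h1
      exact hprim _ (𝓕.prim_single hk ha h1)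
  have hx : x = ∑ i, Pi.single i (x i) := (Finset.univ_sum_single x).symm
  rw [hx]
  exact Finset.sum_induction _ p hadd h0 (fun i _ => hs i (x i))

/-- The form. -/
noncomputable def form (ι : K ≃+* ℂ) (x y : 𝓕.P) : ℂ :=
  ∑ i, ∑ k ∈ Finset.range (𝓕.n i + 1), (-1 : ℂ) ^ (k * (k + 1) / 2) *
    ι (𝓕.tr i (𝓕.pj i k (x i) * 𝓕.pj i k (y i) * 𝓕.ξ i ^ (𝓕.n i - k)))

/-- The multiplication. -/
def mulP (x y : 𝓕.P) : 𝓕.P := x * y

/-- The data of the fixed point theorem. -/
noncomputable def ctx (ι : K ≃+* ℂ) : Ctx (AC ι 𝓕.P) where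
  mul := LinearMap.mk₂ ℂ (fun x y => 𝓕.mulP x y)
    (fun x x' y => add_mul (ofA ι x) (ofA ι x') (ofA ι y))
    (fun s x y => smul_mul_assoc (ι.symm s) (ofA ι x) (ofA ι y))
    (fun x y y' => mul_add (ofA ι x) (ofA ι y) (ofA ι y'))
    (fun s x y => mul_smul_comm (ι.symm s) (ofA ι x) (ofA ι y))
  V :=
    { carrier := {x | 𝓕.prim x}
      add_mem' := fun hx hy => 𝓕.prim_add hx hy
      zero_mem' := 𝓕.prim_zero
      smul_mem' := fun s _ hx => 𝓕.prim_smul (ι.symm s) hx }
  S := LinearMap.mk₂ ℂ (fun x y => 𝓕.form ι x y)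
    (fun x x' y => by
      unfold form
      rw [← Finset.sum_add_distrib]
      refine Finset.sum_congr rfl (fun i _ => ?_)
      rw [← Finset.sum_add_distrib]
      refine Finset.sum_congr rfl (fun k _ => ?_)
      rw [← mul_add, ← map_add, ← map_add, ← add_mul, ← add_mul, ← map_add]
      rfl)
    (fun s x y => by
      unfold form
      rw [Finset.smul_sum]
      refine Finset.sum_congr rfl (fun i _ => ?_)
      rw [Finset.smul_sum]
      refine Finset.sum_congr rfl (fun k _ => ?_)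
      have h1 : 𝓕.pj i k ((s • x : AC ι 𝓕.P) i) = ι.symm s • 𝓕.pj i k ((x : 𝓕.P) i) :=
        map_smul (𝓕.pj i k) (ι.symm s) ((x : 𝓕.P) i)
      rw [h1, smul_mul_assoc, smul_mul_assoc, map_smul, smul_eq_mul, map_mul,
        ι.apply_symm_apply, smul_eq_mul]
      ring)
    (fun x y y' => by
      unfold form
      rw [← Finset.sum_add_distrib]
      refine Finset.sum_congr rfl (fun i _ => ?_)
      rw [← Finset.sum_add_distrib]
      refine Finset.sum_congr rfl (fun k _ => ?_)
      rw [← mul_add, ← map_add, ← map_add, ← add_mul, ← mul_add, ← map_add]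
      rfl)
    (fun s x y => by
      unfold form
      rw [Finset.smul_sum]
      refine Finset.sum_congr rfl (fun i _ => ?_)
      rw [Finset.smul_sum]
      refine Finset.sum_congr rfl (fun k _ => ?_)
      have h1 : 𝓕.pj i k ((s • y : AC ι 𝓕.P) i) = ι.symm s • 𝓕.pj i k ((y : 𝓕.P) i) :=
        map_smul (𝓕.pj i k) (ι.symm s) ((y : 𝓕.P) i)
      rw [h1, mul_smul_comm, smul_mul_assoc, map_smul, smul_eq_mul, map_mul,
        ι.apply_symm_apply, smul_eq_mul]
      ring)
  Φ := {T | ∃ T' ∈ 𝓕.ops, T = toC ι T'}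
  Z := {z | ∃ i, ∃ z' ∈ 𝓕.Z i, z = (Pi.single i z' : 𝓕.P)}
  σ := toC ι 𝓕.sgn
  sig a := 𝓕.sgn_sgn a
  gen U hU hΦ x := by
    refine 𝓕.gen (p := fun x => (x : AC ι 𝓕.P) ∈ U) (fun x y hx hy => U.add_mem hx hy)
      (fun x hx => hU hx) (fun T hT x hx => ?_) x
    exact hΦ (toC ι T) ⟨T, hT, rfl⟩ x hx

end Fam

end Pool.Agent.H90.HR
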