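import Pool.Agent.H90.HR.Fam

/-!
# Hodge-Riemann involutions of the members of a family as admissible maps
-/

open ComplexConjugate Module

universe u v

namespace Pool.Agent.H90.HR

open Pool.Agent.H914

attribute [local instance] acGroup acModule

namespace Fam

variable {K : Type u} [Field K] {J : Type} [Fintype J] [DecidableEq J] {H : J → Type v}
  [∀ i, Ring (H i)] [∀ i, Algebra K (H i)] [∀ i, Module.Finite K (H i)] {𝓕 : Fam K J H}
  {ι : K ≃+* ℂ}

/-- The properties of a family of involutions. -/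
structure IsPolarized (𝓕 : Fam K J H) (ι : K ≃+* ℂ) (c : ∀ i, H i → H i) : Prop where
  hr : ∀ i, FullHR (𝓕.gr i) (𝓕.n i) (𝓕.tr i) (𝓕.ξ i) ι (c i)
  maps : ∀ i j, ∀ φ ∈ 𝓕.M i j, ∀ a, c i (φ a) = φ (c j a)
  fix : ∀ i, ∀ z ∈ 𝓕.Z i, c i z = z

/-- The trace of the top power of the Lefschetz class is real. -/
def Real (𝓕 : Fam K J H) (ι : K ≃+* ℂ) : Prop :=
  ∀ i, conj (ι (𝓕.tr i (𝓕.ξ i ^ 𝓕.n i))) = ι (𝓕.tr i (𝓕.ξ i ^ 𝓕.n i))

omit [Fintype J] [DecidableEq J] in
lemma eq_zero_of_pj {i : J} {a : H i} (h : ∀ k, 𝓕.pj i k a = 0) : a = 0 := by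
  have h1 := sum_proj (𝓕.poin i).isInternal (N := 2 * 𝓕.n i + 1)
    (fun k hk => (𝓕.poin i).gr_eq_bot k (by omega))
  have h2 := LinearMap.congr_fun h1 a
  rw [LinearMap.sum_apply, Module.End.one_apply] at h2
  rw [← h2]
  exact Finset.sum_eq_zero (fun k _ => h k)

omit [Fintype J] in
lemma single_sum (i : J) (x : 𝓕.P) :
    (Pi.single i (x i) : 𝓕.P) = ∑ k ∈ Finset.range (2 * 𝓕.n i + 1), 𝓕.comp i k x := by
  have h1 := sum_proj (𝓕.poin i).isInternal (N := 2 * 𝓕.n i + 1)
    (fun k hk => (𝓕.poin i).gr_eq_bot k (by omega))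
  have h2 := LinearMap.congr_fun h1 (x i)
  rw [LinearMap.sum_apply, Module.End.one_apply] at h2
  have h3 : (Pi.single i (x i) : 𝓕.P) = LinearMap.single K H i (x i) := rfl
  rw [h3]
  conv_lhs => rw [← h2]
  rw [map_sum]
  rfl

theorem adm_of_family {c : ∀ i, H i → H i} (hc : 𝓕.IsPolarized ι c) (hr : 𝓕.Real ι) :
    Adm (𝓕.ctx ι) (fun x => (fun i => c i (ofA ι x i) : 𝓕.P)) := by
  have hsing : ∀ i (a : H i), (fun j => c j ((Pi.single i a : 𝓕.P) j)) = (Pi.single i (c i a) : 𝓕.P) := by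
    intro i a
    funext j
    by_cases hij : j = i
    · subst hij; rw [Pi.single_eq_same, Pi.single_eq_same]
    · rw [Pi.single_eq_of_ne hij, Pi.single_eq_of_ne hij, (hc.hr j).zero]
  have hterm : ∀ (x y : 𝓕.P) (i : J) (k : ℕ),
      ι (𝓕.tr i (𝓕.pj i k (y i) * 𝓕.pj i k (c i (x i)) * 𝓕.ξ i ^ (𝓕.n i - k))) =
      conj (ι (𝓕.tr i (𝓕.pj i k (x i) * 𝓕.pj i k (c i (y i)) * 𝓕.ξ i ^ (𝓕.n i - k)))) := by
    intro x y i k
    rw [← (hc.hr i).c_proj (𝓕.poin i), ← (hc.hr i).c_proj (𝓕.poin i)]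
    exact (hc.hr i).herm (𝓕.poin i) (𝓕.hl i) (hr i) (𝓕.n i - k) (proj_mem _ k _) (proj_mem _ k _)
  refine
  { add := fun x y => funext fun i => (hc.hr i).add _ _
    smul := fun s x => funext fun i => ?_
    mul := fun x y => funext fun i => (hc.hr i).mul _ _
    comm := ?_
    fix := ?_
    sq := ?_
    mem := ?_
    herm := ?_
    pos := ?_ }
  · have h1 := (hc.hr i).smul (ι.symm s) (ofA ι x i)
    rw [ι.apply_symm_apply] at h1
    exact h1
  · rintro _ ⟨T, hT, rfl⟩ x
    rcases hT with ⟨i, k, rfl⟩ | rfl | ⟨i, j, φ, hφ, rfl⟩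
    · change (fun j => c j (𝓕.comp i k (ofA ι x) j)) = 𝓕.comp i k (fun j => c j (ofA ι x j))
      rw [comp_apply, comp_apply, hsing, (hc.hr i).c_proj (𝓕.poin i)]
    · change (fun j => c j (𝓕.lef (ofA ι x) j)) = 𝓕.lef (fun j => c j (ofA ι x j))
      funext j
      rw [lef_apply, lef_apply, (hc.hr j).mul, (hc.hr j).polar]
    · change (fun l => c l (𝓕.ext φ (ofA ι x) l)) = 𝓕.ext φ (fun j => c j (ofA ι x j))
      rw [ext_apply, ext_apply, hsing, hc.maps i j φ hφ]
  · rintro _ ⟨i, z, hz, rfl⟩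
    change (fun j => c j ((Pi.single i z : 𝓕.P) j)) = _
    rw [hsing, hc.fix i z hz]
  · intro x
    change (fun i => c i (c i (ofA ι x i))) = 𝓕.sgn (ofA ι x)
    funext i
    rw [sgn_apply]
    refine gr_induction (𝓕.poin i).isInternal (p := fun a => c i (c i a) =
      scal (𝓕.poin i).isInternal (fun k => (-1 : K) ^ k) a) ?_ ?_ _
    · intro k a ha
      rw [(hc.hr i).invol k a ha, scal_apply _ _ ha]
    · intro a b h1 h2
      rw [(hc.hr i).add, (hc.hr i).add, h1, h2, map_add]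
  · intro x hx
    have hx' : 𝓕.prim (ofA ι x) := hx
    intro i k
    change (_ → _ * 𝓕.pj i k (c i (ofA ι x i)) = 0) ∧ (_ → 𝓕.pj i k (c i (ofA ι x i)) = 0)
    rw [pj, ← (hc.hr i).c_proj (𝓕.poin i)]
    refine ⟨fun h => ?_, fun h => ?_⟩
    · rw [← (hc.hr i).pow (𝓕.poin i), ← (hc.hr i).mul, (hx' i k).1 h, (hc.hr i).zero]
    · rw [show proj (𝓕.poin i).isInternal k (ofA ι x i) = 0 from (hx' i k).2 h, (hc.hr i).zero]
  · intro x _ y _
    change 𝓕.form ι (ofA ι y) (fun i => c i (ofA ι x i)) =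
      conj (𝓕.form ι (ofA ι x) (fun i => c i (ofA ι y i)))
    unfold form
    rw [map_sum]
    refine Finset.sum_congr rfl (fun i _ => ?_)
    rw [map_sum]
    refine Finset.sum_congr rfl (fun k _ => ?_)
    rw [map_mul (starRingEnd ℂ), map_pow (starRingEnd ℂ), map_neg, map_one]
    congr 1
    exact hterm _ _ i k
  · intro x hx hx0
    have hx' : 𝓕.prim (ofA ι x) := hx
    change 0 < (𝓕.form ι (ofA ι x) (fun i => c i (ofA ι x i))).re
    unfold form
    have hre : ∀ i, ∀ k ∈ Finset.range (𝓕.n i + 1), 𝓕.pj i k (ofA ι x i) ≠ 0 →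
        0 < ((-1 : ℂ) ^ (k * (k + 1) / 2) * ι (𝓕.tr i (𝓕.pj i k (ofA ι x i) *
          𝓕.pj i k (c i (ofA ι x i)) * 𝓕.ξ i ^ (𝓕.n i - k)))).re := by
      intro i k hk h0
      have hk' : k ≤ 𝓕.n i := by
        have := Finset.mem_range.1 hk
        omega
      have h1 := (hc.hr i).pos k hk' (𝓕.pj i k (ofA ι x i)) (proj_mem _ k _)
        ((hx' i k).1 hk') h0
      rw [(hc.hr i).c_proj (𝓕.poin i)] at h1
      have h4 : (-1 : ℂ) ^ (k * (k + 1) / 2) = (((-1 : ℝ) ^ (k * (k + 1) / 2) : ℝ) : ℂ) := by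
        push_cast; rfl
      rw [h4, Complex.re_ofReal_mul]
      exact h1
    have hre0 : ∀ i, ∀ k ∈ Finset.range (𝓕.n i + 1),
        0 ≤ ((-1 : ℂ) ^ (k * (k + 1) / 2) * ι (𝓕.tr i (𝓕.pj i k (ofA ι x i) *
          𝓕.pj i k (c i (ofA ι x i)) * 𝓕.ξ i ^ (𝓕.n i - k)))).re := by
      intro i k hk
      by_cases h0 : 𝓕.pj i k (ofA ι x i) = 0
      · rw [h0, zero_mul, zero_mul, map_zero, map_zero, mul_zero, Complex.zero_re]
      · exact (hre i k hk h0).le
    rw [Complex.re_sum]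
    obtain ⟨i, hi⟩ : ∃ i, ofA ι x i ≠ 0 := by
      by_contra h0
      push Not at h0
      exact hx0 (funext h0)
    obtain ⟨k, hk⟩ : ∃ k, 𝓕.pj i k (ofA ι x i) ≠ 0 := by
      by_contra h0
      push Not at h0
      exact hi (eq_zero_of_pj h0)
    have hk' : k ∈ Finset.range (𝓕.n i + 1) := by
      rw [Finset.mem_range]
      by_contra h1
      exact hk ((hx' i k).2 (by omega))
    apply Finset.sum_pos'
    · intro i _
      rw [Complex.re_sum]
      exact Finset.sum_nonneg (hre0 i)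
    · refine ⟨i, Finset.mem_univ _, ?_⟩
      rw [Complex.re_sum]
      exact Finset.sum_pos' (hre0 i) ⟨k, hk', hre i k hk' hk⟩

theorem family_of_adm {c : AC ι 𝓕.P → AC ι 𝓕.P} (hc : Adm (𝓕.ctx ι) c) :
    ∃ c' : ∀ i, H i → H i, 𝓕.IsPolarized ι c' ∧
      ∀ (x : 𝓕.P) i, ofA ι (c (toA ι x)) i = c' i (x i) := by
  set C : 𝓕.P → 𝓕.P := fun x => ofA ι (c (toA ι x)) with hC
  have hadd : ∀ x y, C (x + y) = C x + C y := hc.add
  have hsmul : ∀ (s : K) x, C (s • x) = ι.symm (conj (ι s)) • C x := by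
    intro s x
    have h1 := hc.smul (ι s) (toA ι x)
    have h2 : ι s • toA ι x = toA ι (s • x) := (smul_AC' ι s x).symm
    rw [h2] at h1
    exact h1
  have hmul : ∀ x y, C (x * y) = C x * C y := hc.mul
  have hops : ∀ T ∈ 𝓕.ops, ∀ x, C (T x) = T (C x) := fun T hT x => hc.comm (toC ι T) ⟨T, hT, rfl⟩ x
  have hfix : ∀ i, ∀ z ∈ 𝓕.Z i, C (Pi.single i z) = Pi.single i z := fun i z hz =>
    hc.fix _ ⟨i, z, hz, rfl⟩
  have hsq : ∀ x, C (C x) = 𝓕.sgn x := hc.sq
  have hpos : ∀ x, 𝓕.prim x → x ≠ 0 → 0 < (𝓕.form ι x (C x)).re := hc.pos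
  have h0 : C 0 = 0 := hc.zero
  have hsum : ∀ (s : Finset ℕ) (f : ℕ → 𝓕.P), C (∑ k ∈ s, f k) = ∑ k ∈ s, C (f k) := hc.sum
  have hsing : ∀ i x, C (Pi.single i (x i)) = Pi.single i (C x i) := by
    intro i x
    rw [single_sum, hsum, single_sum]
    refine Finset.sum_congr rfl (fun k _ => ?_)
    exact hops _ (Or.inl ⟨i, k, rfl⟩) x
  set c' : ∀ i, H i → H i := fun i a => C (Pi.single i a) i with hc'
  have hkey : ∀ x i, C x i = c' i (x i) := by
    intro x i
    rw [hc']
    change C x i = C (Pi.single i (x i)) i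
    rw [hsing, Pi.single_eq_same]
  have hsing' : ∀ i a, C (Pi.single i a) = Pi.single i (c' i a) := by
    intro i a
    have := hsing i (Pi.single i a)
    rwa [Pi.single_eq_same] at this
  have hone : C 1 = 1 := by
    have h1 : C (C (𝓕.sgn 1)) = 1 := by rw [hsq, sgn_sgn]
    have h2 := hmul 1 (C (𝓕.sgn 1))
    rw [one_mul, h1, mul_one] at h2
    exact h2.symm
  refine ⟨c', ⟨?_, ?_, ?_⟩, hkey⟩
  · intro i
    refine
    { add := fun a b => ?_
      smul := fun s a => ?_
      mul := fun a b => ?_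
      deg := ?_
      polar := ?_
      invol := ?_
      pos := ?_ }
    · change C (Pi.single i (a + b)) i = C (Pi.single i a) i + C (Pi.single i b) i
      rw [Pi.single_add, hadd]
      rfl
    · change C (Pi.single i (s • a)) i = _ • C (Pi.single i a) i
      have h1 : (Pi.single i (s • a) : 𝓕.P) = s • (Pi.single i a : 𝓕.P) :=
        (LinearMap.single K H i).map_smul s a
      rw [h1, hsmul]
      rfl
    · change C (Pi.single i (a * b)) i = C (Pi.single i a) i * C (Pi.single i b) i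
      rw [Pi.single_mul, hmul]
      rfl
    · intro k a ha
      have h1 : 𝓕.comp i k (Pi.single i a) = Pi.single i a := by
        rw [comp_apply, Pi.single_eq_same, pj, proj_same _ ha]
      change C (Pi.single i a) i ∈ _
      rw [← h1, hops _ (Or.inl ⟨i, k, rfl⟩), comp_apply, Pi.single_eq_same]
      exact proj_mem _ k _
    · have h1 : C (𝓕.ξ : 𝓕.P) = 𝓕.ξ := by
        have h2 := hops 𝓕.lef (Or.inr (Or.inl rfl)) 1
        rw [hone] at h2
        have h3 : 𝓕.lef 1 = (𝓕.ξ : 𝓕.P) := by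
          funext i
          rw [lef_apply]
          exact mul_one _
        rwa [h3] at h2
      rw [← hkey, h1]
    · intro k a ha
      change c' i (c' i a) = _
      have h1 := congrFun (hsq (Pi.single i a)) i
      rw [hsing', hsing', Pi.single_eq_same, sgn_apply, Pi.single_eq_same,
        scal_apply _ _ ha] at h1
      exact h1
    · intro k hk a ha h1 h2
      have h3 : (Pi.single i a : 𝓕.P) ≠ 0 := by
        intro h4
        apply h2
        have := congrFun h4 i
        rwa [Pi.single_eq_same] at this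
      have h4 := hpos _ (𝓕.prim_single hk ha h1) h3
      rw [hsing'] at h4
      unfold form at h4
      rw [Finset.sum_eq_single i] at h4
      · rw [Pi.single_eq_same, Pi.single_eq_same, Finset.sum_eq_single k] at h4
        · have h5 : c' i a ∈ 𝓕.gr i k := by
            have h1 : 𝓕.comp i k (Pi.single i a) = Pi.single i a := by
              rw [comp_apply, Pi.single_eq_same, pj, proj_same _ ha]
            change C (Pi.single i a) i ∈ _
            rw [← h1, hops _ (Or.inl ⟨i, k, rfl⟩), comp_apply, Pi.single_eq_same]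
            exact proj_mem _ k _
          rw [pj, proj_same _ ha, proj_same _ h5] at h4
          have h6 : (-1 : ℂ) ^ (k * (k + 1) / 2) = (((-1 : ℝ) ^ (k * (k + 1) / 2) : ℝ) : ℂ) := by
            push_cast; rfl
          rw [h6, Complex.re_ofReal_mul] at h4
          exact h4
        · intro l _ hl
          rw [pj, proj_ne _ ha (Ne.symm hl), zero_mul, zero_mul, map_zero, map_zero, mul_zero]
        · intro h5
          exact absurd (Finset.mem_range.2 (by omega)) h5
      · intro j _ hj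
        apply Finset.sum_eq_zero
        intro l _
        rw [Pi.single_eq_of_ne hj, map_zero, zero_mul, zero_mul, map_zero, map_zero, mul_zero]
      · intro h5
        exact absurd (Finset.mem_univ _) h5
  · intro i j φ hφ a
    have h1 := hops (𝓕.ext φ) (Or.inr (Or.inr ⟨i, j, φ, hφ, rfl⟩)) (Pi.single j a)
    rw [ext_apply, ext_apply, Pi.single_eq_same, hsing', hsing', Pi.single_eq_same] at h1
    have h2 := congrFun h1 i
    rwa [Pi.single_eq_same, Pi.single_eq_same] at h2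
  · intro i z hz
    have h1 := hfix i z hz
    rw [hsing'] at h1
    have h2 := congrFun h1 i
    rwa [Pi.single_eq_same, Pi.single_eq_same] at h2

end Fam

end Pool.Agent.H90.HR
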