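import Mathlib

/-!
# Functions of operators
-/

open Module Module.End

namespace Pool.Agent.H90.HR

variable {K : Type*} [Field K] {A : Type*} [AddCommGroup A] [Module K A]

lemma isInternal_gen [IsAlgClosed K] [FiniteDimensional K A] (F : End K A) [DecidableEq K] :
    DirectSum.IsInternal (fun μ : K => F.maxGenEigenspace μ) :=
  DirectSum.isInternal_submodule_of_iSupIndep_of_iSup_eq_top F.independent_maxGenEigenspace
    F.iSup_maxGenEigenspace_eq_top

/-- The operator acting as `f i` on the `i`-th summand. -/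
noncomputable def dfn {κ : Type*} [DecidableEq κ] {gr : κ → Submodule K A}
    (h : DirectSum.IsInternal gr) (f : κ → K) : Module.End K A :=
  (DirectSum.coeLinearMap gr) ∘ₗ
    (DirectSum.lmap (fun i => (f i • LinearMap.id : gr i →ₗ[K] gr i))) ∘ₗ
      (LinearEquiv.ofBijective (DirectSum.coeLinearMap gr) h).symm.toLinearMap

lemma dfn_apply {κ : Type*} [DecidableEq κ] {gr : κ → Submodule K A}
    (h : DirectSum.IsInternal gr) (f : κ → K) {i : κ} {a : A} (ha : a ∈ gr i) :
    dfn h f a = f i • a := by
  have h1 : (LinearEquiv.ofBijective (DirectSum.coeLinearMap gr) h).symm a =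
      DirectSum.lof K κ (fun i => gr i) i ⟨a, ha⟩ := by
    rw [LinearEquiv.symm_apply_eq]
    simp
  simp only [dfn, LinearMap.comp_apply, LinearEquiv.coe_coe]
  rw [h1]
  simp

open Classical in
/-- The operator which acts on the generalized eigenspace of `F` for `l` as the scalar `χ l`. -/
noncomputable def fn [IsAlgClosed K] [FiniteDimensional K A] (F : End K A) (χ : K → K) :
    A →ₗ[K] A := dfn (isInternal_gen F) χ

section

variable [IsAlgClosed K] [FiniteDimensional K A]

lemma fn_apply (F : End K A) (χ : K → K) {l : K} {x : A} (hx : x ∈ F.maxGenEigenspace l) :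
    fn F χ x = χ l • x := by
  classical
  unfold fn
  rw [dfn_apply (isInternal_gen F) χ hx]

/-- Induction on generalized eigenvectors. -/
lemma gen_ind (F : End K A) {p : A → Prop} (h0 : p 0) (hadd : ∀ x y, p x → p y → p (x + y))
    (h : ∀ l, ∀ x ∈ F.maxGenEigenspace l, p x) (x : A) : p x := by
  have hx : x ∈ ⨆ μ, F.maxGenEigenspace μ := by
    rw [F.iSup_maxGenEigenspace_eq_top]; trivial
  exact Submodule.iSup_induction _ (motive := p) hx h h0 hadd

/-- Induction on generalized eigenvectors in a stable subspace. -/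
lemma gen_ind_sub (F : End K A) {V : Submodule K A} (hV : ∀ x ∈ V, F x ∈ V) {p : A → Prop}
    (h0 : p 0) (hadd : ∀ x y, p x → p y → p (x + y))
    (h : ∀ l, ∀ x ∈ F.maxGenEigenspace l, x ∈ V → p x) {x : A} (hx : x ∈ V) : p x := by
  have hx' : x ∈ V ⊓ ⨆ μ, F.genEigenspace μ ⊤ := by
    refine ⟨hx, ?_⟩
    change x ∈ ⨆ μ, F.maxGenEigenspace μ
    rw [F.iSup_maxGenEigenspace_eq_top]
    trivial
  rw [Submodule.inf_iSup_genEigenspace hV] at hx'
  exact Submodule.iSup_induction _ (motive := p) hx' (fun l y hy => h l y hy.2 hy.1) h0 hadd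

variable {B : Type*} [AddCommGroup B] [Module K B]

omit [IsAlgClosed K] [FiniteDimensional K A] in
lemma map_gen {F : End K A} {G : End K B} (φ : A →ₗ[K] B) (hφ : ∀ x, φ (F x) = G (φ x)) {l : K}
    {x : A} (hx : x ∈ F.maxGenEigenspace l) : φ x ∈ G.maxGenEigenspace l := by
  rw [mem_maxGenEigenspace] at hx ⊢
  obtain ⟨k, hk⟩ := hx
  refine ⟨k, ?_⟩
  have h1 : ∀ (k : ℕ) (y : A), φ (((F - l • (1 : End K A)) ^ k) y) =
      ((G - l • (1 : End K B)) ^ k) (φ y) := by
    intro k
    induction k with
    | zero => intro y; rfl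
    | succ k ih =>
      intro y
      rw [pow_succ, Module.End.mul_apply, ih, pow_succ, Module.End.mul_apply]
      congr 1
      simp only [LinearMap.sub_apply, LinearMap.smul_apply, Module.End.one_apply, map_sub,
        map_smul, hφ]
  rw [← h1, hk, map_zero]

lemma fn_comm [FiniteDimensional K B] {F : End K A} {G : End K B} (φ : A →ₗ[K] B) (hφ : ∀ x, φ (F x) = G (φ x))
    (χ : K → K) (x : A) : φ (fn F χ x) = fn G χ (φ x) := by
  refine gen_ind F (p := fun x => φ (fn F χ x) = fn G χ (φ x)) ?_ ?_ ?_ x
  · simp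
  · intro x y h1 h2
    rw [map_add, map_add, map_add, map_add, h1, h2]
  · intro l x hx
    rw [fn_apply F χ hx, fn_apply G χ (map_gen φ hφ hx), map_smul]

omit [IsAlgClosed K] [FiniteDimensional K A] in
/-- The product of generalized eigenvectors. -/
lemma mul_gen {F : End K A} (m : A →ₗ[K] A →ₗ[K] A) (hm : ∀ x y, F (m x y) = m (F x) (F y))
    {l l' : K} {x y : A} (hx : x ∈ F.maxGenEigenspace l) (hy : y ∈ F.maxGenEigenspace l') :
    m x y ∈ F.maxGenEigenspace (l * l') := by
  rw [mem_maxGenEigenspace] at hx hy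
  obtain ⟨k, hk⟩ := hx
  obtain ⟨k', hk'⟩ := hy
  have key : ∀ (s k k' : ℕ) (x y : A), k + k' = s → ((F - l • (1 : End K A)) ^ k) x = 0 →
      ((F - l' • (1 : End K A)) ^ k') y = 0 → m x y ∈ F.maxGenEigenspace (l * l') := by
    intro s
    induction s with
    | zero =>
      intro k k' x y hs h1 h2
      have hk : k = 0 := by omega
      subst hk
      rw [pow_zero, Module.End.one_apply] at h1
      rw [h1, map_zero, LinearMap.zero_apply]
      exact Submodule.zero_mem _
    | succ s ih =>
      intro k k' x y hs h1 h2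
      rcases Nat.eq_zero_or_pos k with hk | hk
      · subst hk
        rw [pow_zero, Module.End.one_apply] at h1
        rw [h1, map_zero, LinearMap.zero_apply]
        exact Submodule.zero_mem _
      rcases Nat.eq_zero_or_pos k' with hk' | hk'
      · subst hk'
        rw [pow_zero, Module.End.one_apply] at h2
        rw [h2, map_zero]
        exact Submodule.zero_mem _
      obtain ⟨r, rfl⟩ : ∃ r, k = r + 1 := ⟨k - 1, by omega⟩
      obtain ⟨r', rfl⟩ : ∃ r', k' = r' + 1 := ⟨k' - 1, by omega⟩
      set x' := (F - l • (1 : End K A)) x with hx'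
      set y' := (F - l' • (1 : End K A)) y with hy'
      have e1 : ((F - l • (1 : End K A)) ^ r) x' = 0 := by
        rw [hx', ← Module.End.mul_apply, ← pow_succ]; exact h1
      have e2 : ((F - l' • (1 : End K A)) ^ r') y' = 0 := by
        rw [hy', ← Module.End.mul_apply, ← pow_succ]; exact h2
      have e3 : ((F - l' • (1 : End K A)) ^ (r' + 1)) (F y) = 0 := by
        have hc : Commute ((F - l' • (1 : End K A)) ^ (r' + 1)) F :=
          ((Commute.refl F).sub_left ((Commute.one_left F).smul_left l')).pow_left _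
        rw [← Module.End.mul_apply, hc.eq, Module.End.mul_apply, h2, map_zero]
      have i1 := ih r (r' + 1) x' (F y) (by omega) e1 e3
      have i2 := ih (r + 1) r' x y' (by omega) h1 e2
      have h3 : (F - (l * l') • (1 : End K A)) (m x y) = m x' (F y) + l • m x y' := by
        simp only [hx', hy', LinearMap.sub_apply, LinearMap.smul_apply, Module.End.one_apply,
          map_sub, map_smul, hm, LinearMap.sub_apply, smul_sub, smul_smul]
        abel
      have h4 : (F - (l * l') • (1 : End K A)) (m x y) ∈ F.maxGenEigenspace (l * l') := by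
        rw [h3]
        exact Submodule.add_mem _ i1 (Submodule.smul_mem _ _ i2)
      rw [mem_maxGenEigenspace] at h4 ⊢
      obtain ⟨t, ht⟩ := h4
      exact ⟨t + 1, by rw [pow_succ, Module.End.mul_apply, ht]⟩
  exact key _ k k' x y rfl hk hk'

lemma fn_mul {F : End K A} (m : A →ₗ[K] A →ₗ[K] A) (hm : ∀ x y, F (m x y) = m (F x) (F y))
    {χ : K → K} (hχ : ∀ a b, χ (a * b) = χ a * χ b) (x y : A) :
    fn F χ (m x y) = m (fn F χ x) (fn F χ y) := by
  refine gen_ind F (p := fun x => fn F χ (m x y) = m (fn F χ x) (fn F χ y)) ?_ ?_ ?_ x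
  · simp
  · intro x x' h1 h2
    simp only [map_add, LinearMap.add_apply, h1, h2]
  · intro l x hx
    refine gen_ind F (p := fun y => fn F χ (m x y) = m (fn F χ x) (fn F χ y)) ?_ ?_ ?_ y
    · simp
    · intro y y' h1 h2
      simp only [map_add, h1, h2]
    · intro l' y hy
      rw [fn_apply F χ hx, fn_apply F χ hy, fn_apply F χ (mul_gen m hm hx hy), hχ, map_smul,
        map_smul, LinearMap.smul_apply, smul_smul, mul_comm]

omit [IsAlgClosed K] [FiniteDimensional K A] in
/-- The generalized eigenspace of an eigenvalue which does not occur on a stable subspace. -/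
lemma exists_eig_of_gen {F : End K A} {V : Submodule K A} (hV : ∀ x ∈ V, F x ∈ V) {l : K} {x : A}
    (hx : x ∈ F.maxGenEigenspace l) (hxV : x ∈ V) (hx0 : x ≠ 0) :
    ∃ y ∈ V, y ≠ 0 ∧ F y = l • y := by
  rw [mem_maxGenEigenspace] at hx
  obtain ⟨k, hk⟩ := hx
  induction k generalizing x with
  | zero => exact absurd hk hx0
  | succ k ih =>
    by_cases h0 : (F - l • (1 : End K A)) x = 0
    · refine ⟨x, hxV, hx0, ?_⟩
      simp only [LinearMap.sub_apply, LinearMap.smul_apply, Module.End.one_apply] at h0
      exact sub_eq_zero.1 h0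
    · refine ih (x := (F - l • (1 : End K A)) x) ?_ h0 ?_
      · simp only [LinearMap.sub_apply, LinearMap.smul_apply, Module.End.one_apply]
        exact V.sub_mem (hV x hxV) (V.smul_mem _ hxV)
      · rw [pow_succ, Module.End.mul_apply] at hk
        exact hk

end

end Pool.Agent.H90.HR
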