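import Pool.Agent.H90.HR.FamAdm
import Pool.Agent.H90.HR.Fn

/-!
# Hodge-Riemann involutions commuting with Frobenius endomorphisms
-/

open ComplexConjugate Module

universe u v

namespace Pool.Agent.H90.HR

open Pool.Agent.H914

attribute [local instance] acGroup acModule

/-- The unimodular part of a number. -/
noncomputable def uni {K : Type*} [Field K] (ι : K ≃+* ℂ) (l : K) : K :=
  ι.symm (ι l / (‖ι l‖ : ℂ))

lemma uni_mul {K : Type*} [Field K] (ι : K ≃+* ℂ) (a b : K) :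
    uni ι (a * b) = uni ι a * uni ι b := by
  unfold uni
  rw [← map_mul, map_mul ι, norm_mul, Complex.ofReal_mul, mul_div_mul_comm]

lemma uni_cast {K : Type*} [Field K] (ι : K ≃+* ℂ) {q : ℕ} (hq : 0 < q) (r : ℕ) :
    uni ι ((q : K) ^ r) = 1 := by
  unfold uni
  rw [map_pow, map_natCast, norm_pow, Complex.norm_natCast]
  have h1 : ((q : ℂ)) ^ r ≠ 0 := pow_ne_zero _ (by exact_mod_cast hq.ne')
  push_cast
  rw [div_self h1, map_one]

lemma norm_uni {K : Type*} [Field K] (ι : K ≃+* ℂ) {l : K} (hl : ‖ι l‖ ≠ 0) :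
    ‖ι (uni ι l)‖ = 1 := by
  unfold uni
  rw [ι.apply_symm_apply, norm_div, Complex.norm_real, norm_norm, div_self hl]

lemma exists_diag {B : Type*} [AddCommGroup B] [Module ℂ B] {f : B ≃ₗ[ℂ] B} {m : ℕ}
    {e : Fin m → B} {l : Fin m → ℂ} (hl : ∀ k, ‖l k‖ = 1) (hel : ∀ k, f (e k) = l k • e k) :
    ∃ U : Fin m → Fin m → ℂ, (∀ k, f.symm (e k) = ∑ i, U i k • e i) ∧
      ∀ i i', ∑ k, U i k * conj (U i' k) = if i = i' then 1 else 0 := by
  have hl0 : ∀ k, l k ≠ 0 := fun k h0 => by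
    have := hl k
    rw [h0, norm_zero] at this
    exact zero_ne_one this
  refine ⟨fun i k => if i = k then (l k)⁻¹ else 0, fun k => ?_, fun i i' => ?_⟩
  · rw [Finset.sum_eq_single k]
    · dsimp only
      rw [if_pos rfl, eq_inv_smul_iff₀ (hl0 k), ← map_smul, LinearEquiv.symm_apply_eq]
      exact (hel k).symm
    · intro b _ hb
      dsimp only
      rw [if_neg hb, zero_smul]
    · intro h0; exact absurd (Finset.mem_univ _) h0
  · dsimp only
    by_cases hii : i = i'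
    · subst hii
      rw [if_pos rfl, Finset.sum_eq_single i]
      · rw [if_pos rfl, Complex.mul_conj, Complex.normSq_eq_norm_sq, norm_inv, hl, inv_one,
          one_pow, Complex.ofReal_one]
      · intro b _ hb
        rw [if_neg (Ne.symm hb), zero_mul]
      · intro h0; exact absurd (Finset.mem_univ _) h0
    · rw [if_neg hii]
      apply Finset.sum_eq_zero
      intro b _
      by_cases hb : i = b
      · subst hb
        rw [if_neg (Ne.symm hii), map_zero, mul_zero]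
      · rw [if_neg hb, zero_mul]

namespace Fam

variable {K : Type u} [Field K] {J : Type} [Fintype J] [DecidableEq J] {H : J → Type v}
  [∀ i, Ring (H i)] [∀ i, Algebra K (H i)] [∀ i, Module.Finite K (H i)] {𝓕 : Fam K J H}
  {ι : K ≃+* ℂ}

/-- The properties of Frobenius endomorphisms of the members of a family. -/
structure IsFrob (𝓕 : Fam K J H) (ι : K ≃+* ℂ) (q : ℕ) (F : ∀ i, H i →ₐ[K] H i) :
    Prop where
  qpos : 0 < q
  polar : ∀ i, F i (𝓕.ξ i) = (q : K) • 𝓕.ξ i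
  deg : ∀ i k, ∀ a ∈ 𝓕.gr i k, F i a ∈ 𝓕.gr i k
  maps : ∀ i j, ∀ φ ∈ 𝓕.M i j, ∀ a, φ (F j a) = F i (φ a)
  fix : ∀ i, ∀ z ∈ 𝓕.Z i, ∃ r : ℕ, F i z = (q : K) ^ r • z
  rh : ∀ i k, ∀ a ∈ 𝓕.gr i k, a ≠ 0 → ∀ l : K, F i a = l • a → ‖ι l‖ ^ 2 = (q : ℝ) ^ k

/-- The endomorphism of the product. -/
def FP (F : ∀ i, H i →ₐ[K] H i) : End K (∀ i, H i) :=
  LinearMap.pi (fun i => (F i).toLinearMap ∘ₗ LinearMap.proj i)

omit [Fintype J] [DecidableEq J] in
lemma FP_apply (F : ∀ i, H i →ₐ[K] H i) (x : ∀ i, H i) (i : J) : FP F x i = F i (x i) := rfl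

variable [IsAlgClosed K] {q : ℕ} {F : ∀ i, H i →ₐ[K] H i}

/-- The unimodular part of the Frobenius endomorphism. -/
noncomputable def uF (ι : K ≃+* ℂ) (F : ∀ i, H i →ₐ[K] H i) (i : J) : H i →ₗ[K] H i :=
  fn (F i).toLinearMap (uni ι)

/-- The unimodular part on the product. -/
noncomputable def uP (ι : K ≃+* ℂ) (F : ∀ i, H i →ₐ[K] H i) : (∀ i, H i) →ₗ[K] (∀ i, H i) :=
  fn (FP F) (uni ι)

omit [DecidableEq J] in
lemma uP_apply (x : ∀ i, H i) (i : J) : uP ι F x i = uF ι F i (x i) :=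
  fn_comm (F := FP F) (G := (F i).toLinearMap) (LinearMap.proj i) (fun _ => rfl) (uni ι) x

omit [Fintype J] [DecidableEq J] in
lemma uF_mul (i : J) (x y : H i) : uF ι F i (x * y) = uF ι F i x * uF ι F i y :=
  fn_mul (F := (F i).toLinearMap) (LinearMap.mul K (H i)) (fun x y => map_mul (F i) x y)
    (uni_mul ι) x y

omit [DecidableEq J] in
lemma uP_mul (x y : ∀ i, H i) : uP ι F (x * y) = uP ι F x * uP ι F y := by
  funext i
  rw [uP_apply, Pi.mul_apply, uF_mul, Pi.mul_apply, uP_apply, uP_apply]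

omit [Fintype J] [DecidableEq J] in
lemma uF_eig (i : J) {x : H i} {l : K} (h : F i x = l • x) :
    uF ι F i x = uni ι l • x := by
  refine fn_apply _ _ (Module.End.eigenspace_le_maxGenEigenspace ?_)
  exact Module.End.mem_eigenspace_iff.2 h

omit [Fintype J] [DecidableEq J] in
lemma uF_xi (hF : 𝓕.IsFrob ι q F) (i : J) : uF ι F i (𝓕.ξ i) = 𝓕.ξ i := by
  rw [uF_eig i (hF.polar i)]
  have := uni_cast ι hF.qpos 1
  rw [pow_one] at this
  rw [this, one_smul]

omit [Fintype J] [DecidableEq J] in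
lemma uF_one (i : J) : uF ι F i 1 = 1 := by
  have h1 : F i 1 = (1 : K) • 1 := by rw [map_one, one_smul]
  rw [uF_eig i h1]
  have := uni_cast ι one_pos 1
  rw [Nat.cast_one, one_pow] at this
  rw [this, one_smul]

omit [DecidableEq J] in
lemma uF_xi_pow (hF : 𝓕.IsFrob ι q F) (i : J) (r : ℕ) : uF ι F i (𝓕.ξ i ^ r) = 𝓕.ξ i ^ r := by
  induction r with
  | zero => rw [pow_zero]; exact uF_one i
  | succ r ih => rw [pow_succ, uF_mul, ih, uF_xi hF]

omit [Fintype J] [DecidableEq J] [IsAlgClosed K] in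
lemma F_pj (hF : 𝓕.IsFrob ι q F) (i : J) (k : ℕ) (a : H i) :
    𝓕.pj i k (F i a) = F i (𝓕.pj i k a) := by
  refine gr_induction (𝓕.poin i).isInternal (p := fun a => 𝓕.pj i k (F i a) =
    F i (𝓕.pj i k a)) ?_ ?_ a
  · intro l a ha
    by_cases h : l = k
    · subst h
      rw [pj, proj_same _ ha, proj_same _ (hF.deg _ _ _ ha)]
    · rw [pj, proj_ne _ ha h, proj_ne _ (hF.deg _ _ _ ha) h, map_zero]
  · intro a b h1 h2
    rw [map_add, map_add, h1, h2, map_add, map_add]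

omit [Fintype J] [DecidableEq J] in
lemma uF_pj (hF : 𝓕.IsFrob ι q F) (i : J) (k : ℕ) (a : H i) :
    𝓕.pj i k (uF ι F i a) = uF ι F i (𝓕.pj i k a) :=
  fn_comm (F := (F i).toLinearMap) (G := (F i).toLinearMap) (𝓕.pj i k)
    (fun x => F_pj hF i k x) (uni ι) a

omit [DecidableEq J] in
lemma uF_deg (hF : 𝓕.IsFrob ι q F) (i : J) {k : ℕ} {a : H i} (ha : a ∈ 𝓕.gr i k) :
    uF ι F i a ∈ 𝓕.gr i k := by
  have h1 := uF_pj hF i k a
  rw [show 𝓕.pj i k a = a from proj_same _ ha] at h1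
  rw [← h1]
  exact proj_mem _ k _

omit [DecidableEq J] in
lemma tr_uF (hF : 𝓕.IsFrob ι q F) (i : J) (a : H i) : 𝓕.tr i (uF ι F i a) = 𝓕.tr i a := by
  refine gr_induction (𝓕.poin i).isInternal (p := fun a => 𝓕.tr i (uF ι F i a) = 𝓕.tr i a) ?_ ?_ a
  · intro k a ha
    by_cases h : k = 2 * 𝓕.n i
    · subst h
      obtain ⟨s, rfl⟩ := top_eq (𝓕.poin i) (𝓕.hl i) ha
      rw [map_smul, uF_xi_pow hF]
    · rw [(𝓕.poin i).tr_eq_zero ha h, (𝓕.poin i).tr_eq_zero (uF_deg hF i ha) h]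
  · intro a b h1 h2
    rw [map_add, map_add, h1, h2, map_add]

omit [Fintype J] [DecidableEq J] [IsAlgClosed K] in
/-- The eigenvalues on the product are not zero. -/
lemma eig_norm (hF : 𝓕.IsFrob ι q F) {l : K} {x : 𝓕.P} (hx : x ∈ (FP F).maxGenEigenspace l)
    (hx0 : x ≠ 0) : ‖ι l‖ ≠ 0 := by
  obtain ⟨y, -, hy0, hy⟩ := exists_eig_of_gen (F := FP F) (V := ⊤) (fun _ _ => trivial) hx
    trivial hx0
  obtain ⟨i, hi⟩ : ∃ i, y i ≠ 0 := by
    by_contra h0
    push Not at h0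
    exact hy0 (funext h0)
  obtain ⟨k, hk⟩ : ∃ k, 𝓕.pj i k (y i) ≠ 0 := by
    by_contra h0
    push Not at h0
    exact hi (eq_zero_of_pj h0)
  have h1 : F i (𝓕.pj i k (y i)) = l • 𝓕.pj i k (y i) := by
    rw [← F_pj hF, ← map_smul]
    congr 1
    exact congrFun hy i
  have h2 := hF.rh i k _ (proj_mem _ k _) hk l h1
  intro h3
  rw [h3] at h2
  have h4 : (0 : ℝ) < (q : ℝ) ^ k := pow_pos (by exact_mod_cast hF.qpos) k
  rw [← h2] at h4
  simp at h4

omit [DecidableEq J] in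
lemma uP_inj (hF : 𝓕.IsFrob ι q F) : Function.Injective (uP ι F) := by
  rw [LinearMap.injective_iff_surjective]
  intro y
  refine gen_ind (FP F) (p := fun y => ∃ x, uP ι F x = y) ⟨0, map_zero _⟩ ?_ ?_ y
  · rintro x y ⟨a, rfl⟩ ⟨b, rfl⟩
    exact ⟨a + b, map_add _ _ _⟩
  · intro l x hx
    by_cases hx0 : x = 0
    · exact ⟨0, by rw [hx0, map_zero]⟩
    · have h1 := norm_uni ι (eig_norm hF hx hx0)
      have h2 : uni ι l ≠ 0 := by
        intro h3
        rw [h3, map_zero, norm_zero] at h1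
        exact zero_ne_one h1
      refine ⟨(uni ι l)⁻¹ • x, ?_⟩
      rw [uP, fn_apply _ _ (Submodule.smul_mem _ _ hx), smul_smul, mul_inv_cancel₀ h2, one_smul]

/-- The unimodular part as an equivalence with complex scalars. -/
noncomputable def uE (hF : 𝓕.IsFrob ι q F) : AC ι 𝓕.P ≃ₗ[ℂ] AC ι 𝓕.P :=
  haveI : Module.Finite ℂ (AC ι 𝓕.P) := finite_AC ι
  LinearEquiv.ofInjectiveEndo (toC ι (uP ι F)) (uP_inj hF)

omit [DecidableEq J] in
lemma uE_apply (hF : 𝓕.IsFrob ι q F) (x : AC ι 𝓕.P) : uE hF x = toA ι (uP ι F (ofA ι x)) := rfl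

omit [DecidableEq J] in
lemma prim_uP (hF : 𝓕.IsFrob ι q F) {x : 𝓕.P} : 𝓕.prim (uP ι F x) ↔ 𝓕.prim x := by
  have h0 : ∀ i (a : H i), uF ι F i a = 0 ↔ a = 0 := by
    classical
    intro i a
    refine ⟨fun h => ?_, fun h => by rw [h, map_zero]⟩
    have h1 : uP ι F (Pi.single i a) = 0 := by
      funext j
      rw [uP_apply]
      by_cases hij : j = i
      · subst hij; rw [Pi.single_eq_same]; exact h
      · rw [Pi.single_eq_of_ne hij, map_zero]; rfl
    have h2 := uP_inj hF (h1.trans (map_zero _).symm)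
    have h3 := congrFun h2 i
    rwa [Pi.single_eq_same] at h3
  have h1 : ∀ i k, 𝓕.ξ i ^ (𝓕.n i - k + 1) * 𝓕.pj i k (uP ι F x i) =
      uF ι F i (𝓕.ξ i ^ (𝓕.n i - k + 1) * 𝓕.pj i k (x i)) := by
    intro i k
    rw [uP_apply, uF_pj hF, uF_mul, uF_xi_pow hF]
  have h2 : ∀ i k, 𝓕.pj i k (uP ι F x i) = uF ι F i (𝓕.pj i k (x i)) := by
    intro i k
    rw [uP_apply, uF_pj hF]
  refine ⟨fun h i k => ?_, fun h i k => ?_⟩
  · refine ⟨fun hk => ?_, fun hk => ?_⟩
    · have := (h i k).1 hk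
      rwa [h1, h0] at this
    · have := (h i k).2 hk
      rwa [h2, h0] at this
  · refine ⟨fun hk => ?_, fun hk => ?_⟩
    · rw [h1, h0]; exact (h i k).1 hk
    · rw [h2, h0]; exact (h i k).2 hk

lemma uP_ops (hF : 𝓕.IsFrob ι q F) {T : 𝓕.P →ₗ[K] 𝓕.P} (hT : T ∈ 𝓕.ops) (x : 𝓕.P) :
    uP ι F (T x) = T (uP ι F x) := by
  rcases hT with ⟨i, k, rfl⟩ | rfl | ⟨i, j, φ, hφ, rfl⟩
  · refine (fn_comm (F := FP F) (G := FP F) (𝓕.comp i k) (fun x => ?_) (uni ι) x).symm
    funext j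
    rw [comp_apply, FP_apply, FP_apply, comp_apply]
    by_cases hij : j = i
    · subst hij
      rw [Pi.single_eq_same, Pi.single_eq_same, F_pj hF]
    · rw [Pi.single_eq_of_ne hij, Pi.single_eq_of_ne hij, map_zero]
  · funext i
    rw [uP_apply, lef_apply, uF_mul, uF_xi hF, lef_apply, uP_apply]
  · refine (fn_comm (F := FP F) (G := FP F) (𝓕.ext φ) (fun x => ?_) (uni ι) x).symm
    funext l
    rw [ext_apply, FP_apply, FP_apply, ext_apply]
    by_cases hil : l = i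
    · subst hil
      rw [Pi.single_eq_same, Pi.single_eq_same, hF.maps _ j φ hφ]
    · rw [Pi.single_eq_of_ne hil, Pi.single_eq_of_ne hil, map_zero]

lemma uP_fix (hF : 𝓕.IsFrob ι q F) (i : J) {z : H i} (hz : z ∈ 𝓕.Z i) :
    uP ι F (Pi.single i z) = Pi.single i z := by
  obtain ⟨r, hr⟩ := hF.fix i z hz
  funext j
  rw [uP_apply]
  by_cases hij : j = i
  · subst hij
    rw [Pi.single_eq_same, uF_eig j hr, uni_cast ι hF.qpos, one_smul]
  · rw [Pi.single_eq_of_ne hij, map_zero]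

omit [DecidableEq J] in
lemma uP_sgn (hF : 𝓕.IsFrob ι q F) (x : 𝓕.P) : uP ι F (𝓕.sgn x) = 𝓕.sgn (uP ι F x) := by
  refine (fn_comm (F := FP F) (G := FP F) 𝓕.sgn (fun x => ?_) (uni ι) x).symm
  funext i
  rw [FP_apply, sgn_apply, sgn_apply, FP_apply]
  refine gr_induction (𝓕.poin i).isInternal (p := fun a =>
    scal (𝓕.poin i).isInternal (fun k => (-1 : K) ^ k) (F i a) =
      F i (scal (𝓕.poin i).isInternal (fun k => (-1 : K) ^ k) a)) ?_ ?_ _
  · intro k a ha
    rw [scal_apply _ _ ha, scal_apply _ _ (hF.deg _ _ _ ha), map_smul]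
  · intro a b h1 h2
    rw [map_add, map_add, h1, h2, map_add, map_add]

omit [DecidableEq J] in
lemma form_uP (hF : 𝓕.IsFrob ι q F) (x y : 𝓕.P) :
    𝓕.form ι (uP ι F x) (uP ι F y) = 𝓕.form ι x y := by
  unfold form
  refine Finset.sum_congr rfl (fun i _ => Finset.sum_congr rfl (fun k _ => ?_))
  rw [uP_apply, uP_apply, uF_pj hF, uF_pj hF]
  have h1 : uF ι F i (𝓕.pj i k (x i)) * uF ι F i (𝓕.pj i k (y i)) * 𝓕.ξ i ^ (𝓕.n i - k) =
      uF ι F i (𝓕.pj i k (x i) * 𝓕.pj i k (y i) * 𝓕.ξ i ^ (𝓕.n i - k)) := by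
    rw [uF_mul, uF_mul, uF_xi_pow hF]
  rw [h1, tr_uF hF]

theorem isSym_uE (hF : 𝓕.IsFrob ι q F) : IsSym (𝓕.ctx ι) (uE hF) where
  mul x y := uP_mul (ofA ι x) (ofA ι y)
  comm := by
    rintro _ ⟨T, hT, rfl⟩ x
    exact uP_ops hF hT (ofA ι x)
  fix := by
    rintro _ ⟨i, z, hz, rfl⟩
    exact uP_fix hF i hz
  sig x := uP_sgn hF (ofA ι x)
  mem x hx := (prim_uP hF).2 hx
  mem' x hx := by
    have h1 : 𝓕.prim (uP ι F (ofA ι ((uE hF).symm x))) := by
      have h2 : uP ι F (ofA ι ((uE hF).symm x)) = ofA ι x := (uE hF).apply_symm_apply x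
      rw [h2]
      exact hx
    exact (prim_uP hF).1 h1
  form x _ y _ := form_uP hF (ofA ι x) (ofA ι y)

/-- The primitive elements are spanned by eigenvectors. -/
lemma span_eig (hF : 𝓕.IsFrob ι q F) :
    Submodule.span ℂ {x : AC ι 𝓕.P | 𝓕.prim (ofA ι x) ∧ ∃ l : ℂ, ‖l‖ = 1 ∧ uE hF x = l • x} =
      (𝓕.ctx ι).V := by
  apply le_antisymm
  · rw [Submodule.span_le]
    intro x hx
    exact hx.1
  · intro x hx
    let VK : Submodule K 𝓕.P :=
      { carrier := {x | 𝓕.prim x}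
        add_mem' := fun hx hy => 𝓕.prim_add hx hy
        zero_mem' := 𝓕.prim_zero
        smul_mem' := fun s _ hx => 𝓕.prim_smul s hx }
    have hV : ∀ x ∈ VK, FP F x ∈ VK := by
      intro x hx
      have hx' : 𝓕.prim x := hx
      intro i k
      rw [FP_apply, F_pj hF]
      have h1 : F i (𝓕.ξ i ^ (𝓕.n i - k + 1) * 𝓕.pj i k (x i)) =
          ((q : K) ^ (𝓕.n i - k + 1)) • (𝓕.ξ i ^ (𝓕.n i - k + 1) * F i (𝓕.pj i k (x i))) := by
        rw [map_mul, map_pow, hF.polar, smul_pow, smul_mul_assoc]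
      have hq0 : (q : K) ^ (𝓕.n i - k + 1) ≠ 0 := by
        apply pow_ne_zero
        intro h2
        have h3 := congrArg ι h2
        rw [map_natCast, map_zero] at h3
        exact hF.qpos.ne' (by exact_mod_cast h3)
      refine ⟨fun hk => ?_, fun hk => ?_⟩
      · rw [(hx' i k).1 hk, map_zero] at h1
        exact (smul_eq_zero.1 h1.symm).resolve_left hq0
      · rw [(hx' i k).2 hk, map_zero]
    have hx' : ofA ι x ∈ VK := hx
    refine gen_ind_sub (FP F) hV (p := fun x => toA ι x ∈ Submodule.span ℂ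
      {x : AC ι 𝓕.P | 𝓕.prim (ofA ι x) ∧ ∃ l : ℂ, ‖l‖ = 1 ∧ uE hF x = l • x}) ?_ ?_ ?_ hx'
    · exact Submodule.zero_mem _
    · intro x y hx hy
      exact Submodule.add_mem _ hx hy
    · intro l x hx hxV
      by_cases hx0 : x = 0
      · rw [hx0]; exact Submodule.zero_mem _
      · apply Submodule.subset_span
        refine ⟨hxV, ι (uni ι l), norm_uni ι (eig_norm hF hx hx0), ?_⟩
        rw [uE_apply, smul_AC, ι.symm_apply_apply]
        exact congrArg (toA ι) (fn_apply _ _ hx)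

/-- **Hodge-Riemann involutions commuting with Frobenius.** If there are Hodge-Riemann involutions
of the members of a finite family compatible with the given maps and elements, then there are such
involutions which commute with the unimodular parts of the Frobenius endomorphisms. -/
theorem exists_commuting {c₀ : ∀ i, H i → H i} (hc : 𝓕.IsPolarized ι c₀) (hr : 𝓕.Real ι)
    (hF : 𝓕.IsFrob ι q F) :
    ∃ c : ∀ i, H i → H i, 𝓕.IsPolarized ι c ∧
      ∀ i a, c i (uF ι F i a) = uF ι F i (c i a) := by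
  have : Module.Finite ℂ (AC ι 𝓕.P) := finite_AC ι
  obtain ⟨e, he1, he2, -⟩ := Submodule.exists_fun_fin_finrank_span_eq ℂ
    {x : AC ι 𝓕.P | 𝓕.prim (ofA ι x) ∧ ∃ l : ℂ, ‖l‖ = 1 ∧ uE hF x = l • x}
  replace he2 := he2.trans (span_eig hF)
  obtain ⟨c, hcA, hcu⟩ := exists_fixed (adm_of_family hc hr) {uE hF}
    (fun f hf => by rw [Set.mem_singleton_iff.1 hf]; exact isSym_uE hF) he2 (by
      intro f hf
      rw [Set.mem_singleton_iff.1 hf]
      choose hp l hl hel using he1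
      exact exists_diag hl hel)
  obtain ⟨c', hc', hcc⟩ := family_of_adm hcA
  refine ⟨c', hc', fun i a => ?_⟩
  have h1 := hcu (uE hF) rfl (toA ι (Pi.single i a))
  have h2 := congrFun (congrArg (ofA ι) h1) i
  rw [uE_apply] at h2
  have h3 := hcc (uP ι F (Pi.single i a)) i
  rw [uP_apply, Pi.single_eq_same] at h3
  have h4 : ofA ι (uE hF (c (toA ι (Pi.single i a)))) i =
      uF ι F i (ofA ι (c (toA ι (Pi.single i a))) i) :=
    uP_apply (ofA ι (c (toA ι (Pi.single i a)))) i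
  rw [h4, hcc (Pi.single i a) i, Pi.single_eq_same] at h2
  exact h3.symm.trans h2

end Fam

end Pool.Agent.H90.HR
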