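import Pool.Agent.H90.HR.FamFrob

/-!
# Hodge-Riemann involutions commuting with Frobenius and a finite group
-/

open ComplexConjugate Module

universe u v

namespace Pool.Agent.H90.HR

open Pool.Agent.H914

attribute [local instance] acGroup acModule

lemma exists_perm {B : Type*} [AddCommGroup B] [Module ℂ B] {f : B ≃ₗ[ℂ] B} {m : ℕ}
    {e : Fin m → B} (σ : Equiv.Perm (Fin m)) (hf : ∀ k, f.symm (e k) = e (σ k)) :
    ∃ U : Fin m → Fin m → ℂ, (∀ k, f.symm (e k) = ∑ i, U i k • e i) ∧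
      ∀ i i', ∑ k, U i k * conj (U i' k) = if i = i' then 1 else 0 := by
  refine ⟨fun i k => if i = σ k then 1 else 0, fun k => ?_, fun i i' => ?_⟩
  · rw [Finset.sum_eq_single (σ k)]
    · dsimp only
      rw [if_pos rfl, one_smul, hf]
    · intro b _ hb
      dsimp only
      rw [if_neg hb, zero_smul]
    · intro h0; exact absurd (Finset.mem_univ _) h0
  · dsimp only
    rw [Finset.sum_eq_single (σ.symm i)]
    · rw [σ.apply_symm_apply, if_pos rfl, one_mul]
      by_cases h : i = i'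
      · rw [if_pos h, if_pos h.symm, map_one]
      · rw [if_neg h, if_neg (Ne.symm h), map_zero]
    · intro b _ hb
      rw [if_neg (fun h => hb (by rw [h, σ.symm_apply_apply])), zero_mul]
    · intro h0; exact absurd (Finset.mem_univ _) h0

namespace Fam

variable {K : Type u} [Field K] {J : Type} [Fintype J] [DecidableEq J] {H : J → Type v}
  [∀ i, Ring (H i)] [∀ i, Algebra K (H i)] [∀ i, Module.Finite K (H i)] {𝓕 : Fam K J H}
  {ι : K ≃+* ℂ}

/-- The properties of a group of automorphisms of the members of a family. -/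
structure IsGrp (𝓕 : Fam K J H) {G : Type} [Group G] (g : G → ∀ i, H i →ₐ[K] H i) :
    Prop where
  one : ∀ i x, g 1 i x = x
  mul : ∀ a b i x, g (a * b) i x = g a i (g b i x)
  polar : ∀ a i, g a i (𝓕.ξ i) = 𝓕.ξ i
  deg : ∀ a i k, ∀ x ∈ 𝓕.gr i k, g a i x ∈ 𝓕.gr i k
  maps : ∀ a i j, ∀ φ ∈ 𝓕.M i j, ∀ x, φ (g a j x) = g a i (φ x)
  fix : ∀ a i, ∀ z ∈ 𝓕.Z i, g a i z = z

variable {G : Type} [Group G] {g : G → ∀ i, H i →ₐ[K] H i} (hg : 𝓕.IsGrp g)

omit [Fintype J] [DecidableEq J] in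
lemma IsGrp.pj (hg : 𝓕.IsGrp g) (a : G) (i : J) (k : ℕ) (x : H i) :
    𝓕.pj i k (g a i x) = g a i (𝓕.pj i k x) := by
  refine gr_induction (𝓕.poin i).isInternal (p := fun x => 𝓕.pj i k (g a i x) =
    g a i (𝓕.pj i k x)) ?_ ?_ x
  · intro l x hx
    by_cases h : l = k
    · subst h
      rw [Fam.pj, proj_same _ hx, proj_same _ (hg.deg _ _ _ _ hx)]
    · rw [Fam.pj, proj_ne _ hx h, proj_ne _ (hg.deg _ _ _ _ hx) h, map_zero]
  · intro x y h1 h2
    rw [map_add, map_add, h1, h2, map_add, map_add]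

omit [Fintype J] [DecidableEq J] in
lemma IsGrp.xi_pow (hg : 𝓕.IsGrp g) (a : G) (i : J) (r : ℕ) : g a i (𝓕.ξ i ^ r) = 𝓕.ξ i ^ r := by
  rw [map_pow, hg.polar]

omit [Fintype J] [DecidableEq J] in
lemma IsGrp.tr (hg : 𝓕.IsGrp g) (a : G) (i : J) (x : H i) : 𝓕.tr i (g a i x) = 𝓕.tr i x := by
  refine gr_induction (𝓕.poin i).isInternal (p := fun x => 𝓕.tr i (g a i x) = 𝓕.tr i x) ?_ ?_ x
  · intro k x hx
    by_cases h : k = 2 * 𝓕.n i
    · subst h
      obtain ⟨s, rfl⟩ := top_eq (𝓕.poin i) (𝓕.hl i) hx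
      rw [map_smul, hg.xi_pow]
    · rw [(𝓕.poin i).tr_eq_zero hx h, (𝓕.poin i).tr_eq_zero (hg.deg _ _ _ _ hx) h]
  · intro x y h1 h2
    rw [map_add, map_add, h1, h2, map_add]

/-- The action on the product. -/
def gP (g : G → ∀ i, H i →ₐ[K] H i) (a : G) : (∀ i, H i) →ₗ[K] (∀ i, H i) :=
  LinearMap.pi (fun i => (g a i).toLinearMap ∘ₗ LinearMap.proj i)

omit [Fintype J] [DecidableEq J] [Group G] in
lemma gP_apply (a : G) (x : ∀ i, H i) (i : J) : gP g a x i = g a i (x i) := rfl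

omit [Fintype J] [DecidableEq J] in
lemma gP_gP (hg : 𝓕.IsGrp g) (a b : G) (x : 𝓕.P) : gP g a (gP g b x) = gP g (a * b) x := by
  funext i
  rw [gP_apply, gP_apply, gP_apply, hg.mul]

omit [Fintype J] [DecidableEq J] in
lemma gP_one (hg : 𝓕.IsGrp g) (x : 𝓕.P) : gP g 1 x = x := by
  funext i
  rw [gP_apply, hg.one]

/-- The action on the product with complex scalars. -/
noncomputable def gE (ι : K ≃+* ℂ) (hg : 𝓕.IsGrp g) (a : G) : AC ι 𝓕.P ≃ₗ[ℂ] AC ι 𝓕.P :=
  LinearEquiv.ofLinearMap (toC ι (gP g a)) (toC ι (gP g a⁻¹))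
    (LinearMap.ext fun x => by
      have h1 : gP g a (gP g a⁻¹ (ofA ι x)) = ofA ι x := by
        rw [gP_gP hg, mul_inv_cancel, gP_one hg]
      exact h1)
    (LinearMap.ext fun x => by
      have h1 : gP g a⁻¹ (gP g a (ofA ι x)) = ofA ι x := by
        rw [gP_gP hg, inv_mul_cancel, gP_one hg]
      exact h1)

omit [Fintype J] [DecidableEq J] in
lemma gE_apply (a : G) (x : AC ι 𝓕.P) : gE ι hg a x = toA ι (gP g a (ofA ι x)) := rfl

omit [Fintype J] [DecidableEq J] in
lemma gE_symm_apply (a : G) (x : AC ι 𝓕.P) :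
    (gE ι hg a).symm x = toA ι (gP g a⁻¹ (ofA ι x)) := rfl

omit [Fintype J] [DecidableEq J] in
lemma prim_gP (hg : 𝓕.IsGrp g) (a : G) {x : 𝓕.P} (hx : 𝓕.prim x) : 𝓕.prim (gP g a x) := by
  intro i k
  rw [gP_apply, hg.pj]
  refine ⟨fun h => ?_, fun h => ?_⟩
  · rw [← hg.xi_pow a, ← map_mul, (hx i k).1 h, map_zero]
  · rw [(hx i k).2 h, map_zero]

omit [Fintype J] in
lemma gP_ops (hg : 𝓕.IsGrp g) (a : G) {T : 𝓕.P →ₗ[K] 𝓕.P} (hT : T ∈ 𝓕.ops) (x : 𝓕.P) :
    gP g a (T x) = T (gP g a x) := by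
  rcases hT with ⟨i, k, rfl⟩ | rfl | ⟨i, j, φ, hφ, rfl⟩
  · funext j
    rw [gP_apply, comp_apply, comp_apply]
    by_cases hij : j = i
    · subst hij
      rw [Pi.single_eq_same, Pi.single_eq_same, gP_apply, hg.pj]
    · rw [Pi.single_eq_of_ne hij, Pi.single_eq_of_ne hij, map_zero]
  · funext i
    rw [gP_apply, lef_apply, map_mul, hg.polar, lef_apply, gP_apply]
  · funext l
    rw [gP_apply, ext_apply, ext_apply]
    by_cases hil : l = i
    · subst hil
      rw [Pi.single_eq_same, Pi.single_eq_same, gP_apply, hg.maps _ _ j φ hφ]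
    · rw [Pi.single_eq_of_ne hil, Pi.single_eq_of_ne hil, map_zero]

omit [Fintype J] [DecidableEq J] in
lemma gP_sgn (hg : 𝓕.IsGrp g) (a : G) (x : 𝓕.P) : gP g a (𝓕.sgn x) = 𝓕.sgn (gP g a x) := by
  funext i
  rw [gP_apply, sgn_apply, sgn_apply, gP_apply]
  refine gr_induction (𝓕.poin i).isInternal (p := fun x =>
    g a i (scal (𝓕.poin i).isInternal (fun k => (-1 : K) ^ k) x) =
      scal (𝓕.poin i).isInternal (fun k => (-1 : K) ^ k) (g a i x)) ?_ ?_ _
  · intro k x hx
    rw [scal_apply _ _ hx, scal_apply _ _ (hg.deg _ _ _ _ hx), map_smul]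
  · intro x y h1 h2
    rw [map_add, map_add, h1, h2, map_add, map_add]

omit [DecidableEq J] in
lemma form_gP (hg : 𝓕.IsGrp g) (a : G) (x y : 𝓕.P) :
    𝓕.form ι (gP g a x) (gP g a y) = 𝓕.form ι x y := by
  unfold form
  refine Finset.sum_congr rfl (fun i _ => Finset.sum_congr rfl (fun k _ => ?_))
  rw [gP_apply, gP_apply, hg.pj, hg.pj]
  have h1 : g a i (𝓕.pj i k (x i)) * g a i (𝓕.pj i k (y i)) * 𝓕.ξ i ^ (𝓕.n i - k) =
      g a i (𝓕.pj i k (x i) * 𝓕.pj i k (y i) * 𝓕.ξ i ^ (𝓕.n i - k)) := by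
    rw [map_mul, map_mul, hg.xi_pow]
  rw [h1, hg.tr]

theorem isSym_gE (a : G) : IsSym (𝓕.ctx ι) (gE ι hg a) where
  mul x y := by
    have h1 : gP g a (ofA ι x * ofA ι y) = gP g a (ofA ι x) * gP g a (ofA ι y) := by
      funext i
      exact map_mul (g a i) _ _
    exact h1
  comm := by
    rintro _ ⟨T, hT, rfl⟩ x
    exact gP_ops hg a hT (ofA ι x)
  fix := by
    rintro _ ⟨i, z, hz, rfl⟩
    have h1 : gP g a (Pi.single i z) = (Pi.single i z : 𝓕.P) := by
      funext j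
      rw [gP_apply]
      by_cases hij : j = i
      · subst hij
        rw [Pi.single_eq_same, hg.fix _ _ z hz]
      · rw [Pi.single_eq_of_ne hij, map_zero]
    exact h1
  sig x := gP_sgn hg a (ofA ι x)
  mem x hx := prim_gP hg a hx
  mem' x hx := prim_gP hg a⁻¹ hx
  form x _ y _ := form_gP hg a (ofA ι x) (ofA ι y)

variable [IsAlgClosed K] {q : ℕ} {F : ∀ i, H i →ₐ[K] H i}

/-- **Hodge-Riemann involutions commuting with Frobenius and a finite group.** If there are
Hodge-Riemann involutions of the members of a finite family compatible with the given maps and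
elements, then there are such involutions which commute with the unimodular parts of the Frobenius
endomorphisms and with the action of a finite group. -/
theorem exists_commuting_grp [Finite G] {c₀ : ∀ i, H i → H i} (hc : 𝓕.IsPolarized ι c₀)
    (hr : 𝓕.Real ι) (hF : 𝓕.IsFrob ι q F) (hg : 𝓕.IsGrp g)
    (hgF : ∀ a i x, g a i (F i x) = F i (g a i x)) :
    ∃ c : ∀ i, H i → H i, 𝓕.IsPolarized ι c ∧
      (∀ i x, c i (uF ι F i x) = uF ι F i (c i x)) ∧ ∀ a i x, c i (g a i x) = g a i (c i x) := by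
  classical
  have := Fintype.ofFinite G
  have : Module.Finite ℂ (AC ι 𝓕.P) := finite_AC ι
  have hgu : ∀ a (x : AC ι 𝓕.P), gE ι hg a (uE hF x) = uE hF (gE ι hg a x) := by
    intro a x
    have h1 : gP g a (uP ι F (ofA ι x)) = uP ι F (gP g a (ofA ι x)) :=
      fn_comm (F := FP F) (G := FP F) (gP g a) (fun y => by
        funext i
        rw [gP_apply, FP_apply, FP_apply, gP_apply, hgF]) (uni ι) (ofA ι x)
    exact h1
  obtain ⟨e, he1, he2, -⟩ := Submodule.exists_fun_fin_finrank_span_eq ℂ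
    {x : AC ι 𝓕.P | 𝓕.prim (ofA ι x) ∧ ∃ l : ℂ, ‖l‖ = 1 ∧ uE hF x = l • x}
  replace he2 := he2.trans (span_eig hF)
  choose hp l hl hel using he1
  set E := Fintype.equivFin (G × Fin (finrank ℂ (Submodule.span ℂ
    {x : AC ι 𝓕.P | 𝓕.prim (ofA ι x) ∧ ∃ l : ℂ, ‖l‖ = 1 ∧ uE hF x = l • x}))) with hE
  set e' : Fin _ → AC ι 𝓕.P := fun k => gE ι hg (E.symm k).1 (e (E.symm k).2) with he'
  have hspan : Submodule.span ℂ (Set.range e') = (𝓕.ctx ι).V := by
    apply le_antisymm
    · rw [Submodule.span_le]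
      rintro _ ⟨k, rfl⟩
      exact prim_gP hg _ (hp _)
    · rw [← he2, Submodule.span_le]
      rintro _ ⟨k, rfl⟩
      apply Submodule.subset_span
      refine ⟨E (1, k), ?_⟩
      rw [he']
      dsimp only
      rw [E.symm_apply_apply, gE_apply, gP_one hg]
      rfl
  obtain ⟨c, hcA, hcu⟩ := exists_fixed (adm_of_family hc hr) (insert (uE hF) (Set.range (gE ι hg)))
    (by
      rintro f (rfl | ⟨a, rfl⟩)
      · exact isSym_uE hF
      · exact isSym_gE hg a) hspan (by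
      rintro f (rfl | ⟨a, rfl⟩)
      · refine exists_diag (l := fun k => l (E.symm k).2) (fun k => hl _) (fun k => ?_)
        rw [he']
        dsimp only
        rw [← hgu, hel, map_smul]
      · refine exists_perm ((E.symm.trans ((Equiv.mulLeft a⁻¹).prodCongr (Equiv.refl _))).trans E)
          (fun k => ?_)
        rw [he']
        dsimp only [Equiv.trans_apply]
        rw [E.symm_apply_apply]
        exact gP_gP hg a⁻¹ (E.symm k).1 (ofA ι (e (E.symm k).2)))
  obtain ⟨c', hc', hcc⟩ := family_of_adm hcA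
  refine ⟨c', hc', fun i a => ?_, fun a i x => ?_⟩
  · have h1 := hcu (uE hF) (Set.mem_insert _ _) (toA ι (Pi.single i a))
    have h2 := congrFun (congrArg (ofA ι) h1) i
    rw [uE_apply] at h2
    have h3 := hcc (uP ι F (Pi.single i a)) i
    rw [uP_apply, Pi.single_eq_same] at h3
    have h4 : ofA ι (uE hF (c (toA ι (Pi.single i a)))) i =
        uF ι F i (ofA ι (c (toA ι (Pi.single i a))) i) :=
      uP_apply (ofA ι (c (toA ι (Pi.single i a)))) i
    rw [h4, hcc (Pi.single i a) i, Pi.single_eq_same] at h2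
    exact h3.symm.trans h2
  · have h1 := hcu (gE ι hg a) (Set.mem_insert_of_mem _ ⟨a, rfl⟩) (toA ι (Pi.single i x))
    have h2 := congrFun (congrArg (ofA ι) h1) i
    rw [gE_apply] at h2
    have h3 := hcc (gP g a (Pi.single i x)) i
    rw [gP_apply, Pi.single_eq_same] at h3
    have h4 : ofA ι (gE ι hg a (c (toA ι (Pi.single i x)))) i =
        g a i (ofA ι (c (toA ι (Pi.single i x))) i) := rfl
    rw [h4, hcc (Pi.single i x) i, Pi.single_eq_same] at h2
    exact h3.symm.trans h2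

end Fam

end Pool.Agent.H90.HR
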