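import Pool.Agent.H90.HR.FullDefs
import Pool.Agent.H90.G.S8.H914R2.Graded
import Pool.Agent.H90.G.S8.H914R2.LefDefs

/-!
# Hodge-Riemann involutions in all degrees: basic properties
-/

open ComplexConjugate

namespace Pool.Agent.H90.HR

open Pool.Agent.H914

variable {K : Type*} [Field K] {A : Type*} [Ring A] [Algebra K A]
  {gr : ℕ → Submodule K A} {n : ℕ} {tr : A →ₗ[K] K} {ξ : A} {ι : K ≃+* ℂ} {c : A → A}

lemma mulLeft_pow_apply'' (x : A) (r : ℕ) (y : A) :
    (LinearMap.mulLeft K x ^ r) y = x ^ r * y := by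
  rw [LinearMap.pow_mulLeft, LinearMap.mulLeft_apply]

lemma pow_mem_gr (hP : IsPoincareAlgebra gr n tr) (hξ : ξ ∈ gr 2) (r : ℕ) :
    ξ ^ r ∈ gr (2 * r) := by
  induction r with
  | zero => rw [pow_zero]; exact hP.one_mem
  | succ r ih =>
    rw [pow_succ]
    have := hP.mul_mem ih hξ
    rwa [show 2 * r + 2 = 2 * (r + 1) by omega] at this

lemma xi_central (hP : IsPoincareAlgebra gr n tr) (hξ : ξ ∈ gr 2) (a : A) : ξ * a = a * ξ := by
  refine gr_induction hP.isInternal (p := fun a => ξ * a = a * ξ) ?_ ?_ a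
  · intro i a ha
    rw [hP.comm hξ ha, pow_mul]
    simp
  · intro a b h1 h2
    rw [mul_add, add_mul, h1, h2]

/-- The elements of the top degree. -/
lemma top_eq (hP : IsPoincareAlgebra gr n tr) (hHL : HardLef gr n (LinearMap.mulLeft K ξ)) {a : A}
    (ha : a ∈ gr (2 * n)) : ∃ s : K, a = s • ξ ^ n := by
  obtain ⟨b, hb, h⟩ := (hHL 0 (Nat.zero_le _)).2 a (by rwa [Nat.sub_zero])
  rw [hP.gr_zero, Submodule.mem_span_singleton] at hb
  obtain ⟨s, rfl⟩ := hb
  refine ⟨s, ?_⟩
  rw [← h, mulLeft_pow_apply'', Nat.sub_zero, mul_smul_comm, mul_one]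

namespace FullHR

variable (hc : FullHR gr n tr ξ ι c)

include hc

lemma zero : c 0 = 0 := by
  have := hc.smul 0 0
  simpa using this

lemma neg (a : A) : c (-a) = - c a := by
  have := hc.smul (-1) a
  simpa using this

lemma sub (a b : A) : c (a - b) = c a - c b := by
  rw [sub_eq_add_neg, hc.add, hc.neg, ← sub_eq_add_neg]

lemma one (hP : IsPoincareAlgebra gr n tr) : c 1 = 1 := by
  have h1 : c (c 1) = 1 := by
    have := hc.invol 0 1 hP.one_mem
    rwa [pow_zero, one_smul] at this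
  have h2 := hc.mul 1 (c 1)
  rw [one_mul, h1, mul_one] at h2
  exact h2.symm

lemma pow (hP : IsPoincareAlgebra gr n tr) (r : ℕ) : c (ξ ^ r) = ξ ^ r := by
  induction r with
  | zero => rw [pow_zero]; exact hc.one hP
  | succ r ih => rw [pow_succ, hc.mul, ih, hc.polar]

lemma c_proj (hP : IsPoincareAlgebra gr n tr) (k : ℕ) (a : A) :
    c (proj hP.isInternal k a) = proj hP.isInternal k (c a) := by
  refine gr_induction hP.isInternal (p := fun a => c (proj hP.isInternal k a) =
    proj hP.isInternal k (c a)) ?_ ?_ a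
  · intro i a ha
    by_cases h : i = k
    · subst h
      rw [proj_same _ ha, proj_same _ (hc.deg _ _ ha)]
    · rw [proj_ne _ ha h, proj_ne _ (hc.deg _ _ ha) h, hc.zero]
  · intro a b h1 h2
    rw [map_add, hc.add, h1, h2, hc.add, map_add]

/-- The trace and the involution. -/
lemma tr_c (hP : IsPoincareAlgebra gr n tr) (hHL : HardLef gr n (LinearMap.mulLeft K ξ))
    (hreal : conj (ι (tr (ξ ^ n))) = ι (tr (ξ ^ n))) (a : A) :
    ι (tr (c a)) = conj (ι (tr a)) := by
  refine gr_induction hP.isInternal (p := fun a => ι (tr (c a)) = conj (ι (tr a))) ?_ ?_ a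
  · intro i a ha
    by_cases h : i = 2 * n
    · subst h
      obtain ⟨s, rfl⟩ := top_eq hP hHL ha
      rw [hc.smul, hc.pow hP, map_smul tr, map_smul tr, smul_eq_mul, smul_eq_mul, map_mul ι,
        map_mul ι, ι.apply_symm_apply, map_mul (starRingEnd ℂ), hreal]
    · rw [hP.tr_eq_zero ha h, hP.tr_eq_zero (hc.deg _ _ ha) h]
      simp
  · intro a b h1 h2
    rw [hc.add, map_add, map_add, h1, h2, map_add, map_add, map_add]

/-- The form is hermitian. -/
lemma herm (hP : IsPoincareAlgebra gr n tr) (hHL : HardLef gr n (LinearMap.mulLeft K ξ))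
    (hreal : conj (ι (tr (ξ ^ n))) = ι (tr (ξ ^ n))) {k : ℕ} (r : ℕ) {a b : A} (ha : a ∈ gr k)
    (hb : b ∈ gr k) : ι (tr (b * c a * ξ ^ r)) = conj (ι (tr (a * c b * ξ ^ r))) := by
  rw [← hc.tr_c hP hHL hreal, hc.mul, hc.mul, hc.pow hP, hc.invol k b hb, mul_smul_comm,
    hP.comm (hc.deg _ _ ha) hb, smul_smul, ← pow_add]
  have h1 : (-1 : K) ^ (k + k * k) = 1 := by
    apply Even.neg_one_pow
    rw [show k + k * k = k * (k + 1) by ring]
    exact Nat.even_mul_succ_self k
  rw [h1, one_smul]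

end FullHR

end Pool.Agent.H90.HR
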