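import Pool.Agent.H90.G.S8.H914R2.Weil

/-!
# Hodge-Riemann involutions in all degrees: definitions
-/

namespace Pool.Agent.H90.HR

/-- A Hodge-Riemann involution of the whole cohomology algebra `A` of a variety of dimension `n`,
with the subspaces `gr k` of degree `k` and the trace `tr`, for the class `ξ` of a divisor: with the
coefficient field identified with the complex numbers, an additive and multiplicative map `c` which
is semilinear with respect to the complex conjugation, preserves the degrees, fixes `ξ` and whose
square is `(-1) ^ k` in degree `k`, such that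
`(-1) ^ (k (k + 1) / 2) tr(a · c(a) · ξ ^ (n - k)) > 0` for every nonzero primitive class `a` of degree
`k ≤ n`. (If the variety and the divisor lift to characteristic zero, the map sending `a` of Hodge
type `(p, q)` to `√-1 ^ (q - p)` times its complex conjugate has these properties.) -/
structure FullHR {K : Type*} [Field K] {A : Type*} [Ring A] [Algebra K A]
    (gr : ℕ → Submodule K A) (n : ℕ) (tr : A →ₗ[K] K) (ξ : A) (ι : K ≃+* ℂ) (c : A → A) :
    Prop where
  add : ∀ a b, c (a + b) = c a + c b
  smul : ∀ (s : K) (a : A), c (s • a) = ι.symm (starRingEnd ℂ (ι s)) • c a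
  mul : ∀ a b, c (a * b) = c a * c b
  deg : ∀ k, ∀ a ∈ gr k, c a ∈ gr k
  polar : c ξ = ξ
  invol : ∀ k, ∀ a ∈ gr k, c (c a) = (-1 : K) ^ k • a
  pos : ∀ k ≤ n, ∀ a ∈ gr k, ξ ^ (n - k + 1) * a = 0 → a ≠ 0 →
    0 < (-1 : ℝ) ^ (k * (k + 1) / 2) * (ι (tr (a * c a * ξ ^ (n - k)))).re

end Pool.Agent.H90.HR
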