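import Pool.Agent.H90.HR.Setup

/-!
# The system of generated classes is stable under the involutions
-/

open CategoryTheory AlgebraicGeometry Module ComplexConjugate Submodule

universe u v

namespace Pool.Agent.H90.HR

open Pool.Agent.H914 Pool.Agent.H914.VarClass Pool.Agent.H914.VarClass.Obj
  Pool.Agent.H914.WeilCohomology Pool.Agent.H281R3.HT Pool.Agent.W552 Pool.Agent.Y103

variable {k : Type u} [Field k] {𝒱 : VarClass k} {ops : CycleOps 𝒱}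
  {W : WeilCohomology.{u, v} ops}

/-- The span of the generated classes. -/
def SG (W : WeilCohomology.{u, v} ops) (𝓓 : Diagram 𝒱) (F : ∀ i, 𝓓.Hom i i)
    {G : Type} (g : G → ∀ i, 𝓓.Hom i i) (m : 𝓓.J → ℕ) (i : 𝓓.J) (r : ℕ) : Submodule W.K (W.H (𝓓.X i)) :=
  span W.K {y | Gen W 𝓓 F g m i r y}

/-- Hard Lefschetz and multiplication. -/
lemma xi_inj {X : 𝒱.Obj} {D : X.Cycles}
    (hHL : HardLef (W.gr X) X.dim (LinearMap.mulLeft W.K (W.cl X D))) {r : ℕ}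
    (hr : 2 * r ≤ X.dim) {a b : W.H X} (ha : a ∈ W.gr X (2 * r)) (hb : b ∈ W.gr X (2 * r))
    (h : W.cl X D ^ (X.dim - 2 * r) * a = W.cl X D ^ (X.dim - 2 * r) * b) : a = b := by
  rw [← sub_eq_zero]
  apply (hHL (2 * r) hr).1 _ (sub_mem ha hb)
  rw [mulLeft_pow_apply'', mul_sub, h, sub_self]

section

variable {𝓓 : Diagram 𝒱} {F : ∀ i, 𝓓.Hom i i} {G : Type}
  {g : G → ∀ i, 𝓓.Hom i i} {m : 𝓓.J → ℕ}

lemma gen_alg (hD : ∀ i, (𝓓.X i).IsCyc 1 (𝓓.D i))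
    (hZ : ∀ i r, ∀ z ∈ 𝓓.Z i r, (𝓓.X i).IsCyc r z) {i : 𝓓.J} {r : ℕ} {x : W.H (𝓓.X i)}
    (h : Gen W 𝓓 F g m i r x) : x ∈ algClasses W (𝓓.X i) r := by
  induction h with
  | low _ h => exact h
  | polar i => exact ⟨_, hD i, rfl⟩
  | lifted h => exact ⟨_, hZ _ _ _ h, rfl⟩
  | add _ _ h1 h2 => exact alg_add h1 h2
  | smul s _ h1 => exact alg_smul s h1
  | mul _ _ h1 h2 => exact alg_mul h1 h2
  | pull _ _ h1 => exact alg_map _ h1
  | push _ _ h1 h2 => exact alg_push _ h2 h1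
  | lef _ h _ _ => exact h

lemma gen_one (i : 𝓓.J) : Gen W 𝓓 F g m i 0 1 := Gen.low (Nat.zero_le _) alg_one

lemma gen_pow (i : 𝓓.J) (r : ℕ) : Gen W 𝓓 F g m i r (W.cl (𝓓.X i) (𝓓.D i) ^ r) := by
  induction r with
  | zero => rw [pow_zero]; exact gen_one i
  | succ r ih => rw [pow_succ]; exact Gen.mul ih (Gen.polar i)

lemma gen_zero (i : 𝓓.J) (r : ℕ) : Gen W 𝓓 F g m i r 0 := by
  have := Gen.smul 0 (gen_pow (W := W) (F := F) (g := g) (m := m) i r)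
  rwa [Rat.cast_zero, zero_smul] at this

lemma ringOf (hD : ∀ i, (𝓓.X i).IsCyc 1 (𝓓.D i))
    (hZ : ∀ i r, ∀ z ∈ 𝓓.Z i r, (𝓓.X i).IsCyc r z) (i : 𝓓.J) :
    RingOf W (𝓓.X i) (𝓓.D i) (fun r x => Gen W 𝓓 F g m i r x) where
  rat r :=
    { zero := gen_zero i r
      add := fun h1 h2 => Gen.add h1 h2
      smul := fun q _ h => Gen.smul q h }
  one := gen_one i
  xi := Gen.polar i
  mul := fun h1 h2 => Gen.mul h1 h2
  alg := fun h => gen_alg hD hZ h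

lemma sg_gr (hD : ∀ i, (𝓓.X i).IsCyc 1 (𝓓.D i))
    (hZ : ∀ i r, ∀ z ∈ 𝓓.Z i r, (𝓓.X i).IsCyc r z) {i : 𝓓.J} {r : ℕ} {x : W.H (𝓓.X i)}
    (h : x ∈ SG W 𝓓 F g m i r) : x ∈ W.gr (𝓓.X i) (2 * r) := by
  refine (span_le.2 ?_) h
  intro y hy
  exact alg_gr (gen_alg hD hZ hy)

lemma sg_mul {i : 𝓓.J} {r s : ℕ} {x y : W.H (𝓓.X i)} (hx : x ∈ SG W 𝓓 F g m i r)
    (hy : y ∈ SG W 𝓓 F g m i s) : x * y ∈ SG W 𝓓 F g m i (r + s) := by
  unfold SG at hx hy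
  induction hx using span_induction with
  | mem x hx =>
    induction hy using span_induction with
    | mem y hy => exact subset_span (Gen.mul hx hy)
    | zero => rw [mul_zero]; exact zero_mem _
    | add x' y' _ _ h1 h2 => rw [mul_add]; exact add_mem h1 h2
    | smul t x' _ h1 => rw [mul_smul_comm]; exact smul_mem _ _ h1
  | zero => rw [zero_mul]; exact zero_mem _
  | add x' y' _ _ h1 h2 => rw [add_mul]; exact add_mem h1 h2
  | smul t x' _ h1 => rw [smul_mul_assoc]; exact smul_mem _ _ h1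

lemma sg_pull {i j : 𝓓.J} {f : 𝓓.X i ⟶ 𝓓.X j} (hf : GoodMor W 𝓓 F g i j f) {r : ℕ}
    {x : W.H (𝓓.X j)} (hx : x ∈ SG W 𝓓 F g m j r) : W.map f x ∈ SG W 𝓓 F g m i r := by
  unfold SG at hx
  induction hx using span_induction with
  | mem x hx => exact subset_span (Gen.pull hf hx)
  | zero => rw [map_zero]; exact zero_mem _
  | add x' y' _ _ h1 h2 => rw [map_add]; exact add_mem h1 h2
  | smul t x' _ h1 => rw [map_smul]; exact smul_mem _ _ h1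

lemma sg_push {i j : 𝓓.J} {f : 𝓓.X i ⟶ 𝓓.X j} (hf : GoodMor W 𝓓 F g i j f) {r s : ℕ}
    (hrs : r + (𝓓.X j).dim = s + (𝓓.X i).dim)
    {x : W.H (𝓓.X i)} (hx : x ∈ SG W 𝓓 F g m i r) : W.push f x ∈ SG W 𝓓 F g m j s := by
  unfold SG at hx
  induction hx using span_induction with
  | mem x hx => exact subset_span (Gen.push hf hx hrs)
  | zero => rw [map_zero]; exact zero_mem _
  | add x' y' _ _ h1 h2 => rw [map_add]; exact add_mem h1 h2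
  | smul t x' _ h1 => rw [map_smul]; exact smul_mem _ _ h1

/-- The division of generated classes. -/
lemma gen_div (hA : ∀ i, LefschetzA W (𝓓.X i) (𝓓.D i)) (hD : ∀ i, (𝓓.X i).IsCyc 1 (𝓓.D i))
    (hZ : ∀ i r, ∀ z ∈ 𝓓.Z i r, (𝓓.X i).IsCyc r z) {i : 𝓓.J} {r : ℕ}
    (hr : 2 * r ≤ (𝓓.X i).dim) {x : W.H (𝓓.X i)} (hx : Gen W 𝓓 F g m i ((𝓓.X i).dim - r) x) :
    ∃ b, Gen W 𝓓 F g m i r b ∧ x = W.cl (𝓓.X i) (𝓓.D i) ^ ((𝓓.X i).dim - 2 * r) * b := by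
  obtain ⟨b, hb, rfl⟩ := alg_div (hA i) hr (gen_alg hD hZ hx)
  exact ⟨b, Gen.lef hr hb hx, rfl⟩

lemma sg_div (hA : ∀ i, LefschetzA W (𝓓.X i) (𝓓.D i)) (hD : ∀ i, (𝓓.X i).IsCyc 1 (𝓓.D i))
    (hZ : ∀ i r, ∀ z ∈ 𝓓.Z i r, (𝓓.X i).IsCyc r z) {i : 𝓓.J} {r : ℕ}
    (hr : 2 * r ≤ (𝓓.X i).dim) {x : W.H (𝓓.X i)} (hx : x ∈ SG W 𝓓 F g m i ((𝓓.X i).dim - r)) :
    ∃ b ∈ SG W 𝓓 F g m i r, x = W.cl (𝓓.X i) (𝓓.D i) ^ ((𝓓.X i).dim - 2 * r) * b := by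
  unfold SG at hx
  induction hx using span_induction with
  | mem x hx =>
    obtain ⟨b, hb, rfl⟩ := gen_div hA hD hZ hr hx
    exact ⟨b, subset_span hb, rfl⟩
  | zero => exact ⟨0, zero_mem _, by rw [mul_zero]⟩
  | add x y _ _ h1 h2 =>
    obtain ⟨b, hb, rfl⟩ := h1
    obtain ⟨b', hb', rfl⟩ := h2
    exact ⟨b + b', add_mem hb hb', by rw [mul_add]⟩
  | smul t x _ h1 =>
    obtain ⟨b, hb, rfl⟩ := h1
    exact ⟨t • b, smul_mem _ _ hb, by rw [mul_smul_comm]⟩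

/-- The Lefschetz decomposition. -/
lemma gen_dec (hA : ∀ i, LefschetzA W (𝓓.X i) (𝓓.D i)) (hD : ∀ i, (𝓓.X i).IsCyc 1 (𝓓.D i))
    (hZ : ∀ i r, ∀ z ∈ 𝓓.Z i r, (𝓓.X i).IsCyc r z) {i : 𝓓.J} {r : ℕ}
    (hr : 2 * (r + 1) ≤ (𝓓.X i).dim) {x : W.H (𝓓.X i)} (hx : Gen W 𝓓 F g m i (r + 1) x) :
    ∃ b, Gen W 𝓓 F g m i r b ∧ W.cl (𝓓.X i) (𝓓.D i) ^ ((𝓓.X i).dim - 2 * (r + 1) + 1) *
      (x - W.cl (𝓓.X i) (𝓓.D i) * b) = 0 := by
  have h1 := Gen.mul (gen_pow (W := W) (F := F) (g := g) (m := m) i ((𝓓.X i).dim - 2 * (r + 1) + 1)) hx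
  rw [show (𝓓.X i).dim - 2 * (r + 1) + 1 + (r + 1) = (𝓓.X i).dim - r by omega] at h1
  obtain ⟨b, hb, h2⟩ := gen_div hA hD hZ (by omega) h1
  refine ⟨b, hb, ?_⟩
  rw [mul_sub, h2, ← mul_assoc, ← pow_succ,
    show (𝓓.X i).dim - 2 * (r + 1) + 1 + 1 = (𝓓.X i).dim - 2 * r by omega, sub_self]

end

namespace Setup

variable [IsAlgClosed W.K] {ι : W.K ≃+* ℂ} {𝓓 : Diagram 𝒱} {q : ℕ} {F : ∀ i, 𝓓.Hom i i}
  {G : Type} {g : G → ∀ i, 𝓓.Hom i i} {m : 𝓓.J → ℕ} {c : ∀ i, W.H (𝓓.X i) → W.H (𝓓.X i)} (S : Setup W ι 𝓓 q F g m c)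

include S

lemma c_xipow (i : 𝓓.J) (r : ℕ) :
    c i (W.cl (𝓓.X i) (𝓓.D i) ^ r) = W.cl (𝓓.X i) (𝓓.D i) ^ r :=
  (S.fhr i).pow (W.isPoincareAlgebra _) r

/-- The classes of low codimension. -/
lemma low_stable {i : 𝓓.J} {j : ℕ} (hjm : j ≤ m i) (hj : 2 * j ≤ (𝓓.X i).dim)
    {x : W.H (𝓓.X i)} (hx : x ∈ span W.K (algClasses W (𝓓.X i) j)) :
    c i x ∈ span W.K (algClasses W (𝓓.X i) j) := by
  have key := fun y => mem_span_iff (ι := ι) (S.hD i) (S.hA i) (S.hHL i) (S.hF.polar i) S.hF.pos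
    (S.hF.cyc i) (fun k y hy h0 l hl => rh_eig ι (S.hF.rh i) hy h0 hl) (S.hH i) (S.hT i) hjm hj y
  rw [key] at hx ⊢
  obtain ⟨h1, s, hs, h2⟩ := hx
  refine ⟨(S.fhr i).deg _ _ h1, s, hs, ?_⟩
  have h3 : ∀ (t : ℕ) (y : W.H (𝓓.X i)), (fn (W.map (F i)).toLinearMap (uni ι) ^ t) (c i y) =
      c i ((fn (W.map (F i)).toLinearMap (uni ι) ^ t) y) := by
    intro t
    induction t with
    | zero => intro y; rfl
    | succ t ih =>
      intro y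
      rw [pow_succ, Module.End.mul_apply, Module.End.mul_apply, ← S.comm, ih]
  rw [h3, h2]

/-- The span of the generated classes is stable under the involutions. -/
theorem stable {i : 𝓓.J} {r : ℕ} {x : W.H (𝓓.X i)} (hx : Gen W 𝓓 F g m i r x) :
    c i x ∈ SG W 𝓓 F g m i r := by
  induction hx with
  | @low i r x hr hx =>
    have hlow : ∀ j ≤ m i, ∀ y ∈ span W.K (algClasses W (𝓓.X i) j), y ∈ SG W 𝓓 F g m i j := by
      intro j hj y hy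
      exact span_mono (fun z hz => Gen.low hj hz) hy
    by_cases h : 2 * r ≤ (𝓓.X i).dim
    · exact hlow r hr _ (S.low_stable hr h (subset_span hx))
    · by_cases h' : r ≤ (𝓓.X i).dim
      · obtain ⟨b, hb, hxb⟩ := alg_div (S.hA i) (j := (𝓓.X i).dim - r) (by omega)
          (by rwa [show (𝓓.X i).dim - ((𝓓.X i).dim - r) = r by omega])
        rw [hxb, (S.fhr i).mul, S.c_xipow]
        have h1 := hlow _ (by omega) _ (S.low_stable (j := (𝓓.X i).dim - r) (by omega)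
          (by omega) (subset_span hb))
        have h2 := sg_mul (subset_span (gen_pow (W := W) (F := F) (g := g) (m := m) i
          ((𝓓.X i).dim - 2 * ((𝓓.X i).dim - r)))) h1
        rwa [show (𝓓.X i).dim - 2 * ((𝓓.X i).dim - r) + ((𝓓.X i).dim - r) = r by omega] at h2
      · have h1 := alg_gr hx
        rw [W.gr_eq_bot _ _ (by omega)] at h1
        rw [(mem_bot _).1 h1, (S.fhr i).zero]
        exact zero_mem _
  | polar i => rw [(S.fhr i).polar]; exact subset_span (Gen.polar i)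
  | lifted h => rw [S.fix _ _ _ h]; exact subset_span (Gen.lifted h)
  | add _ _ h1 h2 => rw [(S.fhr _).add]; exact add_mem h1 h2
  | smul s _ h1 => rw [(S.fhr _).smul]; exact smul_mem _ _ h1
  | mul _ _ h1 h2 => rw [(S.fhr _).mul]; exact sg_mul h1 h2
  | pull hf _ h1 => rw [S.c_map hf]; exact sg_pull hf h1
  | push hf _ h1 h2 => rw [S.c_push (S.c_map hf)]; exact sg_push hf h1 h2
  | @lef i r b hr hb _ ih =>
    rw [(S.fhr i).mul, S.c_xipow] at ih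
    obtain ⟨b', hb', h⟩ := sg_div S.hA S.hD S.hZ hr ih
    rw [xi_inj (S.hHL i) hr ((S.fhr i).deg _ _ (alg_gr hb)) (sg_gr S.hD S.hZ hb') h]
    exact hb'

theorem sg_stable {i : 𝓓.J} {r : ℕ} {x : W.H (𝓓.X i)} (hx : x ∈ SG W 𝓓 F g m i r) :
    c i x ∈ SG W 𝓓 F g m i r := by
  unfold SG at hx
  induction hx using span_induction with
  | mem x hx => exact S.stable hx
  | zero => rw [(S.fhr i).zero]; exact zero_mem _
  | add x y _ _ h1 h2 => rw [(S.fhr i).add]; exact add_mem h1 h2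
  | smul t x _ h1 => rw [(S.fhr i).smul]; exact smul_mem _ _ h1

end Setup

end Pool.Agent.H90.HR
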