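import Pool.Agent.H90.HR.TateU
import Pool.Agent.H90.HR.Full

/-!
# Generalized Tate classes of low codimension
-/

open CategoryTheory AlgebraicGeometry Module

universe u v

namespace Pool.Agent.H90.HR

open Pool.Agent.H914 Pool.Agent.H914.VarClass Pool.Agent.H914.VarClass.Obj
  Pool.Agent.H914.WeilCohomology Pool.Agent.H281R3.HT Pool.Agent.W552 Pool.Agent.Y103

variable {k : Type u} [Field k] {𝒱 : VarClass k} {ops : CycleOps 𝒱}
  {W : WeilCohomology.{u, v} ops} {X : 𝒱.Obj} {D : X.Cycles} {f : X ⟶ X} {q : ℕ}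

lemma mapPow_apply (f : X ⟶ X) (s : ℕ) (x : W.H X) :
    ((W.map f).toLinearMap ^ s) x = (⇑(W.map f))^[s] x := by
  rw [Module.End.pow_apply]
  rfl

lemma mapPow_mul (f : X ⟶ X) (s : ℕ) (x y : W.H X) :
    ((W.map f).toLinearMap ^ s) (x * y) =
      ((W.map f).toLinearMap ^ s) x * ((W.map f).toLinearMap ^ s) y := by
  induction s with
  | zero => rfl
  | succ s ih =>
    rw [pow_succ', Module.End.mul_apply, ih, Module.End.mul_apply, Module.End.mul_apply]
    exact map_mul (W.map f) _ _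

lemma mapPow_mem (f : X ⟶ X) (s : ℕ) {i : ℕ} {x : W.H X} (hx : x ∈ W.gr X i) :
    ((W.map f).toLinearMap ^ s) x ∈ W.gr X i := by
  induction s with
  | zero => exact hx
  | succ s ih =>
    rw [pow_succ', Module.End.mul_apply]
    exact W.map_mem f ih

lemma mapPow_pow (f : X ⟶ X) (hDf : W.map f (W.cl X D) = (q : W.K) • W.cl X D) (s r : ℕ) :
    ((W.map f).toLinearMap ^ s) (W.cl X D ^ r) = (q : W.K) ^ (s * r) • W.cl X D ^ r := by
  have h1 : (W.map f).toLinearMap (W.cl X D ^ r) = ((q : W.K) ^ r) • W.cl X D ^ r := by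
    have h2 : (W.map f).toLinearMap (W.cl X D ^ r) = (W.map f (W.cl X D)) ^ r :=
      map_pow (W.map f) _ _
    rw [h2, hDf, smul_pow]
  rw [eig_pow h1, ← pow_mul, mul_comm]

lemma mapPow_tr (f : X ⟶ X) (hHL : HardLef (W.gr X) X.dim (LinearMap.mulLeft W.K (W.cl X D)))
    (hDf : W.map f (W.cl X D) = (q : W.K) • W.cl X D) (s : ℕ) (x : W.H X) :
    W.tr X (((W.map f).toLinearMap ^ s) x) = (q : W.K) ^ (s * X.dim) * W.tr X x := by
  refine gr_induction (W.isInternal X) (p := fun x =>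
    W.tr X (((W.map f).toLinearMap ^ s) x) = (q : W.K) ^ (s * X.dim) * W.tr X x) ?_ ?_ x
  · intro i x hx
    by_cases h : i = 2 * X.dim
    · subst h
      obtain ⟨t, rfl⟩ := top_eq (W.isPoincareAlgebra X) hHL hx
      rw [map_smul, mapPow_pow f hDf, map_smul, map_smul, map_smul, smul_eq_mul, smul_eq_mul,
        smul_eq_mul]
      ring
    · rw [W.tr_eq_zero (mapPow_mem f s hx) h, W.tr_eq_zero hx h, mul_zero]
  · intro x y h1 h2
    rw [map_add, map_add, h1, h2, map_add, mul_add]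

lemma pull_iterate (f : X ⟶ X) (s : ℕ) (z : X.Cycles) :
    W.cl X ((ops.pull f)^[s] z) = ((W.map f).toLinearMap ^ s) (W.cl X z) := by
  induction s with
  | zero => rfl
  | succ s ih =>
    rw [Function.iterate_succ_apply', W.cl_pull, ih, pow_succ', Module.End.mul_apply]
    rfl

lemma frob_alg (hf : FrobeniusOnCycles W X f q) {j : ℕ} {z : W.H X}
    (hz : z ∈ algClasses W X j) :
    ∃ s ≥ 1, ((W.map f).toLinearMap ^ s) z = (q : W.K) ^ (s * j) • z := by
  obtain ⟨z, hz, rfl⟩ := hz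
  obtain ⟨s, hs, h⟩ := hf j z hz
  exact ⟨s, hs, by rw [← pull_iterate]; exact h⟩

/-- There are no Jordan blocks of length two for the generalized Tate classes. -/
lemma kill (hD : X.IsCyc 1 D) (hA : LefschetzA W X D)
    (hHL : HardLef (W.gr X) X.dim (LinearMap.mulLeft W.K (W.cl X D)))
    (hDf : W.map f (W.cl X D) = (q : W.K) • W.cl X D) (hq : 0 < q)
    (hf : FrobeniusOnCycles W X f q) {m : ℕ}
    (hH : ∀ j ≤ m, 2 * j ≤ X.dim → HodgeTypeIn W X D j)
    (hT : ∀ j ≤ m, 2 * j ≤ X.dim → TateConj W X f q j) {j : ℕ} (hjm : j ≤ m)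
    (hj : 2 * j ≤ X.dim) {s : ℕ} (hs : 1 ≤ s) {x : W.H X} (hx : x ∈ W.gr X (2 * j))
    (h : ((((W.map f).toLinearMap ^ s - (q : W.K) ^ (s * j) • (1 : End W.K (W.H X)))) ^ 2) x = 0) :
    ((W.map f).toLinearMap ^ s - (q : W.K) ^ (s * j) • (1 : End W.K (W.H X))) x = 0 := by
  set L : End W.K (W.H X) := (W.map f).toLinearMap with hL
  set c : W.K := (q : W.K) ^ (s * j) with hc
  set y := (L ^ s - c • (1 : End W.K (W.H X))) x with hy
  have hq0 : (q : W.K) ≠ 0 := by exact_mod_cast hq.ne'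
  have hy' : (L ^ s) x = c • x + y := by
    rw [hy, LinearMap.sub_apply, LinearMap.smul_apply, Module.End.one_apply]
    abel
  have hy2 : (L ^ s) y = c • y := by
    rw [pow_two, Module.End.mul_apply, ← hy, LinearMap.sub_apply, LinearMap.smul_apply,
      Module.End.one_apply, sub_eq_zero] at h
    exact h
  have hygr : y ∈ W.gr X (2 * j) := by
    rw [hy, LinearMap.sub_apply, LinearMap.smul_apply, Module.End.one_apply]
    exact sub_mem (mapPow_mem f s hx) (Submodule.smul_mem _ _ hx)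
  have hyspan := hT j hjm hj y ⟨hygr, s, hs, by rw [← mapPow_apply, hy2]⟩
  have hpow : ∀ t : ℕ, (L ^ (s * t)) x = c ^ t • x + (t : W.K) • (c ^ (t - 1) • y) := by
    intro t
    induction t with
    | zero => simp
    | succ t ih =>
      rw [mul_add, mul_one, add_comm (s * t) s, pow_add, Module.End.mul_apply, ih, map_add,
        map_smul, map_smul, map_smul, hy', hy2]
      rcases Nat.eq_zero_or_pos t with ht | ht
      · subst ht; simp
      · obtain ⟨t', rfl⟩ : ∃ t', t = t' + 1 := ⟨t - 1, by omega⟩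
        simp only [Nat.add_sub_cancel]
        push_cast
        module
  refine nd_alg hD hA hH hjm hj hyspan (fun z hz => ?_)
  obtain ⟨s', hs', h1⟩ := frob_alg hf hz
  have h2 : (L ^ (s * s')) z = (q : W.K) ^ (s * s' * j) • z := by
    rw [mul_comm s s', pow_mul, eig_pow h1, ← pow_mul]
    congr 1
    ring
  have h3 := mapPow_tr f hHL hDf (s * s') (z * x * W.cl X D ^ (X.dim - 2 * j))
  rw [mapPow_mul, mapPow_mul, mapPow_pow f hDf, ← hL, h2, hpow] at h3
  set r := X.dim - 2 * j with hr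
  have e1 : (q : W.K) ^ (s * s' * j) • z * (c ^ s' • x + (s' : W.K) • c ^ (s' - 1) • y) *
      (q : W.K) ^ (s * s' * r) • W.cl X D ^ r =
      ((q : W.K) ^ (s * s' * j) * (q : W.K) ^ (s * s' * r) * c ^ s') • (z * x * W.cl X D ^ r) +
      ((q : W.K) ^ (s * s' * j) * (q : W.K) ^ (s * s' * r) * (s' * c ^ (s' - 1))) •
        (z * y * W.cl X D ^ r) := by
    simp only [smul_mul_assoc, mul_smul_comm, mul_add, add_mul, smul_smul, smul_add]
    congr 2 <;> ring
  have e2 : (q : W.K) ^ (s * s' * j) * (q : W.K) ^ (s * s' * r) * c ^ s' =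
      (q : W.K) ^ (s * s' * X.dim) := by
    rw [hc, ← pow_mul, ← pow_add, ← pow_add]
    congr 1
    have : X.dim = j + r + j := by omega
    rw [this]
    ring
  rw [e1, map_add, map_smul, map_smul, e2, smul_eq_mul, smul_eq_mul] at h3
  have h4 := add_eq_left.1 h3
  refine (mul_eq_zero.1 h4).resolve_left ?_
  refine mul_ne_zero (mul_ne_zero (pow_ne_zero _ hq0) (pow_ne_zero _ hq0)) (mul_ne_zero ?_ ?_)
  · exact_mod_cast (by omega : s' ≠ 0)
  · exact pow_ne_zero _ (pow_ne_zero _ hq0)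

/-- The generalized Tate classes of low codimension are Tate classes. -/
lemma kill_all (hD : X.IsCyc 1 D) (hA : LefschetzA W X D)
    (hHL : HardLef (W.gr X) X.dim (LinearMap.mulLeft W.K (W.cl X D)))
    (hDf : W.map f (W.cl X D) = (q : W.K) • W.cl X D) (hq : 0 < q)
    (hf : FrobeniusOnCycles W X f q) {m : ℕ}
    (hH : ∀ j ≤ m, 2 * j ≤ X.dim → HodgeTypeIn W X D j)
    (hT : ∀ j ≤ m, 2 * j ≤ X.dim → TateConj W X f q j) {j : ℕ} (hjm : j ≤ m)
    (hj : 2 * j ≤ X.dim) {s : ℕ} (hs : 1 ≤ s) (t : ℕ) {x : W.H X} (hx : x ∈ W.gr X (2 * j))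
    (h : ((((W.map f).toLinearMap ^ s - (q : W.K) ^ (s * j) • (1 : End W.K (W.H X)))) ^
      (t + 1)) x = 0) :
    ((W.map f).toLinearMap ^ s - (q : W.K) ^ (s * j) • (1 : End W.K (W.H X))) x = 0 := by
  set T := (W.map f).toLinearMap ^ s - (q : W.K) ^ (s * j) • (1 : End W.K (W.H X)) with hTT
  have hgr : ∀ (t : ℕ), (T ^ t) x ∈ W.gr X (2 * j) := by
    intro t
    induction t with
    | zero => exact hx
    | succ t ih =>
      rw [pow_succ', Module.End.mul_apply]
      rw [hTT, LinearMap.sub_apply, LinearMap.smul_apply, Module.End.one_apply, ← hTT]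
      exact sub_mem (mapPow_mem f s ih) (Submodule.smul_mem _ _ ih)
  induction t with
  | zero => rwa [zero_add, pow_one] at h
  | succ t ih =>
    apply ih
    rw [show t + 1 + 1 = 2 + t by ring, pow_add, Module.End.mul_apply] at h
    rw [add_comm t 1, pow_add, Module.End.mul_apply, pow_one]
    exact kill hD hA hHL hDf hq hf hH hT hjm hj hs (hgr t) h

variable {ι : W.K ≃+* ℂ}

/-- The classes of low codimension in terms of the unimodular part of Frobenius. -/
theorem mem_span_iff [IsAlgClosed W.K] (hD : X.IsCyc 1 D) (hA : LefschetzA W X D)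
    (hHL : HardLef (W.gr X) X.dim (LinearMap.mulLeft W.K (W.cl X D)))
    (hDf : W.map f (W.cl X D) = (q : W.K) • W.cl X D) (hq : 0 < q)
    (hf : FrobeniusOnCycles W X f q)
    (hRH : ∀ i, ∀ y ∈ W.gr X i, y ≠ 0 → ∀ l : W.K, W.map f y = l • y →
      ‖ι l‖ ^ 2 = (q : ℝ) ^ i) {m : ℕ}
    (hH : ∀ j ≤ m, 2 * j ≤ X.dim → HodgeTypeIn W X D j)
    (hT : ∀ j ≤ m, 2 * j ≤ X.dim → TateConj W X f q j) {j : ℕ} (hjm : j ≤ m)
    (hj : 2 * j ≤ X.dim) (x : W.H X) : x ∈ Submodule.span W.K (algClasses W X j) ↔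
      x ∈ W.gr X (2 * j) ∧ ∃ s ≥ 1, (fn (W.map f).toLinearMap (uni ι) ^ s) x = x := by
  constructor
  · intro hx
    induction hx using Submodule.span_induction with
    | mem x hx =>
      obtain ⟨s, hs, h⟩ := frob_alg hf hx
      exact ⟨alg_gr hx, s, hs, u_of_frob hq h⟩
    | zero => exact ⟨zero_mem _, 1, le_rfl, map_zero _⟩
    | add x y _ _ h1 h2 =>
      obtain ⟨h1, s, hs, h3⟩ := h1
      obtain ⟨h2, t, ht, h4⟩ := h2
      refine ⟨add_mem h1 h2, s * t, Nat.mul_pos hs ht, ?_⟩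
      have key : ∀ (T : End W.K (W.H X)) (z : W.H X), T z = z → ∀ r : ℕ, (T ^ r) z = z := by
        intro T z hz r
        induction r with
        | zero => rfl
        | succ r ih => rw [pow_succ', Module.End.mul_apply, ih, hz]
      rw [map_add]
      congr 1
      · rw [pow_mul]; exact key _ _ h3 _
      · rw [mul_comm, pow_mul]; exact key _ _ h4 _
    | smul t x _ h1 =>
      obtain ⟨h1, s, hs, h3⟩ := h1
      exact ⟨Submodule.smul_mem _ _ h1, s, hs, by rw [map_smul, h3]⟩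
  · rintro ⟨hx, s, hs, h⟩
    obtain ⟨t, ht⟩ := frob_of_u (q := q) (j := j) (G := W.gr X (2 * j))
      (fun y hy => W.map_mem f hy) (fun y hy h0 l hl => hRH _ y hy h0 l hl) hx h
    have h1 : (((W.map f).toLinearMap ^ s - (q : W.K) ^ (s * j) • (1 : End W.K (W.H X))) ^
        (t + 1)) x = 0 := by
      rw [pow_succ', Module.End.mul_apply, ht, map_zero]
    have h2 := kill_all hD hA hHL hDf hq hf hH hT hjm hj hs t hx h1
    rw [LinearMap.sub_apply, LinearMap.smul_apply, Module.End.one_apply, sub_eq_zero,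
      mapPow_apply] at h2
    exact hT j hjm hj x ⟨hx, s, hs, h2⟩

end Pool.Agent.H90.HR
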