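import Pool.Agent.H90.HR.Eig
import Pool.Agent.H90.HR.FamSym

/-!
# The main theorem for diagrams which lift to characteristic zero
-/

open CategoryTheory AlgebraicGeometry Module ComplexConjugate Submodule

universe u v

namespace Pool.Agent.H90.HR

open Pool.Agent.H914 Pool.Agent.H914.VarClass Pool.Agent.H914.VarClass.Obj
  Pool.Agent.H914.WeilCohomology Pool.Agent.H281R3.HT Pool.Agent.W552 Pool.Agent.Y103

variable {k : Type u} [Field k] {𝒱 : VarClass k} {ops : CycleOps 𝒱}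
  {W : WeilCohomology.{u, v} ops}

lemma algClosed_of {K : Type*} [Field K] (ι : K ≃+* ℂ) : IsAlgClosed K := by
  refine IsAlgClosed.of_exists_root K (fun p _ hirr => ?_)
  have h1 : (p.map (ι : K →+* ℂ)).degree ≠ 0 := by
    rw [Polynomial.degree_map]
    exact (Polynomial.degree_pos_of_irreducible hirr).ne'
  obtain ⟨x, hx⟩ := IsAlgClosed.exists_root _ h1
  refine ⟨ι.symm x, ?_⟩
  apply ι.injective
  have h2 := Polynomial.hom_eval₂ p (RingHom.id K) (ι : K →+* ℂ) (ι.symm x)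
  rw [RingHom.comp_id] at h2
  have h3 : (ι : K →+* ℂ) (ι.symm x) = x := ι.apply_symm_apply x
  have h4 : Polynomial.eval x (Polynomial.map (ι : K →+* ℂ) p) = 0 := hx
  rw [Polynomial.eval_map] at h4
  rw [h3, h4] at h2
  rw [map_zero]
  exact h2

/-- The family of cohomology algebras of a diagram. -/
noncomputable def famOf (W : WeilCohomology.{u, v} ops) (𝓓 : Diagram 𝒱)
    (hD : ∀ i, (𝓓.X i).IsCyc 1 (𝓓.D i))
    (hHL : ∀ i, HardLef (W.gr (𝓓.X i)) (𝓓.X i).dim
      (LinearMap.mulLeft W.K (W.cl (𝓓.X i) (𝓓.D i)))) : Fam W.K 𝓓.J (fun i => W.H (𝓓.X i)) where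
  gr i := W.gr (𝓓.X i)
  n i := (𝓓.X i).dim
  tr i := W.tr (𝓓.X i)
  ξ i := W.cl (𝓓.X i) (𝓓.D i)
  M i j := {φ | ∃ f ∈ 𝓓.M i j, φ = (W.map f).toLinearMap}
  Z i := {a | ∃ r, ∃ z ∈ 𝓓.Z i r, a = W.cl (𝓓.X i) z}
  poin _ := W.isPoincareAlgebra _
  xi_mem i := W.cl_mem (hD i)
  hl := hHL

/-- The Hodge type conjecture in codimension zero. -/
lemma hodge_zero {X : 𝒱.Obj} {D : X.Cycles} (hD : X.IsCyc 1 D) {ι : W.K ≃+* ℂ}
    {c : W.H X → W.H X} (hc : FullHR (W.gr X) X.dim (W.tr X) (W.cl X D) ι c) :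
    HodgeTypeIn W X D 0 := by
  intro z hz _ h0
  have h1 : (1 : W.H X) ≠ 0 := fun h1 => h0 (by rw [← mul_one (W.cl X z), h1, mul_zero])
  have h2 := hc.pos 0 (Nat.zero_le _) 1 (W.one_mem X) (by
    have h3 := alg_gr (pow_alg (W := W) hD (X.dim - 0 + 1))
    rw [W.gr_eq_bot X _ (by omega)] at h3
    rw [(mem_bot _).1 h3, zero_mul]) h1
  rw [hc.one (W.isPoincareAlgebra X), one_mul, one_mul, Nat.sub_zero] at h2
  obtain ⟨T, hT⟩ := alg_rat (pow_alg (W := W) hD X.dim) (alg_one (W := W) (X := X))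
  rw [Pool.Agent.H914.bil_apply, mul_one] at hT
  rw [hT, map_ratCast, zero_mul, Nat.zero_div, pow_zero, one_mul] at h2
  have hT0 : 0 < T := by
    have : ((T : ℂ)).re = (T : ℝ) := by
      rw [← Complex.ofReal_ratCast, Complex.ofReal_re]
    rw [this] at h2
    exact_mod_cast h2
  obtain ⟨e, he⟩ := alg_rat (W := W) (⟨z, hz, rfl⟩ : W.cl X z ∈ algClasses W X 0)
    (pow_alg (W := W) hD X.dim)
  rw [Pool.Agent.H914.bil_apply] at he
  have h3 := W.cl_mem hz
  rw [mul_zero, W.gr_zero, mem_span_singleton] at h3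
  obtain ⟨t, ht⟩ := h3
  have ht0 : t ≠ 0 := fun h => h0 (by rw [← ht, h, zero_smul])
  rw [← ht, smul_mul_assoc, one_mul, map_smul, smul_eq_mul, hT] at he
  have h4 := deg_eq (W := W) hz (divPow_mem (ops := ops) hD X.dim hz) (by omega)
  rw [cl_divPow, mulLeft_pow_apply', ← ht, mul_smul_comm, mul_one, smul_mul_smul_comm, one_mul,
    map_smul, hT, smul_eq_mul, mul_assoc, he] at h4
  rw [mul_zero, Nat.sub_zero, pow_zero, one_mul]
  have hT' : (T : W.K) ≠ 0 := by exact_mod_cast hT0.ne'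
  have h5 : t = (e : W.K) / T := by rw [← he, mul_div_cancel_right₀ _ hT']
  have h6 : ((X.V.degCycle (ops.mul z (divPow ops D X.dim z)) : ℚ) : W.K) = ((e * e / T : ℚ) :
      W.K) := by
    rw [← h4, h5]
    push_cast
    ring
  have h7 : X.V.degCycle (ops.mul z (divPow ops D X.dim z)) = e * e / T := by
    exact_mod_cast h6
  rw [h7]
  have he0 : e ≠ 0 := by
    intro he0
    rw [he0, Rat.cast_zero] at he
    exact (mul_ne_zero ht0 hT') he
  exact div_pos (mul_self_pos.2 he0) hT0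

/-- The Tate conjecture in codimension zero. -/
lemma tate_zero (X : 𝒱.Obj) (f : X ⟶ X) (q : ℕ) : TateConj W X f q 0 := by
  rintro t ⟨ht, -⟩
  rw [mul_zero, W.gr_zero, mem_span_singleton] at ht
  obtain ⟨s, rfl⟩ := ht
  exact smul_mem _ _ (subset_span alg_one)

/-- The system of generated classes. -/
lemma isSystem_gen {𝓓 : Diagram 𝒱} {F : ∀ i, 𝓓.Hom i i} {G : Type} {g : G → ∀ i, 𝓓.Hom i i}
    {m : 𝓓.J → ℕ} : IsSystem W 𝓓 F g m (fun i r => {x | Gen W 𝓓 F g m i r x}) where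
  low _ _ hr _ hx := Gen.low hr hx
  lifted _ _ _ hz := Gen.lifted hz
  ring i :=
    { xi := Gen.polar i
      add := fun _ _ hx _ hy => Gen.add hx hy
      smul := fun _ s _ hx => Gen.smul s hx
      mul := fun _ _ _ hx _ hy => Gen.mul hx hy
      lef := fun _ hr _ hb h => Gen.lef hr hb h }
  pull _ _ _ hf _ _ hy := Gen.pull hf hy
  push _ _ _ hf _ _ hrs _ hx := Gen.push hf hx hrs

theorem main (ι : W.K ≃+* ℂ) (𝓓 : Diagram 𝒱) [Finite 𝓓.J] (hgr : 𝓓.IsGraded)
    (hL : ∀ i, LefschetzConj W (𝓓.X i) (𝓓.D i))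
    (hlift : Lifts W ι 𝓓) {q : ℕ} {F : ∀ i, 𝓓.Hom i i} (hFr : IsFrobenius W 𝓓 q F)
    {G : Type} [Group G] [Finite G] {g : G → ∀ i, 𝓓.Hom i i} (hg : IsSymmetry W 𝓓 F g)
    (m : 𝓓.J → ℕ)
    (hHT : ∀ i, HodgeTypeFor W (𝓓.X i) (𝓓.D i)
      (fun x => ∃ j, 1 ≤ j ∧ j ≤ m i ∧ x ∈ algClasses W (𝓓.X i) j))
    (hT : ∀ i j, 1 ≤ j → j ≤ m i → 2 * j ≤ (𝓓.X i).dim → TateConj W (𝓓.X i) (F i) q j)
    (i : 𝓓.J) :
    StdFor W (𝓓.X i) (𝓓.D i) (Generated W 𝓓 F g m i) := by
  obtain ⟨hD, hZ⟩ := hgr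
  have hHL := fun i => (hL i).1
  have hA : ∀ i, LefschetzA W (𝓓.X i) (𝓓.D i) := by
    intro i j hj z hz
    obtain ⟨_, ⟨z', hz', rfl⟩, h⟩ := (hL i).2 j hj _ ⟨z, hz, rfl⟩
    exact ⟨z', hz', by rw [cl_divPow, mulLeft_pow_apply', h]⟩
  have hH : ∀ i j, 1 ≤ j → j ≤ m i → 2 * j ≤ (𝓓.X i).dim → HodgeTypeIn W (𝓓.X i) (𝓓.D i) j :=
    fun i j h1 h2 h3 z hz h4 h5 => hHT i j h3 z hz ⟨j, h1, h2, z, hz, rfl⟩ h4 h5
  have hF : FrobData W 𝓓 q F :=
    { pos := hFr.pos
      polar := fun i => (hFr.each i).polar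
      cyc := fun i j z hz => by
        obtain ⟨-, s, hs, h⟩ := (hFr.each i).cyc j _ ⟨z, hz, rfl⟩
        exact ⟨s, hs, by rw [pull_iterate, mapPow_apply, h]⟩
      rh := fun i => (hFr.each i).rh }
  classical
  have := Fintype.ofFinite 𝓓.J
  have : IsAlgClosed W.K := algClosed_of ι
  obtain ⟨c₀, h1, h2, h3⟩ := hlift
  set 𝓕 := famOf W 𝓓 hD hHL with h𝓕
  have hpol : 𝓕.IsPolarized ι c₀ :=
    { hr := h1
      maps := by
        rintro i j _ ⟨f, hf, rfl⟩ a
        exact h2 i j f hf a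
      fix := by
        rintro i _ ⟨r, z, hz, rfl⟩
        exact h3 i r z hz }
  have hreal : 𝓕.Real ι := fun i => real_tr (hD i) ι
  have hfrob : 𝓕.IsFrob ι q (fun i => W.map (F i)) :=
    { qpos := hF.pos
      polar := hF.polar
      deg := fun i k a ha => W.map_mem _ ha
      maps := by
        rintro i j _ ⟨f, hf, rfl⟩ a
        change W.map f (W.map (F j) a) = W.map (F i) (W.map f a)
        have h : F i ≫ f = f ≫ F j := hFr.comm i j f hf
        rw [← W.map_comp, ← W.map_comp, h]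
      fix := by
        rintro i _ ⟨r, z, hz, rfl⟩
        have h := hFr.fix i r z hz
        unfold MulClass MulBy at h
        rw [Nat.cast_pow] at h
        exact ⟨r, h⟩
      rh := fun i k a ha h0 l hl => rh_eig ι (hF.rh i) ha h0 hl }
  have hgrp : 𝓕.IsGrp (fun a i => W.map (g a i)) :=
    { one := fun i x => by
        rw [hg.one, W.map_id]
      mul := fun a b i x => by
        have h : g (a * b) i = g a i ≫ g b i := hg.mul a b i
        rw [h, W.map_comp]
      polar := fun a i => by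
        have h := hg.polar a i
        unfold MulClass MulBy at h
        rw [Nat.cast_one, one_smul] at h
        exact h
      deg := fun a i k x hx => W.map_mem _ hx
      maps := by
        rintro a i j _ ⟨f, hf, rfl⟩ x
        change W.map f (W.map (g a j) x) = W.map (g a i) (W.map f x)
        have h : g a i ≫ f = f ≫ g a j := hg.comm a i j f hf
        rw [← W.map_comp, ← W.map_comp, h]
      fix := by
        rintro a i _ ⟨r, z, hz, rfl⟩
        have h := hg.fix a i r z hz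
        unfold MulClass MulBy at h
        rw [Nat.cast_one, one_smul] at h
        exact h }
  obtain ⟨c, hc, hcomm, hsym⟩ := Fam.exists_commuting_grp hpol hreal hfrob hgrp (fun a i x => by
    change W.map (g a i) (W.map (F i) x) = W.map (F i) (W.map (g a i) x)
    have h : g a i ≫ F i = F i ≫ g a i := hg.frob a i
    rw [← W.map_comp, ← W.map_comp, h])
  have S : Setup W ι 𝓓 q F g m c :=
    { hD := hD
      hZ := hZ
      hHL := hHL
      hA := hA
      hF := hF
      hH := by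
        intro i j hj hj2
        rcases Nat.eq_zero_or_pos j with h0 | h0
        · subst h0; exact hodge_zero (hD i) (hc.hr i)
        · exact hH i j h0 hj hj2
      hT := by
        intro i j hj hj2
        rcases Nat.eq_zero_or_pos j with h0 | h0
        · subst h0; exact tate_zero _ _ _
        · exact hT i j h0 hj hj2
      fhr := hc.hr
      maps := fun i j f hf a => hc.maps i j _ ⟨f, hf, rfl⟩ a
      fix := fun i r z hz => hc.fix i _ ⟨r, z, hz, rfl⟩
      comm := hcomm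
      sym := hsym }
  have h5 := S.std i
  have h6 : ∀ x, Generated W 𝓓 F g m i x → GeneratedBy W 𝓓 F g m i x := by
    rintro x ⟨r, hr⟩
    refine ⟨r, span_mono ?_ hr⟩
    intro y hy
    exact hy _ isSystem_gen
  exact ⟨fun j hj z hz h => h5.1 j hj z hz (h6 _ h), fun j hj z hz h => h5.2 j hj z hz (h6 _ h)⟩

end Pool.Agent.H90.HR
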