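import Pool.Agent.H90.G.S8.Y103.Spec

/-!
# Admissible antilinear involutions and their midpoints
-/

open ComplexConjugate Module

namespace Pool.Agent.H90.HR

open Pool.Agent.Y103 (PosHerm)

/-- The data: a bilinear multiplication, a subspace with a bilinear form, a set of operators, a set
of vectors and the square of the involution. -/
structure Ctx (A : Type*) [AddCommGroup A] [Module ℂ A] where
  mul : A →ₗ[ℂ] A →ₗ[ℂ] A
  V : Submodule ℂ A
  S : A →ₗ[ℂ] A →ₗ[ℂ] ℂ
  Φ : Set (A →ₗ[ℂ] A)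
  Z : Set A
  σ : A →ₗ[ℂ] A
  sig : ∀ a, σ (σ a) = a
  gen : ∀ U : Submodule ℂ A, V ≤ U → (∀ φ ∈ Φ, ∀ x ∈ U, φ x ∈ U) → ∀ x, x ∈ U

variable {A : Type*} [AddCommGroup A] [Module ℂ A]

/-- The admissible antilinear maps. -/
structure Adm (C : Ctx A) (c : A → A) : Prop where
  add : ∀ a b, c (a + b) = c a + c b
  smul : ∀ (s : ℂ) a, c (s • a) = conj s • c a
  mul : ∀ a b, c (C.mul a b) = C.mul (c a) (c b)
  comm : ∀ φ ∈ C.Φ, ∀ a, c (φ a) = φ (c a)
  fix : ∀ z ∈ C.Z, c z = z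
  sq : ∀ a, c (c a) = C.σ a
  mem : ∀ a ∈ C.V, c a ∈ C.V
  herm : ∀ a ∈ C.V, ∀ b ∈ C.V, C.S b (c a) = conj (C.S a (c b))
  pos : ∀ a ∈ C.V, a ≠ 0 → 0 < (C.S a (c a)).re

variable {C : Ctx A}

namespace Adm

variable {c c' : A → A}

lemma zero (h : Adm C c) : c 0 = 0 := by
  have := h.smul 0 0
  simpa using this

lemma neg (h : Adm C c) (a : A) : c (-a) = - c a := by
  have := h.smul (-1) a
  simpa using this

lemma sub (h : Adm C c) (a b : A) : c (a - b) = c a - c b := by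
  rw [sub_eq_add_neg, h.add, h.neg, ← sub_eq_add_neg]

lemma sum (h : Adm C c) {κ : Type*} (s : Finset κ) (f : κ → A) :
    c (∑ i ∈ s, f i) = ∑ i ∈ s, c (f i) := by
  classical
  induction s using Finset.induction_on with
  | empty => rw [Finset.sum_empty, Finset.sum_empty, h.zero]
  | insert a s ha ih => rw [Finset.sum_insert ha, Finset.sum_insert ha, h.add, ih]

lemma sig_c (h : Adm C c) (a : A) : C.σ (c a) = c (C.σ a) := by
  rw [← h.sq, ← h.sq]

lemma c_sig_c (h : Adm C c) (a : A) : c (C.σ (c a)) = a := by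
  rw [h.sig_c, h.sq, C.sig]

lemma inj (h : Adm C c) {a : A} (ha : c a = 0) : a = 0 := by
  have := h.c_sig_c a
  rw [ha, map_zero, h.zero] at this
  exact this.symm

lemma sig_mem (h : Adm C c) {a : A} (ha : a ∈ C.V) : C.σ a ∈ C.V := by
  rw [← h.sq]
  exact h.mem _ (h.mem _ ha)

lemma sig_mul (h : Adm C c) (a b : A) : C.σ (C.mul a b) = C.mul (C.σ a) (C.σ b) := by
  rw [← h.sq, h.mul, h.mul, h.sq, h.sq]

lemma sig_comm (h : Adm C c) {φ : A →ₗ[ℂ] A} (hφ : φ ∈ C.Φ) (a : A) :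
    C.σ (φ a) = φ (C.σ a) := by
  rw [← h.sq, h.comm φ hφ, h.comm φ hφ, h.sq]

lemma sig_fix (h : Adm C c) {z : A} (hz : z ∈ C.Z) : C.σ z = z := by
  rw [← h.sq, h.fix z hz, h.fix z hz]

/-- The linear operator `c⁻¹ c'`. -/
noncomputable def vv (h : Adm C c) (h' : Adm C c') : A →ₗ[ℂ] A where
  toFun x := C.σ (c (c' x))
  map_add' x y := by rw [h'.add, h.add, map_add]
  map_smul' s x := by rw [h'.smul, h.smul, Complex.conj_conj, map_smul, RingHom.id_apply]

variable (h : Adm C c) (h' : Adm C c')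

lemma vv_apply (x : A) : h.vv h' x = C.σ (c (c' x)) := rfl

lemma c_vv (x : A) : c (h.vv h' x) = c' x := by
  rw [vv_apply, h.c_sig_c]

lemma vv_mul (x y : A) : h.vv h' (C.mul x y) = C.mul (h.vv h' x) (h.vv h' y) := by
  rw [vv_apply, h'.mul, h.mul, h.sig_mul, vv_apply, vv_apply]

lemma vv_comm {φ : A →ₗ[ℂ] A} (hφ : φ ∈ C.Φ) (x : A) : h.vv h' (φ x) = φ (h.vv h' x) := by
  rw [vv_apply, h'.comm φ hφ, h.comm φ hφ, h.sig_comm hφ, vv_apply]

lemma vv_fix {z : A} (hz : z ∈ C.Z) : h.vv h' z = z := by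
  rw [vv_apply, h'.fix z hz, h.fix z hz, h.sig_fix hz]

lemma vv_mem {x : A} (hx : x ∈ C.V) : h.vv h' x ∈ C.V :=
  h.sig_mem (h.mem _ (h'.mem _ hx))

/-- The inverse of the operator is the same operator with the roles exchanged. -/
lemma vv_vv (x : A) : h'.vv h (h.vv h' x) = x := by
  rw [vv_apply, h.c_vv h', h'.sq, C.sig]

lemma vv_c (x : A) : h.vv h' (c x) = c (h'.vv h x) := by
  rw [vv_apply, vv_apply, h.sig_c, h'.sig_c]

/-- The positive definite hermitian form on `V`. -/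
lemma posHerm (h : Adm C c) : PosHerm (fun x y : C.V => C.S (x : A) (c (y : A))) where
  add x y z := by rw [Submodule.coe_add, map_add, LinearMap.add_apply]
  smul a x y := by rw [Submodule.coe_smul, map_smul, LinearMap.smul_apply, smul_eq_mul]
  symm x y := h.herm x x.2 y y.2
  pos x hx := h.pos x x.2 (fun h0 => hx (Subtype.ext h0))

/-- The restriction of the operator to `V`. -/
noncomputable def vV : C.V →ₗ[ℂ] C.V :=
  (h.vv h').restrict (fun _ hx => h.vv_mem h' hx)

lemma vV_apply (x : C.V) : (h.vV h' x : A) = h.vv h' x := rfl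

lemma form_vv (x y : A) : C.S x (c (h.vv h' y)) = C.S x (c' y) := by rw [h.c_vv h']

lemma exists_basis (h : Adm C c) (h' : Adm C c') [FiniteDimensional ℂ A] :
    ∃ (b : Basis (Fin (finrank ℂ C.V)) ℂ C.V) (μ : Fin (finrank ℂ C.V) → ℝ),
      (∀ i, h.vv h' (b i : A) = (μ i : ℂ) • (b i : A)) ∧
      (∀ i j, C.S (b i : A) (c (b j : A)) = if i = j then 1 else 0) ∧ ∀ i, 0 < μ i := by
  obtain ⟨b, μ, h1, h2⟩ := h.posHerm.spec (h.vV h') (by
    intro x y
    change C.S (h.vV h' x : A) (c y) = C.S x (c (h.vV h' y : A))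
    rw [vV_apply, vV_apply, form_vv, h.herm y y.2 _ (h.vv_mem h' x.2), form_vv, ← h'.herm]
    · exact y.2
    · exact x.2)
  have h1' : ∀ i, h.vv h' (b i : A) = (μ i : ℂ) • (b i : A) := fun i =>
    congrArg Subtype.val (h1 i)
  refine ⟨b, μ, h1', h2, fun i => ?_⟩
  have hb0 : (b i : A) ≠ 0 := fun h0 => b.ne_zero i (Subtype.ext h0)
  have h3 := h'.pos _ (b i).2 hb0
  have h4 := h2 i i
  rw [if_pos rfl] at h4
  change C.S (b i : A) (c (b i : A)) = 1 at h4
  rw [← form_vv h h', h1', h.smul, map_smul, h4, smul_eq_mul, mul_one, Complex.conj_ofReal,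
    Complex.ofReal_re] at h3
  exact h3

/-- The form in coordinates. -/
lemma expand (h : Adm C c) {ι : Type*} [Fintype ι] [DecidableEq ι] (b : Basis ι ℂ C.V)
    (hb : ∀ i j, C.S (b i : A) (c (b j : A)) = if i = j then 1 else 0) (T : A →ₗ[ℂ] A)
    (w : ι → ℝ) (hT : ∀ i, T (b i : A) = (w i : ℂ) • (b i : A)) (x y : C.V) :
    C.S x (c (T y)) = ∑ i, b.repr x i * conj (b.repr y i) * w i := by
  have hx : (x : A) = ∑ i, b.repr x i • (b i : A) := by
    have := congrArg Subtype.val (b.sum_repr x).symm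
    rwa [AddSubmonoidClass.coe_finsetSum] at this
  have hy : (y : A) = ∑ i, b.repr y i • (b i : A) := by
    have := congrArg Subtype.val (b.sum_repr y).symm
    rwa [AddSubmonoidClass.coe_finsetSum] at this
  have h1 : c (T y) = ∑ j, (conj (b.repr y j) * w j) • c (b j : A) := by
    conv_lhs => rw [hy]
    rw [map_sum, h.sum]
    apply Finset.sum_congr rfl
    intro j _
    rw [map_smul, hT, smul_smul, h.smul, map_mul, Complex.conj_ofReal]
  rw [h1, map_sum]
  apply Finset.sum_congr rfl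
  intro j _
  rw [map_smul, smul_eq_mul]
  have h2 : C.S x (c (b j : A)) = b.repr x j := by
    conv_lhs => rw [hx]
    rw [map_sum, LinearMap.sum_apply, Finset.sum_eq_single j]
    · rw [map_smul, LinearMap.smul_apply, hb, if_pos rfl, smul_eq_mul, mul_one]
    · intro i _ hij
      rw [map_smul, LinearMap.smul_apply, hb, if_neg hij, smul_zero]
    · intro h0; exact absurd (Finset.mem_univ _) h0
  rw [h2]
  ring

end Adm

end Pool.Agent.H90.HR
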