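import Pool.Agent.H90.HR.Root

/-!
# Existence of a minimum on the admissible antilinear maps
-/

open ComplexConjugate Module

namespace Pool.Agent.H90.HR

variable {A : Type*} [AddCommGroup A] [Module ℂ A] {C : Ctx A}

/-- The admissible antilinear maps, with a semidefinite form only. -/
structure SAdm (C : Ctx A) (c : A → A) : Prop where
  add : ∀ a b, c (a + b) = c a + c b
  smul : ∀ (s : ℂ) a, c (s • a) = conj s • c a
  mul : ∀ a b, c (C.mul a b) = C.mul (c a) (c b)
  comm : ∀ φ ∈ C.Φ, ∀ a, c (φ a) = φ (c a)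
  fix : ∀ z ∈ C.Z, c z = z
  sq : ∀ a, c (c a) = C.σ a
  mem : ∀ a ∈ C.V, c a ∈ C.V
  herm : ∀ a ∈ C.V, ∀ b ∈ C.V, C.S b (c a) = conj (C.S a (c b))
  nonneg : ∀ a ∈ C.V, 0 ≤ (C.S a (c a)).re

lemma Adm.sadm {c : A → A} (h : Adm C c) : SAdm C c where
  add := h.add
  smul := h.smul
  mul := h.mul
  comm := h.comm
  fix := h.fix
  sq := h.sq
  mem := h.mem
  herm := h.herm
  nonneg a ha := by
    by_cases h0 : a = 0
    · rw [h0, h.zero, map_zero, Complex.zero_re]
    · exact (h.pos a ha h0).le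

/-- The Cauchy-Schwarz inequality. -/
lemma SAdm.cs {c : A → A} (h : SAdm C c) {x y : A} (hx : x ∈ C.V) (hy : y ∈ C.V) :
    ‖C.S x (c y)‖ ^ 2 ≤ (C.S x (c x)).re * (C.S y (c y)).re := by
  let core : PreInnerProductSpace.Core ℂ C.V :=
    { inner := fun x y => C.S (y : A) (c (x : A))
      conj_inner_symm := fun x y => (h.herm x x.2 y y.2).symm
      re_inner_nonneg := fun x => h.nonneg x x.2
      add_left := fun x y z => by
        rw [Submodule.coe_add, h.add, map_add]
      smul_left := fun x y r => by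
        rw [Submodule.coe_smul, h.smul, map_smul, smul_eq_mul] }
  have h1 := @InnerProductSpace.Core.inner_mul_inner_self_le ℂ C.V _ _ _ core ⟨x, hx⟩ ⟨y, hy⟩
  change ‖C.S y (c x)‖ * ‖C.S x (c y)‖ ≤ (C.S x (c x)).re * (C.S y (c y)).re at h1
  rw [h.herm x hx y hy, Complex.norm_conj, ← pow_two] at h1
  exact h1

/-- The form is nondegenerate on `V`. -/
lemma Adm.nondeg {c : A → A} (h : Adm C c) {x : A} (hx : x ∈ C.V) (h0 : ∀ y ∈ C.V, C.S y x = 0) :
    x = 0 := by
  by_contra hx0
  have h1 : c (C.σ x) = c (C.σ x) := rfl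
  have h2 : c (c (C.σ x)) = x := by rw [h.sq, C.sig]
  set y := c (C.σ x) with hy
  have hyV : y ∈ C.V := h.mem _ (h.sig_mem hx)
  have hy0 : y ≠ 0 := by
    intro h3
    apply hx0
    rw [← h2, h3, h.zero]
  have h3 := h.pos y hyV hy0
  rw [h2, h0 y hyV, Complex.zero_re] at h3
  exact lt_irrefl _ h3

lemma SAdm.adm {c c₀ : A → A} (h : SAdm C c) (h₀ : Adm C c₀) : Adm C c where
  add := h.add
  smul := h.smul
  mul := h.mul
  comm := h.comm
  fix := h.fix
  sq := h.sq
  mem := h.mem
  herm := h.herm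
  pos a ha ha0 := by
    refine lt_of_le_of_ne (h.nonneg a ha) (fun h1 => ha0 ?_)
    have h2 : c a = 0 := by
      apply h₀.nondeg (h.mem a ha)
      intro y hy
      have h3 := h.cs hy ha
      rw [← h1, mul_zero] at h3
      have h4 : ‖C.S y (c a)‖ ^ 2 = 0 := le_antisymm h3 (sq_nonneg _)
      exact norm_eq_zero.1 (pow_eq_zero_iff two_ne_zero |>.1 h4)
    have h3 := h.sq a
    have h4 : c 0 = 0 := by
      have := h.smul 0 0
      simpa using this
    rw [h2, h4] at h3
    rw [← C.sig a, ← h3, map_zero]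

section Coord

variable {n : ℕ} (a : Basis (Fin n) ℂ A)

/-- The antilinear map with a given matrix. -/
noncomputable def cM (M : Fin n → Fin n → ℂ) (x : A) : A :=
  ∑ k, (∑ l, M k l * conj (a.repr x l)) • a k

lemma cM_add (M : Fin n → Fin n → ℂ) (x y : A) : cM a M (x + y) = cM a M x + cM a M y := by
  unfold cM
  rw [← Finset.sum_add_distrib]
  apply Finset.sum_congr rfl
  intro k _
  rw [← add_smul, ← Finset.sum_add_distrib]
  congr 1
  apply Finset.sum_congr rfl
  intro l _
  rw [map_add, Finsupp.add_apply, map_add, mul_add]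

lemma cM_smul (M : Fin n → Fin n → ℂ) (s : ℂ) (x : A) : cM a M (s • x) = conj s • cM a M x := by
  unfold cM
  rw [Finset.smul_sum]
  apply Finset.sum_congr rfl
  intro k _
  rw [smul_smul, Finset.mul_sum]
  congr 1
  apply Finset.sum_congr rfl
  intro l _
  rw [map_smul, Finsupp.smul_apply, smul_eq_mul, map_mul]
  ring

lemma cM_addM (M M' : Fin n → Fin n → ℂ) (x : A) : cM a (M + M') x = cM a M x + cM a M' x := by
  unfold cM
  rw [← Finset.sum_add_distrib]
  apply Finset.sum_congr rfl
  intro k _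
  rw [← add_smul, ← Finset.sum_add_distrib]
  congr 1
  apply Finset.sum_congr rfl
  intro l _
  rw [Pi.add_apply, Pi.add_apply, add_mul]

lemma cM_smulM (M : Fin n → Fin n → ℂ) (s : ℂ) (x : A) : cM a (s • M) x = s • cM a M x := by
  unfold cM
  rw [Finset.smul_sum]
  apply Finset.sum_congr rfl
  intro k _
  rw [smul_smul, Finset.mul_sum]
  congr 1
  apply Finset.sum_congr rfl
  intro l _
  rw [Pi.smul_apply, Pi.smul_apply, smul_eq_mul, mul_assoc]

lemma exists_matrix {c : A → A} (hadd : ∀ x y, c (x + y) = c x + c y)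
    (hsmul : ∀ (s : ℂ) x, c (s • x) = conj s • c x) : ∃ M, cM a M = c := by
  have h0 : c 0 = 0 := by
    have := hsmul 0 0
    simpa using this
  have hsum : ∀ (s : Finset (Fin n)) (f : Fin n → A), c (∑ i ∈ s, f i) = ∑ i ∈ s, c (f i) := by
    intro s f
    classical
    induction s using Finset.induction_on with
    | empty => rw [Finset.sum_empty, Finset.sum_empty, h0]
    | insert a s ha ih => rw [Finset.sum_insert ha, Finset.sum_insert ha, hadd, ih]
  refine ⟨fun k l => a.repr (c (a l)) k, funext fun x => ?_⟩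
  have h1 : c x = ∑ l, conj (a.repr x l) • c (a l) := by
    conv_lhs => rw [← a.sum_repr x]
    rw [hsum]
    exact Finset.sum_congr rfl (fun l _ => hsmul _ _)
  have h2 : ∀ l, c (a l) = ∑ k, a.repr (c (a l)) k • a k := fun l => (a.sum_repr _).symm
  unfold cM
  rw [h1]
  simp_rw [Finset.sum_smul]
  rw [Finset.sum_comm]
  apply Finset.sum_congr rfl
  intro l _
  conv_rhs => rw [h2 l, Finset.smul_sum]
  apply Finset.sum_congr rfl
  intro k _
  rw [smul_smul, mul_comm]

/-- All the coordinates of the function are continuous. -/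
def CCont (n : ℕ) (A : Type*) [AddCommGroup A] [Module ℂ A] (u : (Fin n → Fin n → ℂ) → A) : Prop :=
  ∀ T : A →ₗ[ℂ] ℂ, Continuous (fun M => T (u M))

lemma ccont_const (x : A) : CCont n A (fun _ => x) := fun _ => continuous_const

lemma CCont.lin {B : Type*} [AddCommGroup B] [Module ℂ B] {u : (Fin n → Fin n → ℂ) → A}
    (hu : CCont n A u) (φ : A →ₗ[ℂ] B) : CCont n B (fun M => φ (u M)) :=
  fun T => hu (T ∘ₗ φ)

include a in
lemma CCont.bil {B : Type*} [AddCommGroup B] [Module ℂ B]
    {u v : (Fin n → Fin n → ℂ) → A} (hu : CCont n A u)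
    (hv : CCont n A v) (m : A →ₗ[ℂ] A →ₗ[ℂ] B) : CCont n B (fun M => m (u M) (v M)) := by
  intro T
  have h1 : ∀ M, T (m (u M) (v M)) =
      ∑ i, ∑ j, a.coord i (u M) * (a.coord j (v M) * T (m (a i) (a j))) := by
    intro M
    conv_lhs => rw [← a.sum_repr (u M), ← a.sum_repr (v M)]
    rw [map_sum m, LinearMap.sum_apply, map_sum T]
    apply Finset.sum_congr rfl
    intro i _
    rw [map_sum, map_sum]
    apply Finset.sum_congr rfl
    intro j _
    rw [map_smul, map_smul T, map_smul m, LinearMap.smul_apply, map_smul T, smul_eq_mul,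
      smul_eq_mul, Basis.coord_apply, Basis.coord_apply]
    ring
  simp_rw [h1]
  refine continuous_finsetSum _ (fun i _ => continuous_finsetSum _ (fun j _ => ?_))
  exact (hu _).mul ((hv _).mul continuous_const)

lemma CCont.cM' {u : (Fin n → Fin n → ℂ) → A} (hu : CCont n A u) :
    CCont n A (fun M => cM a M (u M)) := by
  intro T
  have h1 : ∀ M, T (cM a M (u M)) =
      ∑ k, (∑ l, M k l * conj (a.coord l (u M))) * T (a k) := by
    intro M
    unfold cM
    rw [map_sum]
    apply Finset.sum_congr rfl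
    intro k _
    rw [map_smul, smul_eq_mul]
    rfl
  simp_rw [h1]
  refine continuous_finsetSum _ (fun k _ => Continuous.mul ?_ continuous_const)
  refine continuous_finsetSum _ (fun l _ => Continuous.mul ?_ ?_)
  · exact (continuous_apply l).comp (continuous_apply k)
  · exact Complex.continuous_conj.comp (hu _)

include a in
lemma isClosed_eqA {u v : (Fin n → Fin n → ℂ) → A} (hu : CCont n A u) (hv : CCont n A v) :
    IsClosed {M | u M = v M} := by
  have h1 : {M | u M = v M} = ⋂ k, {M | a.coord k (u M) = a.coord k (v M)} := by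
    ext M
    rw [Set.mem_iInter]
    constructor
    · intro h k
      change a.coord k (u M) = a.coord k (v M)
      rw [show u M = v M from h]
    · intro h
      apply a.ext_elem
      intro k
      exact h k
  rw [h1]
  exact isClosed_iInter (fun k => isClosed_eq (hu _) (hv _))

/-- A projection with a given kernel. -/
lemma exists_ker (V : Submodule ℂ A) : ∃ P : A →ₗ[ℂ] A, ∀ x, P x = 0 ↔ x ∈ V := by
  obtain ⟨s, hs⟩ := LinearMap.exists_rightInverse_of_surjective V.mkQ
    (by rw [Submodule.range_mkQ])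
  refine ⟨s ∘ₗ V.mkQ, fun x => ?_⟩
  rw [LinearMap.comp_apply]
  constructor
  · intro h
    have h1 := LinearMap.congr_fun hs (V.mkQ x)
    rw [LinearMap.comp_apply, h, map_zero] at h1
    exact (Submodule.Quotient.mk_eq_zero V).1 h1.symm
  · intro h
    rw [show V.mkQ x = 0 from (Submodule.Quotient.mk_eq_zero V).2 h, map_zero]

lemma ccont_cM (x : A) : CCont n A (fun M => cM a M x) := (ccont_const x).cM' a

lemma isClosed_sadm (C : Ctx A) : IsClosed {M | SAdm C (cM a M)} := by
  obtain ⟨P, hP⟩ := exists_ker C.V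
  have h1 : {M | SAdm C (cM a M)} =
      (⋂ x, ⋂ y, {M | cM a M (C.mul x y) = C.mul (cM a M x) (cM a M y)}) ∩
      (⋂ φ ∈ C.Φ, ⋂ x, {M | cM a M (φ x) = φ (cM a M x)}) ∩
      (⋂ z ∈ C.Z, {M | cM a M z = z}) ∩
      (⋂ x, {M | cM a M (cM a M x) = C.σ x}) ∩
      (⋂ x ∈ C.V, {M | P (cM a M x) = 0}) ∩
      (⋂ x ∈ C.V, ⋂ y ∈ C.V, {M | C.S y (cM a M x) = conj (C.S x (cM a M y))}) ∩
      (⋂ x ∈ C.V, {M | 0 ≤ (C.S x (cM a M x)).re}) := by
    ext M
    simp only [Set.mem_ofPred_eq, Set.mem_inter_iff, Set.mem_iInter]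
    constructor
    · intro h
      exact ⟨⟨⟨⟨⟨⟨h.mul, h.comm⟩, h.fix⟩, h.sq⟩, fun x hx => (hP _).2 (h.mem x hx)⟩, h.herm⟩,
        h.nonneg⟩
    · rintro ⟨⟨⟨⟨⟨⟨h1, h2⟩, h3⟩, h4⟩, h5⟩, h6⟩, h7⟩
      exact
      { add := cM_add a M
        smul := cM_smul a M
        mul := h1
        comm := h2
        fix := h3
        sq := h4
        mem := fun x hx => (hP _).1 (h5 x hx)
        herm := h6
        nonneg := h7 }
  rw [h1]
  refine IsClosed.inter (IsClosed.inter (IsClosed.inter (IsClosed.inter (IsClosed.inter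
    (IsClosed.inter ?_ ?_) ?_) ?_) ?_) ?_) ?_
  · exact isClosed_iInter fun x => isClosed_iInter fun y =>
      isClosed_eqA a (ccont_cM a _) ((ccont_cM a x).bil a (ccont_cM a y) C.mul)
  · exact isClosed_iInter fun φ => isClosed_iInter fun _ => isClosed_iInter fun x =>
      isClosed_eqA a (ccont_cM a _) ((ccont_cM a x).lin φ)
  · exact isClosed_iInter fun z => isClosed_iInter fun _ =>
      isClosed_eqA a (ccont_cM a _) (ccont_const z)
  · exact isClosed_iInter fun x =>
      isClosed_eqA a ((ccont_cM a x).cM' a) (ccont_const _)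
  · exact isClosed_iInter fun x => isClosed_iInter fun _ =>
      isClosed_eqA a ((ccont_cM a x).lin P) (ccont_const _)
  · exact isClosed_iInter fun x => isClosed_iInter fun _ => isClosed_iInter fun y =>
      isClosed_iInter fun _ => isClosed_eq (ccont_cM a x (C.S y))
        (Complex.continuous_conj.comp (ccont_cM a y (C.S x)))
  · exact isClosed_iInter fun x => isClosed_iInter fun _ =>
      isClosed_le continuous_const (Complex.continuous_re.comp (ccont_cM a x (C.S x)))

end Coord

/-- The value of the function which is minimized. -/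
noncomputable def phi (C : Ctx A) {m : ℕ} (e : Fin m → A) (c : A → A) : ℝ :=
  ∑ k, (C.S (e k) (c (e k))).re

/-- The matrices of the antilinear maps which commute with the operators and preserve `V`. -/
noncomputable def EM {n : ℕ} (a : Basis (Fin n) ℂ A) (C : Ctx A) :
    Submodule ℂ (Fin n → Fin n → ℂ) where
  carrier := {M | (∀ φ ∈ C.Φ, ∀ x, cM a M (φ x) = φ (cM a M x)) ∧ ∀ x ∈ C.V, cM a M x ∈ C.V}
  add_mem' := by
    rintro M M' ⟨h1, h2⟩ ⟨h3, h4⟩
    refine ⟨fun φ hφ x => ?_, fun x hx => ?_⟩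
    · rw [cM_addM, cM_addM, map_add, h1 φ hφ, h3 φ hφ]
    · rw [cM_addM]; exact C.V.add_mem (h2 x hx) (h4 x hx)
  zero_mem' := by
    have h0 : ∀ x, cM a 0 x = 0 := by
      intro x
      have := cM_smulM a 0 0 x
      simpa using this
    refine ⟨fun φ hφ x => ?_, fun x hx => ?_⟩
    · rw [h0, h0, map_zero]
    · rw [h0]; exact C.V.zero_mem
  smul_mem' := by
    rintro s M ⟨h1, h2⟩
    refine ⟨fun φ hφ x => ?_, fun x hx => ?_⟩
    · rw [cM_smulM, cM_smulM, map_smul, h1 φ hφ]
    · rw [cM_smulM]; exact C.V.smul_mem _ (h2 x hx)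

/-- The Gram matrix. -/
noncomputable def gram {n : ℕ} (a : Basis (Fin n) ℂ A) (C : Ctx A) {m : ℕ} (e : Fin m → A) :
    (Fin n → Fin n → ℂ) →ₗ[ℂ] (Fin m → Fin m → ℂ) where
  toFun M k l := C.S (e k) (cM a M (e l))
  map_add' M M' := by
    funext k l
    rw [cM_addM, map_add]
    rfl
  map_smul' s M := by
    funext k l
    rw [cM_smulM, map_smul]
    rfl

lemma gram_inj {n : ℕ} (a : Basis (Fin n) ℂ A) {m : ℕ} {e : Fin m → A}
    (heV : Submodule.span ℂ (Set.range e) = C.V) {c₀ : A → A} (h₀ : Adm C c₀) :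
    LinearMap.ker ((gram a C e).domRestrict (EM a C)) = ⊥ := by
  rw [LinearMap.ker_eq_bot']
  rintro ⟨M, hM1, hM2⟩ h
  have h1 : ∀ k l, C.S (e k) (cM a M (e l)) = 0 := fun k l => congrFun (congrFun h k) l
  have heV' : ∀ l, e l ∈ C.V := fun l => by
    rw [← heV]; exact Submodule.subset_span ⟨l, rfl⟩
  have h2 : ∀ l, cM a M (e l) = 0 := by
    intro l
    apply h₀.nondeg (hM2 _ (heV' l))
    intro y hy
    rw [← heV] at hy
    induction hy using Submodule.span_induction with
    | mem y hy => obtain ⟨k, rfl⟩ := hy; exact h1 k l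
    | zero => rw [map_zero, LinearMap.zero_apply]
    | add y y' _ _ h1 h2 => rw [map_add, LinearMap.add_apply, h1, h2, add_zero]
    | smul s y _ h1 => rw [map_smul, LinearMap.smul_apply, h1, smul_zero]
  have hc0 : ∀ x, cM a M x = 0 := by
    let U : Submodule ℂ A :=
      { carrier := {x | cM a M x = 0}
        add_mem' := by
          intro x y (hx : _ = _) (hy : _ = _)
          change cM a M (x + y) = 0
          rw [cM_add, hx, hy, add_zero]
        zero_mem' := by
          change cM a M 0 = 0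
          have := cM_smul a M 0 0
          simpa using this
        smul_mem' := by
          intro s x (hx : _ = _)
          change cM a M (s • x) = 0
          rw [cM_smul, hx, smul_zero] }
    intro x
    refine C.gen U ?_ ?_ x
    · rw [← heV, Submodule.span_le]
      rintro _ ⟨l, rfl⟩
      exact h2 l
    · intro φ hφ x hx
      change cM a M (φ x) = 0
      rw [hM1 φ hφ, show cM a M x = 0 from hx, map_zero]
  apply Subtype.ext
  funext k l
  have h3 := congrArg (fun y => a.repr y k) (hc0 (a l))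
  simp only [map_zero, Finsupp.zero_apply] at h3
  unfold cM at h3
  rw [map_sum, Finsupp.finsetSum_apply, Finset.sum_eq_single k] at h3
  · rw [map_smul, Finsupp.smul_apply, a.repr_self k, Finsupp.single_eq_same, smul_eq_mul, mul_one,
      Finset.sum_eq_single l] at h3
    · rw [a.repr_self, Finsupp.single_eq_same, map_one, mul_one] at h3
      exact h3
    · intro l' _ hl'
      rw [a.repr_self, Finsupp.single_eq_of_ne hl', map_zero, mul_zero]
    · intro h0; exact absurd (Finset.mem_univ _) h0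
  · intro k' _ hk'
    rw [map_smul, Finsupp.smul_apply, a.repr_self k', Finsupp.single_eq_of_ne (Ne.symm hk'),
      smul_zero]
  · intro h0; exact absurd (Finset.mem_univ _) h0

/-- **Existence of a minimum.** -/
theorem exists_min [FiniteDimensional ℂ A] {m : ℕ} {e : Fin m → A}
    (heV : Submodule.span ℂ (Set.range e) = C.V) {c₀ : A → A} (h₀ : Adm C c₀) :
    ∃ c : A → A, Adm C c ∧ ∀ c', Adm C c' → phi C e c ≤ phi C e c' := by
  set a : Basis (Fin (finrank ℂ A)) ℂ A := finBasis ℂ A with ha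
  have heV' : ∀ l, e l ∈ C.V := fun l => by
    rw [← heV]; exact Submodule.subset_span ⟨l, rfl⟩
  obtain ⟨K, hK0, hK⟩ := LinearMap.exists_antilipschitzWith _ (gram_inj a heV h₀)
  set c0 := phi C e c₀ with hc0
  have hcont : Continuous (fun M => phi C e (cM a M)) := by
    unfold phi
    exact continuous_finsetSum _ (fun k _ => Complex.continuous_re.comp (ccont_cM a _ (C.S (e k))))
  set 𝒦 : Set (Fin (finrank ℂ A) → Fin (finrank ℂ A) → ℂ) :=
    {M | SAdm C (cM a M)} ∩ {M | phi C e (cM a M) ≤ c0} with h𝒦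
  have hclosed : IsClosed 𝒦 :=
    (isClosed_sadm a C).inter (isClosed_le hcont continuous_const)
  have hbdd : Bornology.IsBounded 𝒦 := by
    rw [isBounded_iff_forall_norm_le]
    refine ⟨K * c0, ?_⟩
    rintro M ⟨hM1 : SAdm C (cM a M), hM2 : phi C e (cM a M) ≤ c0⟩
    have hME : M ∈ EM a C := ⟨hM1.comm, hM1.mem⟩
    have h1 := hK.le_mul_dist ⟨M, hME⟩ 0
    rw [dist_zero_right, map_zero, dist_zero_right] at h1
    have h1' : ‖M‖ ≤ K * ‖gram a C e M‖ := h1
    refine h1'.trans (mul_le_mul_of_nonneg_left ?_ K.2)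
    have hc0n : 0 ≤ c0 := (Finset.sum_nonneg (fun k _ => hM1.nonneg _ (heV' k))).trans hM2
    rw [pi_norm_le_iff_of_nonneg hc0n]
    intro k
    rw [pi_norm_le_iff_of_nonneg hc0n]
    intro l
    change ‖C.S (e k) (cM a M (e l))‖ ≤ c0
    have h2 := hM1.cs (heV' k) (heV' l)
    have h3 : ∀ k, (C.S (e k) (cM a M (e k))).re ≤ c0 := fun k =>
      (Finset.single_le_sum (f := fun k => (C.S (e k) (cM a M (e k))).re)
        (fun k _ => hM1.nonneg _ (heV' k)) (Finset.mem_univ k)).trans hM2
    have h4 : ‖C.S (e k) (cM a M (e l))‖ ^ 2 ≤ c0 ^ 2 := by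
      rw [pow_two c0]
      exact h2.trans (mul_le_mul (h3 k) (h3 l) (hM1.nonneg _ (heV' l)) hc0n)
    exact (pow_le_pow_iff_left₀ (norm_nonneg _) hc0n two_ne_zero).1 h4
  have hcomp : IsCompact 𝒦 := Metric.isCompact_of_isClosed_isBounded hclosed hbdd
  obtain ⟨M₀, hM₀⟩ := exists_matrix a h₀.add h₀.smul
  have hne : 𝒦.Nonempty := ⟨M₀, by
    refine ⟨?_, ?_⟩
    · change SAdm C (cM a M₀); rw [hM₀]; exact h₀.sadm
    · change phi C e (cM a M₀) ≤ c0; rw [hM₀]⟩
  obtain ⟨M, hM, hmin⟩ := hcomp.exists_isMinOn hne hcont.continuousOn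
  refine ⟨cM a M, SAdm.adm hM.1 h₀, fun c' hc' => ?_⟩
  obtain ⟨M', hM'⟩ := exists_matrix a hc'.add hc'.smul
  by_cases h1 : phi C e c' ≤ c0
  · have h2 : M' ∈ 𝒦 := by
      refine ⟨?_, ?_⟩
      · change SAdm C (cM a M'); rw [hM']; exact hc'.sadm
      · change phi C e (cM a M') ≤ c0; rw [hM']; exact h1
    have h3 := hmin h2
    change phi C e (cM a M) ≤ phi C e (cM a M') at h3
    rwa [hM'] at h3
  · push Not at h1
    exact hM.2.trans h1.le

/-- Uniqueness of the minimum. -/
theorem min_unique [FiniteDimensional ℂ A] {m : ℕ} {e : Fin m → A}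
    (heV : Submodule.span ℂ (Set.range e) = C.V) {c c' : A → A} (h : Adm C c) (h' : Adm C c')
    (h1 : ∀ d, Adm C d → phi C e c ≤ phi C e d) (h2 : phi C e c' = phi C e c) : c' = c := by
  have heV' : ∀ l, e l ∈ C.V := fun l => by
    rw [← heV]; exact Submodule.subset_span ⟨l, rfl⟩
  obtain ⟨d, hd, hd1, hd2⟩ := exists_mid h h'
  have h3 := h1 d hd
  have h4 : ∀ k, 2 * (C.S (e k) (d (e k))).re =
      (C.S (e k) (c (e k))).re + (C.S (e k) (c' (e k))).re := by
    have h5 : ∑ k, ((C.S (e k) (c (e k))).re + (C.S (e k) (c' (e k))).re -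
        2 * (C.S (e k) (d (e k))).re) ≤ 0 := by
      rw [Finset.sum_sub_distrib, Finset.sum_add_distrib, ← Finset.mul_sum]
      change phi C e c + phi C e c' - 2 * phi C e d ≤ 0
      linarith
    have h6 : ∀ k ∈ Finset.univ, 0 ≤ ((C.S (e k) (c (e k))).re + (C.S (e k) (c' (e k))).re -
        2 * (C.S (e k) (d (e k))).re) := fun k _ => by
      have := hd1 (e k) (heV' k)
      linarith
    have h7 := (Finset.sum_eq_zero_iff_of_nonneg h6).1 (le_antisymm h5 (Finset.sum_nonneg h6))
    intro k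
    have := h7 k (Finset.mem_univ _)
    linarith
  have h5 : ∀ k, c' (e k) = c (e k) := fun k => hd2 _ (heV' k) (h4 k)
  funext x
  let U : Submodule ℂ A :=
    { carrier := {x | c' x = c x}
      add_mem' := by
        intro x y (hx : _ = _) (hy : _ = _)
        change c' (x + y) = c (x + y)
        rw [h.add, h'.add, hx, hy]
      zero_mem' := by
        change c' 0 = c 0
        rw [h.zero, h'.zero]
      smul_mem' := by
        intro s x (hx : _ = _)
        change c' (s • x) = c (s • x)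
        rw [h.smul, h'.smul, hx] }
  refine C.gen U ?_ ?_ x
  · rw [← heV, Submodule.span_le]
    rintro _ ⟨l, rfl⟩
    exact h5 l
  · intro φ hφ x hx
    change c' (φ x) = c (φ x)
    rw [h.comm φ hφ, h'.comm φ hφ, show c' x = c x from hx]

end Pool.Agent.H90.HR
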