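import Pool.Agent.H90.HR.DiagDefs
import Pool.Agent.H90.G.S8.Y103.HRWeil

/-!
# Nondegeneracy of the intersection form in low codimension
-/

open CategoryTheory AlgebraicGeometry

universe u v

namespace Pool.Agent.H90.HR

open Pool.Agent.H914 Pool.Agent.H914.VarClass Pool.Agent.H914.VarClass.Obj
  Pool.Agent.H914.WeilCohomology Pool.Agent.H281R3.HT Pool.Agent.W552 Pool.Agent.Y103

variable {k : Type u} [Field k] {𝒱 : VarClass k} {ops : CycleOps 𝒱}
  {W : WeilCohomology.{u, v} ops} {X : 𝒱.Obj} {D : X.Cycles}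

lemma ratSub_alg (W : WeilCohomology.{u, v} ops) (X : 𝒱.Obj) (j : ℕ) :
    RatSub W.K (fun x => x ∈ algClasses W X j) where
  zero := alg_zero j
  add := fun h1 h2 => alg_add h1 h2
  smul := fun q _ h => alg_smul q h

/-- The Lefschetz decomposition of algebraic classes. -/
lemma alg_dec (hD : X.IsCyc 1 D) (hA : LefschetzA W X D) {j : ℕ} (hj : 2 * (j + 1) ≤ X.dim)
    {x : W.H X} (hx : x ∈ algClasses W X (j + 1)) : ∃ b ∈ algClasses W X j,
      W.cl X D ^ (X.dim - 2 * (j + 1) + 1) * (x - W.cl X D * b) = 0 := by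
  obtain ⟨z, hz, rfl⟩ := hx
  have h1 : X.IsCyc (X.dim - j) (divPow ops D (X.dim - 2 * (j + 1) + 1) z) := by
    have := divPow_mem (ops := ops) hD (X.dim - 2 * (j + 1) + 1) hz
    rwa [show j + 1 + (X.dim - 2 * (j + 1) + 1) = X.dim - j by omega] at this
  obtain ⟨z', hz', h2⟩ := hA j (by omega) _ h1
  refine ⟨W.cl X z', ⟨z', hz', rfl⟩, ?_⟩
  rw [cl_divPow, cl_divPow, mulLeft_pow_apply', mulLeft_pow_apply'] at h2
  rw [mul_sub, ← h2, ← mul_assoc, ← pow_succ]
  rw [show X.dim - 2 * (j + 1) + 1 + 1 = X.dim - 2 * j by omega, sub_self]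

/-- The division by powers of the Lefschetz class. -/
lemma alg_div (hA : LefschetzA W X D) {j : ℕ} (hj : 2 * j ≤ X.dim)
    {x : W.H X} (hx : x ∈ algClasses W X (X.dim - j)) :
    ∃ b ∈ algClasses W X j, x = W.cl X D ^ (X.dim - 2 * j) * b := by
  obtain ⟨z, hz, rfl⟩ := hx
  obtain ⟨z', hz', h2⟩ := hA j hj z hz
  refine ⟨W.cl X z', ⟨z', hz', rfl⟩, ?_⟩
  rw [← h2, cl_divPow, mulLeft_pow_apply']

lemma xi_comm (hD : X.IsCyc 1 D) (y : W.H X) : W.cl X D * y = y * W.cl X D :=
  alg_even_comm (⟨D, hD, rfl⟩ : W.cl X D ∈ algClasses W X 1) y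

lemma xipow_comm (hD : X.IsCyc 1 D) (r : ℕ) (y : W.H X) :
    W.cl X D ^ r * y = y * W.cl X D ^ r := alg_even_comm (pow_alg hD r) y

/-- A primitive class is orthogonal to the multiples of the Lefschetz class. -/
lemma prim_orth' (hD : X.IsCyc 1 D) {r : ℕ} {x : W.H X} (hx : W.cl X D ^ (r + 1) * x = 0)
    (w : W.H X) : W.tr X (x * (W.cl X D * w) * W.cl X D ^ r) = 0 := by
  have h2 : x * (W.cl X D * w) * W.cl X D ^ r = W.cl X D ^ (r + 1) * x * w := by
    rw [mul_assoc x, mul_assoc (W.cl X D) w, ← xipow_comm hD r w, ← mul_assoc (W.cl X D),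
      ← pow_succ', ← mul_assoc, ← xipow_comm hD]
  rw [h2, hx, zero_mul, map_zero]

/-- Positivity for classes. -/
lemma hodge_alg (hD : X.IsCyc 1 D) {j : ℕ} (hj : 2 * j ≤ X.dim) (hH : HodgeTypeIn W X D j)
    {x : W.H X} (hx : x ∈ algClasses W X j) (hp : W.cl X D ^ (X.dim - 2 * j + 1) * x = 0)
    (h0 : x ≠ 0) :
    ∃ q : ℚ, 0 < q ∧ (-1 : W.K) ^ j * W.tr X (x * x * W.cl X D ^ (X.dim - 2 * j)) = q := by
  obtain ⟨z, hz, rfl⟩ := hx
  have h1 := hH z hz (by rw [cl_divPow, mulLeft_pow_apply']; exact hp) h0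
  refine ⟨_, h1, ?_⟩
  have h4 := deg_eq (W := W) hz (divPow_mem (ops := ops) hD (X.dim - 2 * j) hz) (by omega)
  rw [cl_divPow, mulLeft_pow_apply'] at h4
  have h5 : W.cl X z * W.cl X z * W.cl X D ^ (X.dim - 2 * j) =
      W.cl X z * (W.cl X D ^ (X.dim - 2 * j) * W.cl X z) := by
    rw [mul_assoc, W.even_comm (W.cl_mem hz) (W.cl X D ^ (X.dim - 2 * j))]
  rw [h5, h4]
  push_cast
  rfl

/-- The signed form. -/
noncomputable def bilW (W : WeilCohomology.{u, v} ops) (X : 𝒱.Obj) (e : W.H X) (s : W.K) :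
    W.H X →ₗ[W.K] W.H X →ₗ[W.K] W.K :=
  LinearMap.mk₂ W.K (fun x y => s * W.tr X (x * y * e))
    (by intro x x' y; rw [add_mul, add_mul, map_add, mul_add])
    (by intro a x y; rw [smul_mul_assoc, smul_mul_assoc, map_smul, smul_eq_mul, smul_eq_mul]; ring)
    (by intro x y y'; rw [mul_add, add_mul, map_add, mul_add])
    (by intro a x y; rw [mul_smul_comm, smul_mul_assoc, map_smul, smul_eq_mul, smul_eq_mul]; ring)

lemma bilW_apply (e : W.H X) (s : W.K) (x y : W.H X) :
    bilW W X e s x y = s * W.tr X (x * y * e) := rfl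

/-- The form is nondegenerate on primitive algebraic classes. -/
lemma nd_prim (hD : X.IsCyc 1 D) {j : ℕ} (hj : 2 * j ≤ X.dim)
    (hH : HodgeTypeIn W X D j) {y : W.H X} (hy : y ∈ Submodule.span W.K {x | x ∈ algClasses W X j ∧
      W.cl X D ^ (X.dim - 2 * j + 1) * x = 0})
    (h : ∀ z, (z ∈ algClasses W X j ∧ W.cl X D ^ (X.dim - 2 * j + 1) * z = 0) →
      W.tr X (z * y * W.cl X D ^ (X.dim - 2 * j)) = 0) : y = 0 := by
  set M : W.H X → Prop := fun x => x ∈ algClasses W X j ∧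
    W.cl X D ^ (X.dim - 2 * j + 1) * x = 0 with hM
  have hMr : RatSub W.K M :=
    { zero := ⟨alg_zero j, mul_zero _⟩
      add := fun {x y} hx hy => ⟨alg_add hx.1 hy.1, by rw [mul_add, hx.2, hy.2, add_zero]⟩
      smul := fun q {x} hx => ⟨alg_smul q hx.1, by rw [mul_smul_comm, hx.2, smul_zero]⟩ }
  have hrat : ∀ x y, M x → M y → ∃ q : ℚ,
      bilW W X (W.cl X D ^ (X.dim - 2 * j)) ((-1) ^ j) x y = q := by
    intro x y hx hy
    obtain ⟨q, hq⟩ := alg_rat (alg_mul hx.1 hy.1) (pow_alg (W := W) hD (X.dim - 2 * j))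
    rw [Pool.Agent.H914.bil_apply] at hq
    refine ⟨(-1) ^ j * q, ?_⟩
    rw [bilW_apply, hq]
    push_cast
    rfl
  obtain ⟨N, e, w, he, hw, horth, hspan⟩ := exists_ratBasis hMr
    (bilW W X (W.cl X D ^ (X.dim - 2 * j)) ((-1) ^ j)) hrat
    (by
      intro x y hx _
      rw [bilW_apply, bilW_apply, alg_even_comm hx.1])
    (by
      intro x hx hx0
      exact hodge_alg hD hj hH hx.1 hx.2 hx0)
  have h0 : ∀ k, bilW W X (W.cl X D ^ (X.dim - 2 * j)) ((-1) ^ j) y (e k) = 0 := by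
    intro k
    rw [bilW_apply, ← alg_even_comm (he k).1 y, h _ (he k), mul_zero]
  obtain ⟨r, hr⟩ := hspan y hy (fun k => ⟨0, by rw [h0 k, Rat.cast_zero]⟩)
  rw [hr]
  apply Finset.sum_eq_zero
  intro k _
  have h1 := h0 k
  rw [hr, map_sum, LinearMap.sum_apply, Finset.sum_eq_single k] at h1
  · rw [map_smul, LinearMap.smul_apply, horth, if_pos rfl, smul_eq_mul] at h1
    have h2 : (w k : W.K) ≠ 0 := by
      have := (hw k).ne'
      exact_mod_cast this
    rw [(mul_eq_zero.1 h1).resolve_right h2, zero_smul]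
  · intro l _ hl
    rw [map_smul, LinearMap.smul_apply, horth, if_neg hl, smul_zero]
  · intro h0; exact absurd (Finset.mem_univ _) h0

lemma prim_of_span {j r : ℕ} {y : W.H X} (hy : y ∈ Submodule.span W.K {x | x ∈ algClasses W X j ∧
      W.cl X D ^ r * x = 0}) : W.cl X D ^ r * y = 0 := by
  induction hy using Submodule.span_induction with
  | mem x hx => exact hx.2
  | zero => rw [mul_zero]
  | add x x' _ _ h1 h2 => rw [mul_add, h1, h2, add_zero]
  | smul s x _ h1 => rw [mul_smul_comm, h1, smul_zero]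

/-- The intersection form is nondegenerate on the span of the algebraic classes of low
codimension. -/
theorem nd_alg (hD : X.IsCyc 1 D) (hA : LefschetzA W X D) {m : ℕ}
    (hH : ∀ j ≤ m, 2 * j ≤ X.dim → HodgeTypeIn W X D j) {j : ℕ} (hjm : j ≤ m)
    (hj : 2 * j ≤ X.dim) {y : W.H X} (hy : y ∈ Submodule.span W.K (algClasses W X j))
    (h : ∀ z ∈ algClasses W X j, W.tr X (z * y * W.cl X D ^ (X.dim - 2 * j)) = 0) : y = 0 := by
  induction j generalizing y with
  | zero =>
    refine nd_prim hD hj (hH 0 hjm hj) ?_ (fun z hz => h z hz.1)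
    refine Submodule.span_mono ?_ hy
    intro x hx
    refine ⟨hx, ?_⟩
    have h1 := alg_gr (alg_mul (pow_alg (W := W) hD (X.dim - 2 * 0 + 1)) hx)
    rw [W.gr_eq_bot X _ (by omega)] at h1
    exact (Submodule.mem_bot _).1 h1
  | succ j ih =>
    have key : ∀ x ∈ Submodule.span W.K (algClasses W X (j + 1)),
        ∃ x₀ ∈ Submodule.span W.K {x | x ∈ algClasses W X (j + 1) ∧
          W.cl X D ^ (X.dim - 2 * (j + 1) + 1) * x = 0},
        ∃ b ∈ Submodule.span W.K (algClasses W X j), x = x₀ + W.cl X D * b := by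
      intro x hx
      induction hx using Submodule.span_induction with
      | mem x hx =>
        obtain ⟨b, hb, h1⟩ := alg_dec hD hA hj hx
        refine ⟨x - W.cl X D * b, Submodule.subset_span ⟨?_, h1⟩, b, Submodule.subset_span hb, by
          abel⟩
        have h2 := alg_mul (⟨D, hD, rfl⟩ : W.cl X D ∈ algClasses W X 1) hb
        rw [add_comm 1 j] at h2
        exact alg_sub hx h2
      | zero => exact ⟨0, Submodule.zero_mem _, 0, Submodule.zero_mem _, by simp⟩
      | add x x' _ _ h1 h2 =>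
        obtain ⟨x₀, h1, b, hb, rfl⟩ := h1
        obtain ⟨x₁, h2, b', hb', rfl⟩ := h2
        exact ⟨x₀ + x₁, Submodule.add_mem _ h1 h2, b + b', Submodule.add_mem _ hb hb', by
          rw [mul_add]; abel⟩
      | smul s x _ h1 =>
        obtain ⟨x₀, h1, b, hb, rfl⟩ := h1
        exact ⟨s • x₀, Submodule.smul_mem _ _ h1, s • b, Submodule.smul_mem _ _ hb, by
          rw [smul_add, mul_smul_comm]⟩
    obtain ⟨y₀, hy₀, b, hb, rfl⟩ := key y hy
    have hprim := prim_of_span hy₀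
    have hb0 : b = 0 := by
      apply ih (by omega) (by omega) hb
      intro z hz
      have h2 := alg_mul (⟨D, hD, rfl⟩ : W.cl X D ∈ algClasses W X 1) hz
      rw [add_comm 1 j] at h2
      have h3 := h _ h2
      have h4 : W.tr X (W.cl X D * z * y₀ * W.cl X D ^ (X.dim - 2 * (j + 1))) = 0 := by
        have h5 : W.cl X D * z * y₀ = y₀ * (W.cl X D * z) := by
          exact alg_even_comm h2 y₀
        rw [h5]
        exact prim_orth' hD hprim z
      rw [mul_add, add_mul, map_add, h4, zero_add] at h3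
      rw [← h3]
      congr 1
      have h6 : X.dim - 2 * j = (X.dim - 2 * (j + 1)) + 1 + 1 := by omega
      rw [h6, pow_succ, pow_succ]
      calc z * b * (W.cl X D ^ (X.dim - 2 * (j + 1)) * W.cl X D * W.cl X D)
          = z * (b * (W.cl X D * W.cl X D)) * W.cl X D ^ (X.dim - 2 * (j + 1)) := by
            rw [mul_assoc (W.cl X D ^ _) (W.cl X D), xipow_comm hD _ (W.cl X D * W.cl X D)]
            simp only [mul_assoc]
        _ = W.cl X D * z * (W.cl X D * b) * W.cl X D ^ (X.dim - 2 * (j + 1)) := by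
            congr 1
            rw [xi_comm hD z, ← mul_assoc b, ← xi_comm hD b, ← xi_comm hD (W.cl X D * b)]
            simp only [mul_assoc]
    subst hb0
    rw [mul_zero, add_zero] at h hy ⊢
    exact nd_prim hD hj (hH (j + 1) hjm hj) hy₀ (fun z hz => h z hz.1)

end Pool.Agent.H90.HR
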