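import Pool.Agent.H90.HR.Mid

/-!
# The midpoint of two admissible antilinear maps
-/

open ComplexConjugate Module

namespace Pool.Agent.H90.HR

open Pool.Agent.Y103 (PosHerm)

variable {A : Type*} [AddCommGroup A] [Module ℂ A] {C : Ctx A}

/-- If a space is spanned by eigenvectors with eigenvalues in a set, all eigenvalues belong to it. -/
theorem eig_mem (g : A →ₗ[ℂ] A) (s : Set ℂ)
    (hs : ∀ x : A, x ∈ Submodule.span ℂ {v | ∃ μ ∈ s, g v = μ • v}) {v : A} (hv : v ≠ 0)
    {l : ℂ} (h : g v = l • v) : l ∈ s := by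
  by_contra hl
  have hind := (Module.End.eigenspaces_iSupIndep g) l
  have htop : (⊤ : Submodule ℂ A) ≤ ⨆ k, ⨆ (_ : k ≠ l), Module.End.eigenspace g k := by
    intro x _
    refine (Submodule.span_le.2 ?_) (hs x)
    rintro w ⟨μ, hμ, hw⟩
    have hne : μ ≠ l := fun h0 => hl (h0 ▸ hμ)
    have h1 : Module.End.eigenspace g μ ≤
        ⨆ k, ⨆ (_ : k ≠ l), Module.End.eigenspace g k :=
      le_iSup₂_of_le μ hne le_rfl
    exact h1 (Module.End.mem_eigenspace_iff.2 hw)
  have h2 : Module.End.eigenspace g l = ⊥ := by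
    have h3 := hind.mono_right htop
    exact disjoint_top.1 h3
  have h4 : v ∈ Module.End.eigenspace g l := Module.End.mem_eigenspace_iff.2 h
  rw [h2] at h4
  exact hv ((Submodule.mem_bot ℂ).1 h4)

/-- A polynomial with prescribed values. -/
lemma exists_poly (s : Finset ℂ) (r : ℂ → ℂ) : ∃ q : Polynomial ℂ, ∀ x ∈ s, q.eval x = r x := by
  classical
  refine ⟨Lagrange.interpolate s id r, fun x hx => ?_⟩
  exact Lagrange.eval_interpolate_at_node r (Set.injOn_id _) hx

lemma aeval_eig (g : A →ₗ[ℂ] A) (q : Polynomial ℂ) {l : ℂ} {x : A} (h : g x = l • x) :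
    (Polynomial.aeval g q) x = q.eval l • x := by
  induction q using Polynomial.induction_on' with
  | add p q hp hq => rw [map_add, LinearMap.add_apply, hp, hq, Polynomial.eval_add, add_smul]
  | monomial n a =>
    rw [Polynomial.aeval_monomial, Polynomial.eval_monomial, Module.End.mul_apply,
      Module.algebraMap_end_apply, mul_smul]
    congr 1
    induction n with
    | zero => rw [pow_zero, pow_zero, one_smul, Module.End.one_apply]
    | succ n ih => rw [pow_succ', Module.End.mul_apply, ih, map_smul, h, smul_smul, pow_succ]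

/-- A root of the operator `c⁻¹ c'`: it multiplies the eigenvectors by the square roots of the
eigenvalues. -/
lemma exists_root [FiniteDimensional ℂ A] {c c' : A → A} (h : Adm C c) (h' : Adm C c') :
    ∃ (r : A →ₗ[ℂ] A),
      (∀ x : A, x ∈ Submodule.span ℂ {v | ∃ μ : ℝ, 0 < μ ∧ h.vv h' v = (μ : ℂ) • v}) ∧
      ∀ (l : ℝ) (x : A), h.vv h' x = (l : ℂ) • x → r x = (Real.sqrt l : ℂ) • x := by
  classical
  obtain ⟨b, μ, hb, -, hμ⟩ := h.exists_basis h'
  set s : Finset ℂ := Finset.univ.image (fun i => ((μ i : ℝ) : ℂ)) with hs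
  obtain ⟨q, hq⟩ := exists_poly s (fun z => ((Real.sqrt z.re : ℝ) : ℂ))
  have hspan : ∀ x : A, x ∈ Submodule.span ℂ {v | ∃ m ∈ (s : Set ℂ), h.vv h' v = m • v} := by
    apply C.gen
    · intro x hx
      have h1 := b.sum_repr ⟨x, hx⟩
      have h2 : x = ∑ i, b.repr ⟨x, hx⟩ i • (b i : A) := by
        have := congrArg Subtype.val h1.symm
        rwa [AddSubmonoidClass.coe_finsetSum] at this
      rw [h2]
      refine Submodule.sum_mem _ (fun i _ => Submodule.smul_mem _ _ (Submodule.subset_span ?_))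
      exact ⟨(μ i : ℂ), by rw [hs]; simp, hb i⟩
    · intro φ hφ x hx
      induction hx using Submodule.span_induction with
      | mem x hx =>
        obtain ⟨m, hm, hx⟩ := hx
        apply Submodule.subset_span
        exact ⟨m, hm, by rw [h.vv_comm h' hφ, hx, map_smul]⟩
      | zero => rw [map_zero]; exact Submodule.zero_mem _
      | add x y _ _ h1 h2 => rw [map_add]; exact Submodule.add_mem _ h1 h2
      | smul a x _ h1 => rw [map_smul]; exact Submodule.smul_mem _ _ h1
  refine ⟨Polynomial.aeval (h.vv h') q, ?_, ?_⟩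
  · intro x
    refine Submodule.span_mono ?_ (hspan x)
    rintro v ⟨m, hm, hv⟩
    rw [hs] at hm
    simp only [Finset.coe_image, Finset.coe_univ, Set.image_univ, Set.mem_range] at hm
    obtain ⟨i, rfl⟩ := hm
    exact ⟨μ i, hμ i, hv⟩
  · intro l x hx
    by_cases hx0 : x = 0
    · rw [hx0, map_zero, smul_zero]
    · have hl := eig_mem _ _ hspan hx0 hx
      rw [aeval_eig _ _ hx, hq _ hl, Complex.ofReal_re]

/-- Induction on the span of the eigenvectors. -/
lemma span_eig_ind {g : A →ₗ[ℂ] A}
    (hs : ∀ x : A, x ∈ Submodule.span ℂ {v | ∃ μ : ℝ, 0 < μ ∧ g v = (μ : ℂ) • v}) {p : A → Prop}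
    (h0 : p 0) (hadd : ∀ x y, p x → p y → p (x + y)) (hsmul : ∀ (a : ℂ) x, p x → p (a • x))
    (he : ∀ (μ : ℝ) x, 0 < μ → g x = (μ : ℂ) • x → p x) (x : A) : p x := by
  refine Submodule.span_induction (p := fun x _ => p x) ?_ h0 (fun x y _ _ h1 h2 => hadd x y h1 h2)
    (fun a x _ h1 => hsmul a x h1) (hs x)
  rintro v ⟨μ, hμ, hv⟩
  exact he μ v hμ hv

/-- **The midpoint.** -/
theorem exists_mid [FiniteDimensional ℂ A] {c c' : A → A} (h : Adm C c) (h' : Adm C c') :
    ∃ m : A → A, Adm C m ∧ (∀ x ∈ C.V, 2 * (C.S x (m x)).re ≤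
      (C.S x (c x)).re + (C.S x (c' x)).re) ∧
      ∀ x ∈ C.V, 2 * (C.S x (m x)).re = (C.S x (c x)).re + (C.S x (c' x)).re → c' x = c x := by
  classical
  obtain ⟨r, hs, hr⟩ := exists_root h h'
  obtain ⟨b, μ, hb, hb1, hμ⟩ := h.exists_basis h'
  have hrb : ∀ i, r (b i : A) = ((Real.sqrt (μ i) : ℝ) : ℂ) • (b i : A) := fun i => hr _ _ (hb i)
  -- the root is multiplicative and commutes with the operators
  have hrmul : ∀ x y, r (C.mul x y) = C.mul (r x) (r y) := by
    intro x y
    refine span_eig_ind hs (p := fun x => r (C.mul x y) = C.mul (r x) (r y)) ?_ ?_ ?_ ?_ x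
    · simp
    · intro x x' h1 h2
      simp only [map_add, LinearMap.add_apply, h1, h2]
    · intro a x h1
      simp only [map_smul, LinearMap.smul_apply, h1]
    · intro l x hl hx
      refine span_eig_ind hs (p := fun y => r (C.mul x y) = C.mul (r x) (r y)) ?_ ?_ ?_ ?_ y
      · simp
      · intro y y' h1 h2
        simp only [map_add, h1, h2]
      · intro a y h1
        simp only [map_smul, h1]
      · intro k y hk hy
        have h1 : h.vv h' (C.mul x y) = ((l * k : ℝ) : ℂ) • C.mul x y := by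
          rw [h.vv_mul h', hx, hy, map_smul, map_smul, LinearMap.smul_apply, smul_smul, mul_comm]
          push_cast
          rfl
        rw [hr _ _ h1, hr _ _ hx, hr _ _ hy, map_smul, map_smul, LinearMap.smul_apply, smul_smul,
          Real.sqrt_mul hl.le, mul_comm]
        push_cast
        rfl
  have hrcomm : ∀ φ ∈ C.Φ, ∀ x, r (φ x) = φ (r x) := by
    intro φ hφ x
    refine span_eig_ind hs (p := fun x => r (φ x) = φ (r x)) ?_ ?_ ?_ ?_ x
    · simp
    · intro x x' h1 h2
      simp only [map_add, h1, h2]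
    · intro a x h1
      simp only [map_smul, h1]
    · intro l x hl hx
      have h1 : h.vv h' (φ x) = (l : ℂ) • φ x := by rw [h.vv_comm h' hφ, hx, map_smul]
      rw [hr _ _ h1, hr _ _ hx, map_smul]
  have hrfix : ∀ z ∈ C.Z, r z = z := by
    intro z hz
    have h1 : h.vv h' z = ((1 : ℝ) : ℂ) • z := by
      rw [h.vv_fix h' hz, Complex.ofReal_one, one_smul]
    rw [hr _ _ h1, Real.sqrt_one, Complex.ofReal_one, one_smul]
  have hrV : ∀ x ∈ C.V, r x ∈ C.V := by
    intro x hx
    have h1 := b.sum_repr ⟨x, hx⟩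
    have h2 : x = ∑ i, b.repr ⟨x, hx⟩ i • (b i : A) := by
      have := congrArg Subtype.val h1.symm
      rwa [AddSubmonoidClass.coe_finsetSum] at this
    rw [h2, map_sum]
    refine Submodule.sum_mem _ (fun i _ => ?_)
    rw [map_smul, hrb]
    exact Submodule.smul_mem _ _ (Submodule.smul_mem _ _ (b i).2)
  -- the form
  have hexp : ∀ x y : C.V, C.S (x : A) (c (r y)) =
      ∑ i, b.repr x i * conj (b.repr y i) * Real.sqrt (μ i) := fun x y =>
    h.expand b hb1 r _ hrb x y
  have hexpv : ∀ x y : C.V, C.S (x : A) (c' y) =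
      ∑ i, b.repr x i * conj (b.repr y i) * μ i := fun x y => by
    rw [← h.form_vv h']
    exact h.expand b hb1 _ _ hb x y
  have hexp1 : ∀ x y : C.V, C.S (x : A) (c y) =
      ∑ i, b.repr x i * conj (b.repr y i) * (1 : ℝ) := fun x y =>
    h.expand b hb1 LinearMap.id (fun _ => 1) (fun i => by
      rw [LinearMap.id_apply, Complex.ofReal_one, one_smul]) x y
  have hre : ∀ (w : Fin (finrank ℂ C.V) → ℝ) (x : C.V),
      (∑ i, b.repr x i * conj (b.repr x i) * (w i : ℂ)).re =
        ∑ i, Complex.normSq (b.repr x i) * w i := by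
    intro w x
    rw [Complex.re_sum]
    apply Finset.sum_congr rfl
    intro i _
    rw [Complex.mul_conj, ← Complex.ofReal_mul, Complex.ofReal_re]
  have hval : ∀ x : C.V, (C.S (x : A) (c (r x))).re =
      ∑ i, Complex.normSq (b.repr x i) * Real.sqrt (μ i) := fun x => by rw [hexp, hre]
  have hvalv : ∀ x : C.V, (C.S (x : A) (c' x)).re =
      ∑ i, Complex.normSq (b.repr x i) * μ i := fun x => by rw [hexpv, hre]
  have hval1 : ∀ x : C.V, (C.S (x : A) (c x)).re =
      ∑ i, Complex.normSq (b.repr x i) * 1 := fun x => by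
        rw [hexp1]; exact hre (fun _ => 1) x
  have hdiff : ∀ x : C.V, (C.S (x : A) (c x)).re + (C.S (x : A) (c' x)).re
      - 2 * (C.S (x : A) (c (r x))).re =
        ∑ i, Complex.normSq (b.repr x i) * (1 - Real.sqrt (μ i)) ^ 2 := by
    intro x
    rw [hval, hvalv, hval1, ← Finset.sum_add_distrib, Finset.mul_sum, ← Finset.sum_sub_distrib]
    apply Finset.sum_congr rfl
    intro i _
    have h1 : Real.sqrt (μ i) ^ 2 = μ i := Real.sq_sqrt (hμ i).le
    linear_combination (-(Complex.normSq (b.repr x i))) * h1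
  refine ⟨fun x => c (r x), ?_, ?_, ?_⟩
  · refine
    { add := fun x y => by rw [map_add, h.add]
      smul := fun a x => by rw [map_smul, h.smul]
      mul := fun x y => by rw [hrmul, h.mul]
      comm := fun φ hφ x => by rw [hrcomm φ hφ, h.comm φ hφ]
      fix := fun z hz => by rw [hrfix z hz, h.fix z hz]
      sq := ?_
      mem := fun x hx => h.mem _ (hrV x hx)
      herm := ?_
      pos := ?_ }
    · intro x
      refine span_eig_ind hs (p := fun x => c (r (c (r x))) = C.σ x) ?_ ?_ ?_ ?_ x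
      · simp only [map_zero, h.zero]
      · intro x y h1 h2
        simp only [map_add, h.add, h1, h2]
      · intro a x h1
        simp only [map_smul, h.smul, Complex.conj_conj, h1]
      · intro l x hl hx
        have h1 : h.vv h' (c x) = ((l⁻¹ : ℝ) : ℂ) • c x := by
          rw [h.vv_c h']
          have h2 : h'.vv h x = ((l⁻¹ : ℝ) : ℂ) • x := by
            have h3 := h.vv_vv h' x
            rw [hx, map_smul] at h3
            have h4 : ((l : ℝ) : ℂ) ≠ 0 := by exact_mod_cast hl.ne'
            rw [Complex.ofReal_inv, eq_inv_smul_iff₀ h4]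
            exact h3
          rw [h2, h.smul, Complex.conj_ofReal]
        rw [hr _ _ hx, h.smul, Complex.conj_ofReal, map_smul, hr _ _ h1, smul_smul,
          ← Complex.ofReal_mul, ← Real.sqrt_mul hl.le, mul_inv_cancel₀ hl.ne', Real.sqrt_one,
          Complex.ofReal_one, one_smul, h.sq]
    · intro x hx y hy
      change C.S y (c (r x)) = conj (C.S x (c (r y)))
      rw [hexp ⟨y, hy⟩ ⟨x, hx⟩, hexp ⟨x, hx⟩ ⟨y, hy⟩, map_sum]
      apply Finset.sum_congr rfl
      intro i _
      rw [map_mul, map_mul, Complex.conj_conj, Complex.conj_ofReal]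
      ring
    · intro x hx hx0
      rw [hval ⟨x, hx⟩]
      have hx1 : (⟨x, hx⟩ : C.V) ≠ 0 := fun h0 => hx0 (congrArg Subtype.val h0)
      obtain ⟨i, hi⟩ : ∃ i, b.repr ⟨x, hx⟩ i ≠ 0 := by
        by_contra h0
        push Not at h0
        apply hx1
        apply b.repr.injective
        ext i
        rw [h0 i, map_zero, Finsupp.zero_apply]
      apply Finset.sum_pos'
      · intro i _
        exact mul_nonneg (Complex.normSq_nonneg _) (Real.sqrt_nonneg _)
      · exact ⟨i, Finset.mem_univ _, mul_pos (Complex.normSq_pos.2 hi) (Real.sqrt_pos.2 (hμ i))⟩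
  · intro x hx
    have h1 := hdiff ⟨x, hx⟩
    have h2 : 0 ≤ ∑ i, Complex.normSq (b.repr ⟨x, hx⟩ i) * (1 - Real.sqrt (μ i)) ^ 2 :=
      Finset.sum_nonneg (fun i _ => mul_nonneg (Complex.normSq_nonneg _) (sq_nonneg _))
    rw [← h1] at h2
    change 2 * (C.S x (c (r x))).re ≤ _
    linarith
  · intro x hx hEq
    change 2 * (C.S x (c (r x))).re = _ at hEq
    have h1 := hdiff ⟨x, hx⟩
    change (C.S x (c x)).re + (C.S x (c' x)).re - 2 * (C.S x (c (r x))).re = _ at h1
    rw [hEq, sub_self] at h1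
    have h2 := (Finset.sum_eq_zero_iff_of_nonneg (fun i _ => mul_nonneg
      (Complex.normSq_nonneg _) (sq_nonneg _))).1 h1.symm
    have h3 : h.vv h' x = x := by
      have h4 : x = ∑ i, b.repr ⟨x, hx⟩ i • (b i : A) := by
        have := congrArg Subtype.val (b.sum_repr ⟨x, hx⟩).symm
        rwa [AddSubmonoidClass.coe_finsetSum] at this
      conv_lhs => rw [h4]
      conv_rhs => rw [h4]
      rw [map_sum]
      apply Finset.sum_congr rfl
      intro i _
      rw [map_smul, hb]
      rcases mul_eq_zero.1 (h2 i (Finset.mem_univ _)) with h5 | h5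
      · rw [Complex.normSq_eq_zero.1 h5, zero_smul, zero_smul]
      · have h6 : Real.sqrt (μ i) = 1 := by
          have := pow_eq_zero_iff (two_ne_zero) |>.1 h5
          linarith
        have h7 : μ i = 1 := by
          rw [← Real.sq_sqrt (hμ i).le, h6, one_pow]
        rw [h7, Complex.ofReal_one, one_smul]
    rw [← h.c_vv h', h3]

end Pool.Agent.H90.HR
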