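import Pool.Agent.H90.HR.Kill

/-!
# Involutions commuting with Frobenius on a diagram of varieties
-/

open CategoryTheory AlgebraicGeometry Module ComplexConjugate Polynomial

universe u v

namespace Pool.Agent.H90.HR

open Pool.Agent.H914 Pool.Agent.H914.VarClass Pool.Agent.H914.VarClass.Obj
  Pool.Agent.H914.WeilCohomology Pool.Agent.H281R3.HT Pool.Agent.W552 Pool.Agent.Y103

variable {k : Type u} [Field k] {𝒱 : VarClass k} {ops : CycleOps 𝒱}
  {W : WeilCohomology.{u, v} ops}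

/-- The Riemann hypothesis in terms of eigenvectors. -/
lemma rh_eig (ι : W.K ≃+* ℂ) {X : 𝒱.Obj} {f : X ⟶ X} {q : ℕ} (h : RiemannHypothesis W X f q)
    {i : ℕ} {a : W.H X} (ha : a ∈ W.gr X i) (h0 : a ≠ 0) {l : W.K} (hl : W.map f a = l • a) :
    ‖ι l‖ ^ 2 = (q : ℝ) ^ i := by
  obtain ⟨P, -, h1, h2⟩ := h i
  apply h2
  have h3 := h1 a ha
  have h4 : Module.End.HasEigenvector (W.map f).toLinearMap l a :=
    ⟨Module.End.mem_eigenspace_iff.2 hl, h0⟩
  rw [Module.End.aeval_apply_of_hasEigenvector h4] at h3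
  have h5 := (smul_eq_zero.1 h3).resolve_right h0
  rw [Polynomial.eval_map_algebraMap] at h5
  have h6 := congrArg ι h5
  rw [map_zero] at h6
  have h7 := Polynomial.hom_eval₂ P (algebraMap ℚ W.K) (ι : W.K →+* ℂ) l
  have h8 : (ι : W.K →+* ℂ).comp (algebraMap ℚ W.K) = algebraMap ℚ ℂ := Subsingleton.elim _ _
  rw [h8] at h7
  rw [Polynomial.aeval_def] at h6 ⊢
  exact h7.symm.trans h6

/-- The data of the proof. -/
structure Setup (W : WeilCohomology.{u, v} ops) [IsAlgClosed W.K] (ι : W.K ≃+* ℂ)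
    (𝓓 : Diagram 𝒱) (q : ℕ) (F : ∀ i, 𝓓.Hom i i) {G : Type} (g : G → ∀ i, 𝓓.Hom i i)
    (m : 𝓓.J → ℕ) (c : ∀ i, W.H (𝓓.X i) → W.H (𝓓.X i)) : Prop where
  hD : ∀ i, (𝓓.X i).IsCyc 1 (𝓓.D i)
  hZ : ∀ i r, ∀ z ∈ 𝓓.Z i r, (𝓓.X i).IsCyc r z
  hHL : ∀ i, HardLef (W.gr (𝓓.X i)) (𝓓.X i).dim (LinearMap.mulLeft W.K (W.cl (𝓓.X i) (𝓓.D i)))
  hA : ∀ i, LefschetzA W (𝓓.X i) (𝓓.D i)
  hF : FrobData W 𝓓 q F
  hH : ∀ i, ∀ j ≤ m i, 2 * j ≤ (𝓓.X i).dim → HodgeTypeIn W (𝓓.X i) (𝓓.D i) j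
  hT : ∀ i, ∀ j ≤ m i, 2 * j ≤ (𝓓.X i).dim → TateConj W (𝓓.X i) (F i) q j
  fhr : ∀ i, FullHR (W.gr (𝓓.X i)) (𝓓.X i).dim (W.tr (𝓓.X i)) (W.cl (𝓓.X i) (𝓓.D i)) ι (c i)
  maps : ∀ i j, ∀ f ∈ 𝓓.M i j, ∀ a, c i (W.map f a) = W.map f (c j a)
  fix : ∀ i r, ∀ z ∈ 𝓓.Z i r, c i (W.cl (𝓓.X i) z) = W.cl (𝓓.X i) z
  comm : ∀ i a, c i (fn (W.map (F i)).toLinearMap (uni ι) a) =
    fn (W.map (F i)).toLinearMap (uni ι) (c i a)
  sym : ∀ a i x, c i (W.map (g a i) x) = W.map (g a i) (c i x)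

lemma real_tr {X : 𝒱.Obj} {D : X.Cycles} (hD : X.IsCyc 1 D) (ι : W.K ≃+* ℂ) :
    conj (ι (W.tr X (W.cl X D ^ X.dim))) = ι (W.tr X (W.cl X D ^ X.dim)) := by
  obtain ⟨q, hq⟩ := alg_rat (pow_alg (W := W) hD X.dim) (alg_one (W := W) (X := X))
  rw [Pool.Agent.H914.bil_apply, mul_one] at hq
  rw [hq, map_ratCast, map_ratCast (starRingEnd ℂ)]

namespace Setup

variable [IsAlgClosed W.K] {ι : W.K ≃+* ℂ} {𝓓 : Diagram 𝒱} {q : ℕ} {F : ∀ i, 𝓓.Hom i i}
  {G : Type} {g : G → ∀ i, 𝓓.Hom i i} {m : 𝓓.J → ℕ} {c : ∀ i, W.H (𝓓.X i) → W.H (𝓓.X i)} (S : Setup W ι 𝓓 q F g m c)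

include S

lemma tr_c (i : 𝓓.J) (a : W.H (𝓓.X i)) :
    ι (W.tr (𝓓.X i) (c i a)) = conj (ι (W.tr (𝓓.X i) a)) :=
  (S.fhr i).tr_c (W.isPoincareAlgebra _) (S.hHL i) (real_tr (S.hD i) ι) a

lemma c_surj (i : 𝓓.J) (a : W.H (𝓓.X i)) : ∃ b, c i b = a := by
  refine gr_induction (W.isInternal (𝓓.X i)) (p := fun a => ∃ b, c i b = a) ?_ ?_ a
  · intro k a ha
    refine ⟨(-1 : W.K) ^ k • c i a, ?_⟩
    rw [(S.fhr i).smul, (S.fhr i).invol k a ha, smul_smul, map_pow, map_neg, map_one, map_pow,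
      map_neg, map_one, map_pow, map_neg, map_one, ← pow_add, ← two_mul, pow_mul]
    simp
  · rintro a b ⟨a', rfl⟩ ⟨b', rfl⟩
    exact ⟨a' + b', (S.fhr i).add _ _⟩

/-- The involutions commute with push-forwards if they commute with pull-backs. -/
lemma c_push {i j : 𝓓.J} {f : 𝓓.X i ⟶ 𝓓.X j}
    (hf : ∀ a, c i (W.map f a) = W.map f (c j a)) (a : W.H (𝓓.X i)) :
    c j (W.push f a) = W.push f (c i a) := by
  rw [← sub_eq_zero]
  apply W.nondeg
  intro b
  obtain ⟨b, rfl⟩ := S.c_surj j b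
  apply ι.injective
  rw [sub_mul, map_sub, map_sub, ← (S.fhr j).mul, S.tr_c, W.tr_push, W.tr_push, ← hf,
    ← (S.fhr i).mul, S.tr_c, sub_self, map_zero]

/-- A semisimple Frobenius endomorphism is a scalar multiple of its unimodular part in each
degree. -/
lemma frob_uni {i : 𝓓.J} (hE : EigenSpan (W.map (F i)).toLinearMap) {k : ℕ}
    {a : W.H (𝓓.X i)} (ha : a ∈ W.gr (𝓓.X i) k) :
    W.map (F i) a = ι.symm ((Real.sqrt ((q : ℝ) ^ k) : ℝ) : ℂ) •
      fn (W.map (F i)).toLinearMap (uni ι) a := by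
  have hproj : ∀ k (a : W.H (𝓓.X i)), proj (W.isInternal (𝓓.X i)) k (W.map (F i) a) =
      W.map (F i) (proj (W.isInternal (𝓓.X i)) k a) := by
    intro k a
    refine gr_induction (W.isInternal (𝓓.X i)) (p := fun a =>
      proj (W.isInternal (𝓓.X i)) k (W.map (F i) a) =
      W.map (F i) (proj (W.isInternal (𝓓.X i)) k a)) ?_ ?_ a
    · intro l a ha
      by_cases h : l = k
      · subst h
        rw [proj_same _ ha, proj_same _ (W.map_mem _ ha)]
      · rw [proj_ne _ ha h, proj_ne _ (W.map_mem _ ha) h, map_zero]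
    · intro a b h1 h2
      rw [map_add, map_add, h1, h2, map_add, map_add]
  have key : ∀ a : W.H (𝓓.X i), W.map (F i) (proj (W.isInternal (𝓓.X i)) k a) =
      ι.symm ((Real.sqrt ((q : ℝ) ^ k) : ℝ) : ℂ) •
        fn (W.map (F i)).toLinearMap (uni ι) (proj (W.isInternal (𝓓.X i)) k a) := by
    intro a
    have ha : a ∈ Submodule.span W.K {y | ∃ α : W.K, (W.map (F i)).toLinearMap y = α • y} := by
      rw [hE]; trivial
    induction ha using Submodule.span_induction with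
    | mem a ha =>
      obtain ⟨l, hl⟩ := ha
      have hl' : W.map (F i) a = l • a := hl
      have h1 : W.map (F i) (proj (W.isInternal (𝓓.X i)) k a) =
          l • proj (W.isInternal (𝓓.X i)) k a := by
        rw [← hproj, hl', map_smul]
      by_cases h0 : proj (W.isInternal (𝓓.X i)) k a = 0
      · rw [h0, map_zero, map_zero, smul_zero]
      · have h2 := rh_eig ι (S.hF.rh i) (proj_mem _ k a) h0 h1
        have h3 : fn (W.map (F i)).toLinearMap (uni ι) (proj (W.isInternal (𝓓.X i)) k a) =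
            uni ι l • proj (W.isInternal (𝓓.X i)) k a :=
          fn_apply _ _ (Module.End.eigenspace_le_maxGenEigenspace
            (Module.End.mem_eigenspace_iff.2 h1))
        rw [h1, h3, smul_smul]
        congr 1
        apply ι.injective
        rw [← h2, Real.sqrt_sq (norm_nonneg _), map_mul, ι.apply_symm_apply]
        unfold uni
        rw [ι.apply_symm_apply, mul_div_cancel₀]
        intro h4
        have h5 : ‖ι l‖ = 0 := by exact_mod_cast h4
        rw [h5] at h2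
        have h6 : (0 : ℝ) < (q : ℝ) ^ k := pow_pos (by exact_mod_cast S.hF.pos) k
        rw [← h2] at h6
        simp at h6
    | zero => simp
    | add x y _ _ h1 h2 => rw [map_add, map_add, h1, h2, map_add, smul_add]
    | smul t x _ h1 => rw [map_smul, map_smul, h1, map_smul, smul_comm]
  have h1 := key a
  rwa [proj_same _ ha] at h1

/-- The involutions commute with the pull-backs by the good morphisms. -/
theorem c_map {i j : 𝓓.J} {f : 𝓓.X i ⟶ 𝓓.X j} (hf : GoodMor W 𝓓 F g i j f) (a : W.H (𝓓.X j)) :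
    c i (W.map f a) = W.map f (c j a) := by
  induction hf with
  | lifted h => exact S.maps _ _ _ h a
  | id i => rw [W.map_id, W.map_id]
  | comp _ _ h1 h2 => rw [W.map_comp, W.map_comp, h1, h2]
  | frob i hE =>
    refine gr_induction (W.isInternal (𝓓.X i)) (p := fun a =>
      c i (W.map (F i) a) = W.map (F i) (c i a)) ?_ ?_ a
    · intro k a ha
      rw [S.frob_uni hE ha, S.frob_uni hE ((S.fhr i).deg k a ha), (S.fhr i).smul, S.comm,
        ι.apply_symm_apply, Complex.conj_ofReal]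
    · intro a b h1 h2
      rw [map_add, (S.fhr i).add, h1, h2, (S.fhr i).add, map_add]
  | sym b i => exact S.sym b i a
  | @prod t l i j f a' b' _ _ hK _ _ h1 h2 h3 h4 =>
    obtain ⟨y, rfl⟩ := hK.2 a
    induction y using TensorProduct.induction_on with
    | zero => rw [map_zero, map_zero, (S.fhr _).zero, (S.fhr _).zero, map_zero]
    | tmul x y =>
      have e : kunnethMap (W.map a') (W.map b') (x ⊗ₜ[W.K] y) = W.map a' x * W.map b' y := rfl
      rw [e, map_mul, (S.fhr _).mul, (S.fhr _).mul, map_mul, ← W.map_comp, ← W.map_comp, h3, h4,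
        h1, h2, ← W.map_comp, ← W.map_comp]
    | add x y h1 h2 =>
      rw [map_add, map_add, (S.fhr _).add, h1, h2, (S.fhr _).add, map_add]

end Setup

end Pool.Agent.H90.HR
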