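import Pool.Agent.H90.HR.FullDefs
import Pool.Agent.H90.G.S8.H914R2.HodgeDefs
import Pool.Agent.H90.G.S8.W552.TautStmt
import Pool.Agent.H90.G.S8.Y103.HRDefs

/-!
# Diagrams of varieties which lift to characteristic zero: the definitions of the statement
-/

open CategoryTheory AlgebraicGeometry

universe u v

namespace Pool.Agent.H90.HR

open Pool.Agent.H914 Pool.Agent.H914.VarClass Pool.Agent.H914.VarClass.Obj
  Pool.Agent.H914.WeilCohomology Pool.Agent.W552

section Abs

variable {K : Type*} [Field K] {A : Type*} [Ring A] [Algebra K A]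

/-- The endomorphism `T` multiplies `x` by `n`. -/
def MulBy (T : A →ₐ[K] A) (n : ℕ) (x : A) : Prop := T x = (n : K) • x

/-- The Tate classes of degree `2 r` for the endomorphism `T`, relative to `q`: some power of `T`
acts on them as the same power of `q ^ r`. -/
def IsTate (gr : ℕ → Submodule K A) (T : A →ₐ[K] A) (q r : ℕ) (t : A) : Prop :=
  t ∈ gr (2 * r) ∧ ∃ s ≥ 1, (⇑T)^[s] t = (q : K) ^ (s * r) • t

/-- The element `x` is a linear combination of elements of `S`. -/
def IsComb (K : Type*) [Field K] {A : Type*} [Ring A] [Algebra K A] (S : Set A) (x : A) : Prop :=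
  x ∈ Submodule.span K S

/-- For `2 j ≤ n` every element of `N (n - j)` is the product of `ξ ^ (n - 2 j)` and an element of
`N j`. -/
def HasDivision (n : ℕ) (ξ : A) (N : ℕ → Set A) : Prop :=
  ∀ j, 2 * j ≤ n → ∀ x ∈ N (n - j), ∃ y ∈ N j, ξ ^ (n - 2 * j) * y = x

/-- The sets `N r` contain `ξ` (for `r = 1`) and are closed under rational linear combinations and
products, and if `b` is in `C r`, `2 r ≤ n`, and `ξ ^ (n - 2 r) b` is in `N (n - r)`, then `b` is in
`N r`. -/
structure IsLefschetzRing (K : Type*) [Field K] {A : Type*} [Ring A] [Algebra K A] (n : ℕ) (ξ : A)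
    (C N : ℕ → Set A) : Prop where
  xi : ξ ∈ N 1
  add : ∀ r, ∀ x ∈ N r, ∀ y ∈ N r, x + y ∈ N r
  smul : ∀ r (s : ℚ), ∀ x ∈ N r, (s : K) • x ∈ N r
  mul : ∀ r s, ∀ x ∈ N r, ∀ y ∈ N s, x * y ∈ N (r + s)
  lef : ∀ r, 2 * r ≤ n → ∀ b ∈ C r, ξ ^ (n - 2 * r) * b ∈ N (n - r) → b ∈ N r

/-- The Kunneth formula for the homomorphisms `p` and `q`. -/
def KunnethPair {K : Type*} [Field K] {A B C : Type*} [Ring A] [Algebra K A] [Ring B] [Algebra K B]
    [Ring C] [Algebra K C] (p : A →ₐ[K] C) (q : B →ₐ[K] C) : Prop :=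
  Function.Bijective (kunnethMap p q)

end Abs

variable {k : Type u} [Field k] {𝒱 : VarClass k} {ops : CycleOps 𝒱}

section Single

variable (W : WeilCohomology.{u, v} ops)

/-- The class of the divisor `D` satisfies the hard Lefschetz theorem, and the conjecture `A(X, D)`
of Lefschetz type holds: for `2 j ≤ dim X` every algebraic class of codimension `dim X - j` is the
product of the power `dim X - 2 j` of the class of `D` and an algebraic class of codimension `j`. -/
def LefschetzConj (X : 𝒱.Obj) (D : X.Cycles) : Prop :=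
  HardLef (W.gr X) X.dim (LinearMap.mulLeft W.K (W.cl X D)) ∧
    HasDivision X.dim (W.cl X D) (algClasses W X)

/-- The map `c` is a Hodge-Riemann involution in all degrees for `X` and `D`. -/
def IsHodgeInvolution (X : 𝒱.Obj) (D : X.Cycles) (ι : W.K ≃+* ℂ) (c : W.H X → W.H X) : Prop :=
  FullHR (W.gr X) X.dim (W.tr X) (W.cl X D) ι c

/-- The maps `c` and `c'` commute with the pull-back by `f`. -/
def Intertwines {X Y : 𝒱.Obj} (f : X ⟶ Y) (c : W.H X → W.H X) (c' : W.H Y → W.H Y) : Prop :=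
  ∀ a, c (W.map f a) = W.map f (c' a)

/-- The pull-back by `f` multiplies the class of the cycle `z` by `n`. -/
def MulClass {X : 𝒱.Obj} (f : X ⟶ X) (n : ℕ) (z : X.Cycles) : Prop :=
  MulBy (W.map f) n (W.cl X z)

/-- The Kunneth formula for the projections `a` and `b`. -/
def IsProduct {X Y Z : 𝒱.Obj} (a : Z ⟶ X) (b : Z ⟶ Y) : Prop :=
  KunnethPair (W.map a) (W.map b)

/-- The pull-back by `f` acts semisimply on the cohomology. -/
def IsSemisimple {X : 𝒱.Obj} (f : X ⟶ X) : Prop := EigenSpan (W.map f).toLinearMap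

/-- The endomorphism `f` of `X` has the properties of a Frobenius endomorphism relative to a field
with `q` elements: it multiplies the class of the divisor `D` by `q`, the algebraic classes of
codimension `r` are Tate classes, and the Riemann hypothesis holds. -/
structure IsFrobeniusOf (X : 𝒱.Obj) (D : X.Cycles) (f : X ⟶ X) (q : ℕ) : Prop where
  polar : MulClass W f q D
  cyc : ∀ r, ∀ x ∈ algClasses W X r, IsTate (W.gr X) (W.map f) q r x
  rh : RiemannHypothesis W X f q

/-- The Tate conjecture in codimension `r`: the Tate classes of degree `2 r` are linear combinations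
of classes of cycles with coefficients in the coefficient field. -/
def TateConj (X : 𝒱.Obj) (f : X ⟶ X) (q r : ℕ) : Prop :=
  ∀ t, IsTate (W.gr X) (W.map f) q r t → IsComb W.K (algClasses W X r) t

/-- The pull-backs by `f` of the elements of `N' r` are in `N r`. -/
def PullsBack {X Y : 𝒱.Obj} (f : X ⟶ Y) (N : ℕ → Set (W.H X)) (N' : ℕ → Set (W.H Y)) : Prop :=
  ∀ r, ∀ y ∈ N' r, W.map f y ∈ N r

/-- The push-forwards by `f` of the elements of `N r` are in `N' s`, where `s` is the codimension of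
the push-forwards of cycles of codimension `r`. -/
def PushesForward {X Y : 𝒱.Obj} (f : X ⟶ Y) (N : ℕ → Set (W.H X)) (N' : ℕ → Set (W.H Y)) :
    Prop :=
  ∀ r s, r + Y.dim = s + X.dim → ∀ x ∈ N r, W.push f x ∈ N' s

end Single

/-- A diagram of varieties `X i` with divisors `D i`, sets `M i j` of morphisms `X i → X j` and sets
`Z i r` of cycles of codimension `r` on `X i`. -/
structure Diagram (𝒱 : VarClass k) where
  J : Type
  X : J → 𝒱.Obj
  D : ∀ i, (X i).Cycles
  M : ∀ i j, Set (X i ⟶ X j)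
  Z : ∀ i, ℕ → Set (X i).Cycles

/-- The morphisms between two members of the diagram. -/
abbrev Diagram.Hom (𝓓 : Diagram 𝒱) (i j : 𝓓.J) : Type u := 𝓓.X i ⟶ 𝓓.X j

/-- The composition of morphisms between members of the diagram. -/
abbrev Diagram.comp (𝓓 : Diagram 𝒱) {i j l : 𝓓.J} (f : 𝓓.Hom i j) (h : 𝓓.Hom j l) : 𝓓.Hom i l :=
  f ≫ h

/-- The endomorphisms `F i` of the `X i` commute with the morphisms in the sets `M i j`. -/
def Diagram.Commutes (𝓓 : Diagram 𝒱) (F : ∀ i, 𝓓.Hom i i) : Prop :=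
  ∀ i j, ∀ f ∈ 𝓓.M i j, 𝓓.comp (F i) f = 𝓓.comp f (F j)

/-- The `D i` are divisors and the elements of `Z i r` are cycles of codimension `r`. -/
def Diagram.IsGraded (𝓓 : Diagram 𝒱) : Prop :=
  (∀ i, (𝓓.X i).IsCyc 1 (𝓓.D i)) ∧ ∀ i r, ∀ z ∈ 𝓓.Z i r, (𝓓.X i).IsCyc r z

/-- The Hodge theory of a lifting to characteristic zero of the diagram: Hodge-Riemann involutions
`c i` of the cohomology of the `X i` for the divisors `D i` which commute with the pull-backs by the
morphisms in the sets `M i j`, and fix the classes of the cycles in the sets `Z i r`. -/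
def Lifts (W : WeilCohomology.{u, v} ops) (ι : W.K ≃+* ℂ) (𝓓 : Diagram 𝒱) : Prop :=
  ∃ c : ∀ i, W.H (𝓓.X i) → W.H (𝓓.X i),
    (∀ i, IsHodgeInvolution W (𝓓.X i) (𝓓.D i) ι (c i)) ∧
    (∀ i j, ∀ f ∈ 𝓓.M i j, Intertwines W f (c i) (c j)) ∧
    ∀ i r, ∀ z ∈ 𝓓.Z i r, c i (W.cl (𝓓.X i) z) = W.cl (𝓓.X i) z

/-- The endomorphisms `F i` of the `X i` are Frobenius endomorphisms relative to a field with `q`
elements over which the divisors `D i`, the morphisms in `M i j` and the cycles in `Z i r` are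
defined: they commute with these morphisms and multiply the classes of the cycles in `Z i r` by
`q ^ r`. -/
structure IsFrobenius (W : WeilCohomology.{u, v} ops) (𝓓 : Diagram 𝒱) (q : ℕ)
    (F : ∀ i, 𝓓.Hom i i) : Prop where
  pos : 0 < q
  each : ∀ i, IsFrobeniusOf W (𝓓.X i) (𝓓.D i) (F i) q
  comm : 𝓓.Commutes F
  fix : ∀ i r, ∀ z ∈ 𝓓.Z i r, MulClass W (F i) (q ^ r) z

/-- The group `G` acts on the varieties of the diagram by automorphisms `g a i` of the `X i` which
fix the classes of the divisors `D i` and of the cycles in the sets `Z i r`, and commute with the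
morphisms in the sets `M i j` and with the Frobenius endomorphisms. -/
structure IsSymmetry (W : WeilCohomology.{u, v} ops) (𝓓 : Diagram 𝒱) (F : ∀ i, 𝓓.Hom i i)
    {G : Type} [Group G] (g : G → ∀ i, 𝓓.Hom i i) : Prop where
  one : ∀ i, g 1 i = 𝟙 (𝓓.X i)
  mul : ∀ a b i, g (a * b) i = 𝓓.comp (g a i) (g b i)
  polar : ∀ a i, MulClass W (g a i) 1 (𝓓.D i)
  comm : ∀ a, 𝓓.Commutes (g a)
  fix : ∀ a i r, ∀ z ∈ 𝓓.Z i r, MulClass W (g a i) 1 z
  frob : ∀ a i, 𝓓.comp (g a i) (F i) = 𝓓.comp (F i) (g a i)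

/-- The smallest class of morphisms between the varieties of the diagram which contains the
morphisms in the sets `M i j`, the automorphisms `g a i`, and the Frobenius endomorphisms which act
semisimply on the cohomology, is closed under compositions, and contains a morphism `f` to a
product (a variety with two projections `a` and `b` in the class which satisfy the Kunneth formula)
if it contains the components of `f`. -/
inductive GoodMor (W : WeilCohomology.{u, v} ops) (𝓓 : Diagram 𝒱) (F : ∀ i, 𝓓.Hom i i)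
    {G : Type} (g : G → ∀ i, 𝓓.Hom i i) : ∀ (i j : 𝓓.J), 𝓓.Hom i j → Prop
  | lifted {i j : 𝓓.J} {f : 𝓓.Hom i j} : f ∈ 𝓓.M i j → GoodMor W 𝓓 F g i j f
  | id (i : 𝓓.J) : GoodMor W 𝓓 F g i i (𝟙 (𝓓.X i))
  | comp {i j l : 𝓓.J} {f : 𝓓.Hom i j} {h : 𝓓.Hom j l} :
      GoodMor W 𝓓 F g i j f → GoodMor W 𝓓 F g j l h → GoodMor W 𝓓 F g i l (𝓓.comp f h)
  | frob (i : 𝓓.J) : IsSemisimple W (F i) → GoodMor W 𝓓 F g i i (F i)
  | sym (a : G) (i : 𝓓.J) : GoodMor W 𝓓 F g i i (g a i)
  | prod {t l i j : 𝓓.J} {f : 𝓓.Hom t l} {a : 𝓓.Hom l i} {b : 𝓓.Hom l j} :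
      GoodMor W 𝓓 F g l i a → GoodMor W 𝓓 F g l j b → IsProduct W a b →
      GoodMor W 𝓓 F g t i (𝓓.comp f a) → GoodMor W 𝓓 F g t j (𝓓.comp f b) →
      GoodMor W 𝓓 F g t l f

/-- The sets `N i r` of classes of codimension `r` on the varieties `X i` of the diagram contain the
algebraic classes of codimension at most `m i` on `X i`, the class of `D i` and the classes of the
cycles in the sets `Z i r`; they are closed under rational linear combinations, products, pull-backs
and push-forwards by the morphisms of the class `GoodMor`, and under the Lefschetz decomposition of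
algebraic classes. -/
structure IsSystem (W : WeilCohomology.{u, v} ops) (𝓓 : Diagram 𝒱) (F : ∀ i, 𝓓.Hom i i)
    {G : Type} (g : G → ∀ i, 𝓓.Hom i i) (m : 𝓓.J → ℕ) (N : ∀ i, ℕ → Set (W.H (𝓓.X i))) : Prop where
  low : ∀ i, ∀ r ≤ m i, algClasses W (𝓓.X i) r ⊆ N i r
  lifted : ∀ i r, ∀ z ∈ 𝓓.Z i r, W.cl (𝓓.X i) z ∈ N i r
  ring : ∀ i, IsLefschetzRing W.K (𝓓.X i).dim (W.cl (𝓓.X i) (𝓓.D i)) (algClasses W (𝓓.X i)) (N i)
  pull : ∀ i j (f : 𝓓.Hom i j), GoodMor W 𝓓 F g i j f → PullsBack W f (N i) (N j)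
  push : ∀ i j (f : 𝓓.Hom i j), GoodMor W 𝓓 F g i j f → PushesForward W f (N i) (N j)

/-- The class `x` on `X i` is a linear combination, with coefficients in the coefficient field, of
classes of the same codimension in the smallest system `N` which satisfies `IsSystem`. -/
def Generated (W : WeilCohomology.{u, v} ops) (𝓓 : Diagram 𝒱) (F : ∀ i, 𝓓.Hom i i)
    {G : Type} (g : G → ∀ i, 𝓓.Hom i i) (m : 𝓓.J → ℕ) (i : 𝓓.J) (x : W.H (𝓓.X i)) : Prop :=
  ∃ r, IsComb W.K {y | ∀ N, IsSystem W 𝓓 F g m N → y ∈ N i r} x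

end Pool.Agent.H90.HR
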