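import Pool.Agent.H90.HR.Nd
import Pool.Agent.H90.HR.FamFrob

/-!
# Tate classes and the unimodular part of Frobenius
-/

open CategoryTheory AlgebraicGeometry Module

universe u v

namespace Pool.Agent.H90.HR

open Pool.Agent.H914 Pool.Agent.H914.VarClass Pool.Agent.H914.VarClass.Obj
  Pool.Agent.H914.WeilCohomology Pool.Agent.H281R3.HT Pool.Agent.W552 Pool.Agent.Y103

section Lin

variable {K : Type*} [Field K] [IsAlgClosed K] {A : Type*} [AddCommGroup A] [Module K A]
  [FiniteDimensional K A] {L : End K A} {ι : K ≃+* ℂ}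

omit [IsAlgClosed K] in
lemma uni_pow (ι : K ≃+* ℂ) (l : K) (s : ℕ) : uni ι (l ^ s) = uni ι l ^ s := by
  induction s with
  | zero =>
    rw [pow_zero, pow_zero]
    have := uni_cast ι (q := 1) one_pos 1
    rwa [Nat.cast_one, one_pow] at this
  | succ s ih => rw [pow_succ, uni_mul, ih, pow_succ]

lemma fn_pow_apply (χ : K → K) {l : K} {x : A} (hx : x ∈ L.maxGenEigenspace l) (s : ℕ) :
    (fn L χ ^ s) x = χ l ^ s • x := by
  induction s with
  | zero => rw [pow_zero, pow_zero, one_smul, Module.End.one_apply]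
  | succ s ih => rw [pow_succ', Module.End.mul_apply, ih, map_smul, fn_apply L χ hx, smul_smul,
      pow_succ]

omit [IsAlgClosed K] [FiniteDimensional K A] in
lemma eig_pow {l : K} {y : A} (hy : L y = l • y) (s : ℕ) : (L ^ s) y = l ^ s • y := by
  induction s with
  | zero => rw [pow_zero, pow_zero, one_smul, Module.End.one_apply]
  | succ s ih => rw [pow_succ', Module.End.mul_apply, ih, map_smul, hy, smul_smul, pow_succ]

/-- If a power of the operator acts as a positive number, the same power of the unimodular part acts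
trivially. -/
lemma u_of_frob {q : ℕ} (hq : 0 < q) {s r : ℕ} {x : A} (hx : (L ^ s) x = (q : K) ^ r • x) :
    (fn L (uni ι) ^ s) x = x := by
  set V : Submodule K A := LinearMap.ker (L ^ s - (q : K) ^ r • (1 : End K A)) with hV
  have hmem : ∀ y, y ∈ V ↔ (L ^ s) y = (q : K) ^ r • y := by
    intro y
    rw [hV, LinearMap.mem_ker, LinearMap.sub_apply, LinearMap.smul_apply, Module.End.one_apply,
      sub_eq_zero]
  have hVs : ∀ y ∈ V, L y ∈ V := by
    intro y hy
    rw [hmem] at hy ⊢
    rw [← Module.End.mul_apply, ← pow_succ, pow_succ', Module.End.mul_apply, hy, map_smul]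
  refine gen_ind_sub L hVs (p := fun x => (fn L (uni ι) ^ s) x = x) (map_zero _) ?_ ?_
    ((hmem x).2 hx)
  · intro x y h1 h2
    rw [map_add, h1, h2]
  · intro l x hx hxV
    by_cases hx0 : x = 0
    · rw [hx0, map_zero]
    · obtain ⟨y, hyV, hy0, hy⟩ := exists_eig_of_gen hVs hx hxV hx0
      have h1 := (hmem y).1 hyV
      rw [eig_pow hy] at h1
      have h2 : l ^ s = (q : K) ^ r := by
        have h3 : (l ^ s - (q : K) ^ r) • y = 0 := by rw [sub_smul, h1, sub_self]
        exact sub_eq_zero.1 ((smul_eq_zero.1 h3).resolve_right hy0)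
      rw [fn_pow_apply _ hx, ← uni_pow, h2, uni_cast ι hq, one_smul]

/-- If a power of the unimodular part acts trivially on an element of a stable subspace on which
the eigenvalues have absolute value `q ^ j`, the same power of the operator acts on it as `q ^ (s j)`,
up to a nilpotent operator. -/
lemma frob_of_u {q : ℕ} {s j : ℕ} {G : Submodule K A}
    (hG : ∀ y ∈ G, L y ∈ G)
    (hRH : ∀ y ∈ G, y ≠ 0 → ∀ l : K, L y = l • y → ‖ι l‖ ^ 2 = (q : ℝ) ^ (2 * j)) {x : A}
    (hxG : x ∈ G) (hx : (fn L (uni ι) ^ s) x = x) :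
    ∃ t : ℕ, ((L ^ s - (q : K) ^ (s * j) • (1 : End K A)) ^ t) x = 0 := by
  have hcomm : ∀ y, fn L (uni ι) (L y) = L (fn L (uni ι) y) := fun y =>
    (fn_comm (F := L) (G := L) L (fun _ => rfl) (uni ι) y).symm
  have hcomms : ∀ (t : ℕ) y, (fn L (uni ι) ^ t) (L y) = L ((fn L (uni ι) ^ t) y) := by
    intro t
    induction t with
    | zero => intro y; rfl
    | succ t ih => intro y; rw [pow_succ, Module.End.mul_apply, hcomm, ih, Module.End.mul_apply]
  set V : Submodule K A := G ⊓ LinearMap.ker (fn L (uni ι) ^ s - 1) with hV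
  have hmem : ∀ y, y ∈ V ↔ y ∈ G ∧ (fn L (uni ι) ^ s) y = y := by
    intro y
    rw [hV, Submodule.mem_inf, LinearMap.mem_ker, LinearMap.sub_apply, Module.End.one_apply,
      sub_eq_zero]
  have hVs : ∀ y ∈ V, L y ∈ V := by
    intro y hy
    rw [hmem] at hy ⊢
    exact ⟨hG y hy.1, by rw [hcomms, hy.2]⟩
  refine gen_ind_sub L hVs (p := fun x =>
    ∃ t : ℕ, ((L ^ s - (q : K) ^ (s * j) • (1 : End K A)) ^ t) x = 0) ⟨0, by simp⟩ ?_ ?_
    ((hmem x).2 ⟨hxG, hx⟩)
  · rintro x y ⟨t, ht⟩ ⟨t', ht'⟩
    refine ⟨t + t', ?_⟩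
    rw [map_add]
    have h1 : ((L ^ s - (q : K) ^ (s * j) • (1 : End K A)) ^ (t + t')) x = 0 := by
      rw [add_comm t t', pow_add, Module.End.mul_apply, ht, map_zero]
    have h2 : ((L ^ s - (q : K) ^ (s * j) • (1 : End K A)) ^ (t + t')) y = 0 := by
      rw [pow_add, Module.End.mul_apply, ht', map_zero]
    rw [h1, h2, add_zero]
  · intro l x hx hxV
    by_cases hx0 : x = 0
    · exact ⟨0, by rw [pow_zero, Module.End.one_apply, hx0]⟩
    · obtain ⟨y, hyV, hy0, hy⟩ := exists_eig_of_gen hVs hx hxV hx0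
      have h1 := hRH y ((hmem y).1 hyV).1 hy0 l hy
      have h2 : uni ι l ^ s = 1 := by
        have h3 := ((hmem x).1 hxV).2
        rw [fn_pow_apply _ hx] at h3
        have h4 : (uni ι l ^ s - 1) • x = 0 := by rw [sub_smul, h3, one_smul, sub_self]
        exact sub_eq_zero.1 ((smul_eq_zero.1 h4).resolve_right hx0)
      have h3 : ‖ι l‖ = (q : ℝ) ^ j := by
        rw [show 2 * j = j * 2 by ring, pow_mul] at h1
        exact (pow_left_inj₀ (norm_nonneg _) (by positivity) two_ne_zero).1 h1
      have h4 : l ^ s = (q : K) ^ (s * j) := by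
        apply ι.injective
        rw [map_pow, map_pow, map_natCast]
        by_cases hn : ‖ι l‖ = 0
        · have h5 : ι l = 0 := norm_eq_zero.1 hn
          have h6 : (q : ℝ) ^ j = 0 := by rw [← h3, hn]
          have h7 : (q : ℂ) ^ j = 0 := by exact_mod_cast h6
          have h8 : l = 0 := by
            apply ι.injective
            rw [h5, map_zero]
          rw [h5, mul_comm s j, pow_mul, h7]
        · have h5 : ι (uni ι l) * (‖ι l‖ : ℂ) = ι l := by
            unfold uni
            rw [ι.apply_symm_apply, div_mul_cancel₀]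
            exact_mod_cast hn
          rw [← h5, mul_pow, ← map_pow, h2, map_one, one_mul, h3]
          push_cast
          rw [← pow_mul, mul_comm j s]
      rw [Module.End.mem_maxGenEigenspace] at hx
      obtain ⟨t, ht⟩ := hx
      refine ⟨t, ?_⟩
      have h5 : Commute L (l • (1 : End K A)) := (Commute.one_right L).smul_right l
      have h6 : (l • (1 : End K A)) ^ s = (q : K) ^ (s * j) • (1 : End K A) := by
        rw [smul_pow, one_pow, h4]
      have h7 := h5.geom_sum₂_mul s
      have h8 : Commute (∑ i ∈ Finset.range s, L ^ i * (l • (1 : End K A)) ^ (s - 1 - i))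
          (L - l • (1 : End K A)) := by
        refine Commute.sum_left _ _ _ (fun i _ => ?_)
        refine Commute.mul_left ?_ ?_
        · exact ((Commute.refl L).sub_right h5).pow_left i
        · exact (h5.symm.sub_right (Commute.refl _)).pow_left _
      rw [← h6, ← h7, h8.mul_pow, Module.End.mul_apply, ht, map_zero]

end Lin

end Pool.Agent.H90.HR
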